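import Mathlib

open Polynomial

namespace Pool.Agent.Lib.H65.Fad

variable {K : Type*} [Field K]

/-- The function `x ↦ φ^k (x i)` on `K^r`. -/
def E (φ : RingAut K) (r : ℕ) (i : Fin r) (k : ℤ) : (Fin r → K) → K := fun x => (φ ^ k) (x i)

/-- The `K`-span of all the functions `x ↦ φ^k (x i)`, `k : ℤ`. -/
def M (φ : RingAut K) (r : ℕ) : Submodule K ((Fin r → K) → K) :=
  Submodule.span K (Set.range (fun ik : Fin r × ℤ => E φ r ik.1 ik.2))

/-- The `K`-span of all the functions `x ↦ φ^k (x i)`, `|k| ≤ j`. -/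
def Mj (φ : RingAut K) (r : ℕ) (j : ℕ) : Submodule K ((Fin r → K) → K) :=
  Submodule.span K (Set.range (fun ik : Fin r × (Finset.Icc (-(j:ℤ)) j) => E φ r ik.1 ik.2))

variable {φ : RingAut K} {r : ℕ}

lemma E_mem_M (i : Fin r) (k : ℤ) : E φ r i k ∈ M φ r :=
  Submodule.subset_span ⟨(i, k), rfl⟩

lemma E_mem_Mj (i : Fin r) (k : ℤ) (j : ℕ) (h1 : -(j:ℤ) ≤ k) (h2 : k ≤ j) :
    E φ r i k ∈ Mj φ r j :=
  Submodule.subset_span ⟨(i, ⟨k, Finset.mem_Icc.2 ⟨h1, h2⟩⟩), rfl⟩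

lemma Mj_le_M (j : ℕ) : Mj φ r j ≤ M φ r := by
  refine Submodule.span_le.2 ?_
  rintro _ ⟨⟨i, k⟩, rfl⟩
  exact E_mem_M i k

lemma Mj_mono {j j' : ℕ} (h : j ≤ j') : Mj φ r j ≤ Mj φ r j' := by
  refine Submodule.span_le.2 ?_
  rintro _ ⟨⟨i, k, hk⟩, rfl⟩
  rw [Finset.mem_Icc] at hk
  exact E_mem_Mj i k j' (by omega) (by omega)

lemma exists_Mj_of_mem {m : (Fin r → K) → K} (hm : m ∈ M φ r) : ∃ j, m ∈ Mj φ r j := by
  refine Submodule.span_induction (p := fun m _ => ∃ j, m ∈ Mj φ r j) ?_ ?_ ?_ ?_ hm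
  · rintro _ ⟨⟨i, k⟩, rfl⟩
    exact ⟨k.natAbs, E_mem_Mj i k _ (by omega) (by omega)⟩
  · exact ⟨0, Submodule.zero_mem _⟩
  · rintro x y _ _ ⟨j, hj⟩ ⟨j', hj'⟩
    exact ⟨max j j', Submodule.add_mem _ (Mj_mono (le_max_left _ _) hj)
      (Mj_mono (le_max_right _ _) hj')⟩
  · rintro a x _ ⟨j, hj⟩
    exact ⟨j, Submodule.smul_mem _ _ hj⟩

lemma M_add {m : (Fin r → K) → K} (hm : m ∈ M φ r) (x y : Fin r → K) :
    m (x + y) = m x + m y := by
  refine Submodule.span_induction (p := fun m _ => ∀ x y, m (x + y) = m x + m y) ?_ ?_ ?_ ?_ hm x y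
  · rintro _ ⟨⟨i, k⟩, rfl⟩ x y
    simp [E]
  · intro x y; simp
  · intro m m' _ _ h h' x y
    simp only [Pi.add_apply, h, h']; ring
  · intro a m _ h x y
    simp only [Pi.smul_apply, h, smul_add]

/-- twist by `φ^k` -/
lemma twist_mem_Mj {m : (Fin r → K) → K} {j : ℕ} (hm : m ∈ Mj φ r j) (k : ℤ) :
    (fun x => (φ ^ k) (m x)) ∈ Mj φ r (j + k.natAbs) := by
  refine Submodule.span_induction (p := fun m _ => (fun x => (φ ^ k) (m x)) ∈ Mj φ r (j + k.natAbs))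
    ?_ ?_ ?_ ?_ hm
  · rintro _ ⟨⟨i, l, hl⟩, rfl⟩
    rw [Finset.mem_Icc] at hl
    have : (fun x => (φ ^ k) (E φ r i l x)) = E φ r i (k + l) := by
      funext x; simp only [E, zpow_add]; rfl
    simp only [this]
    exact E_mem_Mj i _ _ (by omega) (by omega)
  · have : (fun x => (φ ^ k) ((0 : (Fin r → K) → K) x)) = 0 := by funext x; simp
    rw [this]; exact Submodule.zero_mem _
  · intro m m' _ _ h h'
    have : (fun x => (φ ^ k) ((m + m') x)) = (fun x => (φ ^ k) (m x)) + (fun x => (φ ^ k) (m' x)) := by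
      funext x; simp
    rw [this]; exact Submodule.add_mem _ h h'
  · intro a m _ h
    have : (fun x => (φ ^ k) ((a • m) x)) = ((φ ^ k) a) • (fun x => (φ ^ k) (m x)) := by
      funext x; simp
    rw [this]; exact Submodule.smul_mem _ _ h

lemma twist_mem_M {m : (Fin r → K) → K} (hm : m ∈ M φ r) (k : ℤ) :
    (fun x => (φ ^ k) (m x)) ∈ M φ r := by
  obtain ⟨j, hj⟩ := exists_Mj_of_mem hm
  exact Mj_le_M _ (twist_mem_Mj hj k)

/-- pull-back -/
lemma comp_mem_Mj {F : (Fin r → K) → (Fin r → K)} {s : ℕ} (hF : ∀ i, (fun x => F x i) ∈ Mj φ r s)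
    {m : (Fin r → K) → K} {j : ℕ} (hm : m ∈ Mj φ r j) : (fun x => m (F x)) ∈ Mj φ r (s + j) := by
  refine Submodule.span_induction (p := fun m _ => (fun x => m (F x)) ∈ Mj φ r (s + j))
    ?_ ?_ ?_ ?_ hm
  · rintro _ ⟨⟨i, l, hl⟩, rfl⟩
    rw [Finset.mem_Icc] at hl
    have h1 := twist_mem_Mj (hF i) l
    exact Mj_mono (by omega) h1
  · exact Submodule.zero_mem _
  · intro m m' _ _ h h'
    exact Submodule.add_mem _ h h'
  · intro a m _ h
    exact Submodule.smul_mem _ _ h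

lemma comp_mem_M {F : (Fin r → K) → (Fin r → K)} (hF : ∀ i, (fun x => F x i) ∈ M φ r)
    {m : (Fin r → K) → K} (hm : m ∈ M φ r) : (fun x => m (F x)) ∈ M φ r := by
  refine Submodule.span_induction (p := fun m _ => (fun x => m (F x)) ∈ M φ r)
    ?_ ?_ ?_ ?_ hm
  · rintro _ ⟨⟨i, l⟩, rfl⟩
    exact twist_mem_M (hF i) l
  · exact Submodule.zero_mem _
  · intro m m' _ _ h h'
    exact Submodule.add_mem _ h h'
  · intro a m _ h
    exact Submodule.smul_mem _ _ h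

/-- A self-map of `K^r` with components in `M`. -/
def IsMor (φ : RingAut K) (F : (Fin r → K) → (Fin r → K)) : Prop := ∀ i, (fun x => F x i) ∈ M φ r

lemma IsMor.map_add {F : (Fin r → K) → (Fin r → K)} (hF : IsMor φ F) (x y : Fin r → K) :
    F (x + y) = F x + F y := by
  funext i; exact M_add (hF i) x y

lemma IsMor.exists_Mj {F : (Fin r → K) → (Fin r → K)} (hF : IsMor φ F) :
    ∃ s, ∀ i, (fun x => F x i) ∈ Mj φ r s := by
  choose j hj using fun i => exists_Mj_of_mem (hF i)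
  exact ⟨Finset.univ.sup j, fun i => Mj_mono (Finset.le_sup (Finset.mem_univ i)) (hj i)⟩

lemma IsMor.comp {F G : (Fin r → K) → (Fin r → K)} (hF : IsMor φ F) (hG : IsMor φ G) :
    IsMor φ (fun x => G (F x)) := fun i => comp_mem_M hF (hG i)

lemma IsMor.id : IsMor φ (fun x : Fin r → K => x) := by
  intro i
  have h := E_mem_M (φ := φ) i 0
  have h2 : E φ r i 0 = fun x => x i := by funext x; simp [E]
  rwa [h2] at h

/-- pull-back as an endomorphism of `M` -/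
def pull {F : (Fin r → K) → (Fin r → K)} (hF : IsMor φ F) : M φ r →ₗ[K] M φ r where
  toFun m := ⟨fun x => m.1 (F x), comp_mem_M hF m.2⟩
  map_add' _ _ := rfl
  map_smul' _ _ := rfl

@[simp] lemma pull_apply {F : (Fin r → K) → (Fin r → K)} (hF : IsMor φ F) (m : M φ r)
    (x : Fin r → K) : (pull hF m).1 x = m.1 (F x) := rfl

end Pool.Agent.Lib.H65.Fad
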