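import Mathlib
import Pool.Agent.Lib.H65.FadA

open Polynomial

namespace Pool.Agent.Lib.H65.Fad

variable {K : Type*} [Field K] {φ : RingAut K} {p : ℕ}

lemma phi_pow (hφ : ∀ x, φ x = x ^ p) (k : ℕ) (x : K) : (φ ^ k) x = x ^ (p ^ k) := by
  induction k with
  | zero => simp
  | succ k ih => rw [pow_succ', RingAut.mul_apply, ih, hφ, ← pow_mul, pow_succ]

/-- one variable additive operator with coefficients `c 0, …, c n` -/
def op (φ : RingAut K) (n : ℕ) (c : ℕ → K) (t : K) : K :=
  ∑ k ∈ Finset.range (n + 1), c k * (φ ^ k) t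

/-- the corresponding polynomial -/
noncomputable def opPoly (p n : ℕ) (c : ℕ → K) : K[X] :=
  ∑ k ∈ Finset.range (n + 1), C (c k) * X ^ (p ^ k)

lemma eval_opPoly (hφ : ∀ x, φ x = x ^ p) (n : ℕ) (c : ℕ → K) (t : K) :
    (opPoly p n c).eval t = op φ n c t := by
  simp [opPoly, op, eval_finsetSum, phi_pow hφ]

lemma natDegree_opPoly [Fact p.Prime] (n : ℕ) (c : ℕ → K) (hn : c n ≠ 0) :
    (opPoly p n c).natDegree = p ^ n := by
  have hp := (Fact.out : p.Prime)
  unfold opPoly
  rw [Finset.sum_range_succ]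
  rw [natDegree_add_eq_right_of_degree_lt]
  · rw [natDegree_C_mul_X_pow _ _ hn]
  · rw [degree_C_mul_X_pow _ hn]
    refine lt_of_le_of_lt (degree_sum_le _ _) ?_
    rw [Finset.sup_lt_iff (by exact WithBot.bot_lt_coe _)]
    intro k hk
    rw [Finset.mem_range] at hk
    refine lt_of_le_of_lt (degree_C_mul_X_pow_le _ _) ?_
    exact_mod_cast Nat.pow_lt_pow_right hp.one_lt hk

lemma derivative_opPoly [CharP K p] (n : ℕ) (c : ℕ → K) :
    derivative (opPoly p n c) = C (c 0) := by
  unfold opPoly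
  rw [Finset.sum_range_succ']
  rw [derivative_add, derivative_sum]
  rw [Finset.sum_eq_zero]
  · simp
  · intro k _
    rw [derivative_C_mul, derivative_X_pow]
    simp

lemma op_add (n : ℕ) (c : ℕ → K) (s t : K) : op φ n c (s + t) = op φ n c s + op φ n c t := by
  simp only [op, map_add, mul_add, Finset.sum_add_distrib]

lemma op_surj [Fact p.Prime] [IsAlgClosed K] (hφ : ∀ x, φ x = x ^ p) (n : ℕ) (c : ℕ → K)
    (hn : c n ≠ 0) (y : K) : ∃ t, op φ n c t = y := by
  have hp := (Fact.out : p.Prime)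
  have hdeg : (opPoly p n c - C y).natDegree = p ^ n := by
    rw [natDegree_sub_C, natDegree_opPoly n c hn]
  have hd : (opPoly p n c - C y).degree ≠ 0 := by
    intro h
    have := natDegree_eq_of_degree_eq_some h
    rw [hdeg] at this
    exact absurd this (pow_pos hp.pos n).ne'
  obtain ⟨t, ht⟩ := IsAlgClosed.exists_root _ hd
  refine ⟨t, ?_⟩
  rw [IsRoot.def, eval_sub, eval_C, eval_opPoly hφ] at ht
  exact sub_eq_zero.1 ht

lemma op_card_ker [Fact p.Prime] [CharP K p] [IsAlgClosed K] (hφ : ∀ x, φ x = x ^ p) (n : ℕ)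
    (c : ℕ → K) (h0 : c 0 ≠ 0) (hn : c n ≠ 0) : Nat.card {t : K // op φ n c t = 0} = p ^ n := by
  have hsep : (opPoly p n c).Separable := by
    rw [separable_def, derivative_opPoly]
    exact (isCoprime_one_right.of_isCoprime_of_dvd_right (dvd_refl _)).of_isCoprime_of_dvd_right
      ((isUnit_C.2 (isUnit_iff_ne_zero.2 h0)).dvd)
  have hne : opPoly p n c ≠ 0 := by
    intro h
    have := natDegree_opPoly (p := p) n c hn
    rw [h, natDegree_zero] at this
    exact absurd this.symm (pow_pos (Fact.out : p.Prime).pos n).ne'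
  have h1 := card_rootSet_eq_natDegree (K := K) hsep (IsAlgClosed.splits _)
  rw [natDegree_opPoly n c hn] at h1
  rw [← h1, ← Nat.card_eq_fintype_card]
  refine Nat.card_congr (Equiv.subtypeEquivRight ?_)
  intro t
  rw [mem_rootSet]
  simp only [coe_aeval_eq_eval, eval_opPoly hφ, ne_eq, hne, not_false_eq_true, true_and]

lemma op_finite_ker [Fact p.Prime] [IsAlgClosed K] (hφ : ∀ x, φ x = x ^ p) (n : ℕ)
    (c : ℕ → K) (hn : ∃ k ≤ n, c k ≠ 0) : Set.Finite {t : K | op φ n c t = 0} := by
  have hne : opPoly p n c ≠ 0 := by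
    obtain ⟨k, hk, hc⟩ := hn
    intro h
    have h2 := congrArg (fun q => coeff q (p ^ k)) h
    simp only [opPoly, finsetSum_coeff, coeff_C_mul, coeff_X_pow, coeff_zero] at h2
    rw [Finset.sum_eq_single k] at h2
    · simp at h2; exact hc h2
    · intro l _ hl
      rw [if_neg]; · simp
      intro h3; exact hl (Nat.pow_right_injective (Fact.out : p.Prime).two_le h3).symm
    · intro h; exact absurd (Finset.mem_range.2 (by omega)) h
  classical
  refine Set.Finite.subset (opPoly p n c).roots.toFinset.finite_toSet ?_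
  intro t ht
  simp only [Set.mem_ofPred_eq] at ht
  simp only [Finset.mem_coe, Multiset.mem_toFinset, mem_roots hne, IsRoot.def, eval_opPoly hφ, ht]

end Pool.Agent.Lib.H65.Fad
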