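import Mathlib
import Pool.Agent.Lib.H65.FadB

open Polynomial

namespace Pool.Agent.Lib.H65.Fad

/-! ### abstract linear algebra -/

section LinAlg

variable {K : Type*} [Field K] {A : Type*} [AddCommGroup A] [Module K A]

/-- additivity of the codimension of the range for composites -/
lemma length_comp (S T : A →ₗ[K] A) (hS : Function.Injective S) :
    Module.length K (A ⧸ LinearMap.range (S ∘ₗ T)) =
      Module.length K (A ⧸ LinearMap.range T) + Module.length K (A ⧸ LinearMap.range S) := by
  have h1 : LinearMap.range T ≤ (LinearMap.range (S ∘ₗ T)).comap S := by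
    rintro _ ⟨x, rfl⟩
    exact ⟨x, rfl⟩
  have h2 : LinearMap.range (S ∘ₗ T) ≤ LinearMap.range S := by
    rintro _ ⟨x, rfl⟩
    exact ⟨T x, rfl⟩
  refine Module.length_eq_add_of_exact (Submodule.mapQ _ _ S h1) (Submodule.factor h2) ?_ ?_ ?_
  · rw [← LinearMap.ker_eq_bot, LinearMap.ker_eq_bot']
    intro x hx
    obtain ⟨y, rfl⟩ := Submodule.Quotient.mk_surjective _ x
    rw [Submodule.mapQ_apply, Submodule.Quotient.mk_eq_zero] at hx
    obtain ⟨z, hz⟩ := hx
    rw [Submodule.Quotient.mk_eq_zero]
    exact ⟨z, hS hz⟩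
  · exact Submodule.factor_surjective h2
  · intro x
    obtain ⟨y, rfl⟩ := Submodule.Quotient.mk_surjective _ x
    constructor
    · intro hy
      have hy' : y ∈ LinearMap.range S :=
        (Submodule.Quotient.mk_eq_zero _).1
          (show (Submodule.Quotient.mk y : A ⧸ LinearMap.range S) = 0 from hy)
      obtain ⟨z, rfl⟩ := hy'
      exact ⟨Submodule.Quotient.mk z, by rw [Submodule.mapQ_apply]⟩
    · rintro ⟨z, hz⟩
      obtain ⟨w, rfl⟩ := Submodule.Quotient.mk_surjective _ z
      rw [Submodule.mapQ_apply] at hz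
      rw [← hz]
      exact (Submodule.Quotient.mk_eq_zero _).2 ⟨w, rfl⟩

end LinAlg

variable {K : Type*} [Field K] {φ : RingAut K} {p : ℕ} {r : ℕ}

lemma phi_not_finOrder [Fact p.Prime] [IsAlgClosed K] (hφ : ∀ x, φ x = x ^ p) :
    ¬ IsOfFinOrder φ := by
  intro h
  obtain ⟨n, hn, hn1⟩ := isOfFinOrder_iff_pow_eq_one.1 h
  have hfin := op_finite_ker (φ := φ) hφ n (fun k => if k = n then 1 else if k = 0 then -1 else 0)
    ⟨n, le_rfl, by simp⟩
  have : {t : K | op φ n (fun k => if k = n then 1 else if k = 0 then -1 else 0) t = 0} = Set.univ := by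
    ext t
    simp only [op, Set.mem_ofPred_eq, Set.mem_univ, iff_true]
    rw [Finset.sum_range_succ, Finset.sum_eq_single 0]
    · simp [hn1, hn.ne]
    · intro k hk hk0
      rw [Finset.mem_range] at hk
      simp [hk.ne, hk0]
    · intro h; exact absurd (Finset.mem_range.2 hn) h
  rw [this] at hfin
  have : Infinite K := inferInstance
  exact Set.infinite_univ hfin

lemma phi_zpow_inj [Fact p.Prime] [IsAlgClosed K] (hφ : ∀ x, φ x = x ^ p) :
    Function.Injective (fun k : ℤ => φ ^ k) :=
  injective_zpow_iff_not_isOfFinOrder.2 (phi_not_finOrder hφ)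

lemma linInd_one [Fact p.Prime] [IsAlgClosed K] (hφ : ∀ x, φ x = x ^ p) :
    LinearIndependent K (fun (k : ℤ) (t : K) => (φ ^ k) t) := by
  have h := linearIndependent_monoidHom K K
  have h2 := h.comp (fun k : ℤ => ((φ ^ k : RingAut K) : K →* K)) (by
    intro k l hkl
    apply phi_zpow_inj hφ
    ext t
    exact DFunLike.congr_fun hkl t)
  exact h2

lemma linInd_E [Fact p.Prime] [IsAlgClosed K] (hφ : ∀ x, φ x = x ^ p) :
    LinearIndependent K (fun ik : Fin r × ℤ => E φ r ik.1 ik.2) := by
  classical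
  rw [linearIndependent_iff']
  intro s g hg ⟨i, k⟩ hik
  have h1 := linearIndependent_iff'.1 (linInd_one (φ := φ) hφ) (s.image Prod.snd)
    (fun l => if (i, l) ∈ s then g (i, l) else 0) ?_ k (Finset.mem_image_of_mem _ hik)
  · simpa [hik] using h1
  · funext t
    have h2 := congrFun hg (Pi.single i t)
    simp only [Finset.sum_apply, Pi.smul_apply, smul_eq_mul, Pi.zero_apply] at h2 ⊢
    refine Eq.trans ?_ h2
    have h3 : ∀ x ∈ s, g x * E φ r x.1 x.2 (Pi.single i t) =
        if x.1 = i then g x * (φ ^ x.2) t else 0 := by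
      intro x _
      by_cases hx : x.1 = i
      · simp [E, hx]
      · simp [E, hx]
    rw [Finset.sum_congr rfl h3, ← Finset.sum_filter]
    have h4 : ∀ l ∈ s.image Prod.snd, (if (i, l) ∈ s then g (i, l) else 0) * (φ ^ l) t =
        if (i, l) ∈ s then g (i, l) * (φ ^ l) t else 0 := by
      intro l _; split_ifs <;> simp
    rw [Finset.sum_congr rfl h4, ← Finset.sum_filter]
    refine Finset.sum_bij (fun l _ => (i, l)) ?_ ?_ ?_ ?_
    · intro l hl
      rw [Finset.mem_filter] at hl ⊢
      exact ⟨hl.2, rfl⟩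
    · intro l _ l' _ h; exact (Prod.mk.inj h).2
    · rintro ⟨i', l⟩ hl
      rw [Finset.mem_filter] at hl
      obtain ⟨hl, rfl⟩ := hl
      exact ⟨l, Finset.mem_filter.2 ⟨Finset.mem_image_of_mem Prod.snd hl, hl⟩, rfl⟩
    · intro l _; rfl

instance finite_Mj (j : ℕ) : Module.Finite K (Mj φ r j) := by
  unfold Mj
  exact Module.Finite.span_of_finite K (Set.finite_range _)

lemma finrank_Mj [Fact p.Prime] [IsAlgClosed K] (hφ : ∀ x, φ x = x ^ p) (j : ℕ) :
    Module.finrank K (Mj φ r j) = r * (2 * j + 1) := by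
  unfold Mj
  rw [finrank_span_eq_card]
  · simp only [Fintype.card_prod, Fintype.card_fin, Fintype.card_coe, Int.card_Icc]
    congr 1
    omega
  · have := (linInd_E (φ := φ) (r := r) hφ).comp
      (fun ik : Fin r × (Finset.Icc (-(j:ℤ)) j) => (ik.1, (ik.2 : ℤ))) (by
        rintro ⟨i, k⟩ ⟨i', k'⟩ h
        simp only [Prod.mk.injEq] at h
        exact Prod.ext h.1 (Subtype.ext h.2))
    exact this

lemma card_le_of_linInd [Fact p.Prime] [IsAlgClosed K] (hφ : ∀ x, φ x = x ^ p)
    {F : (Fin r → K) → (Fin r → K)} (hF : IsMor φ F) (hinj : Function.Injective (pull hF))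
    {s : ℕ} (hs : ∀ i, (fun x => F x i) ∈ Mj φ r s) {ι : Type*} [Fintype ι]
    (q : ι → M φ r) (hq : LinearIndependent K (fun i => (LinearMap.range (pull hF)).mkQ (q i))) :
    Fintype.card ι ≤ 2 * r * s := by
  classical
  choose j hj using fun i => exists_Mj_of_mem (q i).2
  set J := Finset.univ.sup j with hJ
  have hJ' : ∀ i, (q i : (Fin r → K) → K) ∈ Mj φ r (s + J) := fun i =>
    Mj_mono (le_trans (Finset.le_sup (Finset.mem_univ i)) (by omega)) (hj i)
  let Ψ : ((ι → K) × Mj φ r J) →ₗ[K] Mj φ r (s + J) :=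
    { toFun := fun am => ⟨∑ i, am.1 i • (q i : (Fin r → K) → K) + fun x => am.2.1 (F x),
        Submodule.add_mem _ (Submodule.sum_mem _ fun i _ => Submodule.smul_mem _ _ (hJ' i))
          (comp_mem_Mj hs am.2.2)⟩
      map_add' := by
        intro a b
        ext x
        simp [add_mul, Finset.sum_add_distrib]
        ring
      map_smul' := by
        intro a b
        ext x
        simp [Finset.mul_sum, mul_assoc] }
  have hΨ : Function.Injective Ψ := by
    rw [← LinearMap.ker_eq_bot, LinearMap.ker_eq_bot']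
    rintro ⟨a, m⟩ h
    have h1 : ∑ i, a i • (q i : (Fin r → K) → K) + (fun x => m.1 (F x)) = 0 :=
      congrArg Subtype.val h
    set m' : M φ r := ⟨m.1, Mj_le_M _ m.2⟩ with hm'
    have h2 : ∑ i, a i • q i + pull hF m' = 0 := by
      apply Subtype.ext
      refine Eq.trans ?_ h1
      simp only [Submodule.coe_add, Submodule.coe_sum, Submodule.coe_smul]
      rfl
    have h3 : ∑ i, a i • (LinearMap.range (pull hF)).mkQ (q i) = 0 := by
      have h4 := congrArg (LinearMap.range (pull hF)).mkQ h2
      rw [map_add, map_sum, map_zero] at h4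
      have h5 : (LinearMap.range (pull hF)).mkQ (pull hF m') = 0 := by
        rw [Submodule.mkQ_apply, Submodule.Quotient.mk_eq_zero]; exact ⟨m', rfl⟩
      rw [h5, add_zero] at h4
      simpa using h4
    have ha : a = 0 := by
      funext i
      exact Fintype.linearIndependent_iff.1 hq a h3 i
    subst ha
    have h6 : pull hF m' = 0 := by simpa using h2
    have h7 : m' = 0 := hinj (by rw [h6, map_zero])
    have h8 : m = 0 := by
      apply Subtype.ext
      have := congrArg Subtype.val h7
      simpa [hm'] using this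
    rw [h8]; rfl
  have h := LinearMap.finrank_le_finrank_of_injective hΨ
  rw [Module.finrank_prod, finrank_Mj hφ, finrank_Mj hφ, Module.finrank_fintype_fun_eq_card] at h
  nlinarith

lemma rank_coker [Fact p.Prime] [IsAlgClosed K] (hφ : ∀ x, φ x = x ^ p)
    {F : (Fin r → K) → (Fin r → K)} (hF : IsMor φ F) (hinj : Function.Injective (pull hF)) :
    Module.Finite K (M φ r ⧸ LinearMap.range (pull hF)) := by
  obtain ⟨s, hs⟩ := hF.exists_Mj
  have h : Module.rank K (M φ r ⧸ LinearMap.range (pull hF)) ≤ (2 * r * s : ℕ) := by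
    apply rank_le
    intro S hS
    have := card_le_of_linInd hφ hF hinj hs (ι := S)
      (fun i => (Submodule.Quotient.mk_surjective _ i.1).choose) (by
        have : (fun i : S => (LinearMap.range (pull hF)).mkQ
          ((Submodule.Quotient.mk_surjective _ i.1).choose)) = fun i : S => i.1 := by
          funext i
          exact (Submodule.Quotient.mk_surjective _ i.1).choose_spec
        rw [this]; exact hS)
    simpa using this
  exact Module.rank_lt_aleph0_iff.1 (lt_of_le_of_lt h Cardinal.natCast_lt_aleph0)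

end Pool.Agent.Lib.H65.Fad
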