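import Mathlib
import Pool.Agent.Lib.H65.FadC

open Polynomial

namespace Pool.Agent.Lib.H65.Fad

variable {K : Type*} [Field K] {φ : RingAut K} {p : ℕ} {r : ℕ}

lemma exists_op [Fact p.Prime] [IsAlgClosed K] (hφ : ∀ x, φ x = x ^ p)
    {F : (Fin r → K) → (Fin r → K)} (hF : IsMor φ F) (hinj : Function.Injective (pull hF))
    (i : Fin r) : ∃ (n : ℕ) (c : ℕ → K), c 0 ≠ 0 ∧ c n ≠ 0 ∧
      ∃ h ∈ M φ r, ∀ x, h (F x) = op φ n c (x i) := by
  classical
  have := rank_coker hφ hF hinj
  set N := Module.finrank K (M φ r ⧸ LinearMap.range (pull hF)) with hN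
  -- dependence
  have hdep : ¬ LinearIndependent K (fun k : Fin (N + 1) => (LinearMap.range (pull hF)).mkQ
      (⟨E φ r i k, E_mem_M i k⟩ : M φ r)) := by
    intro h
    have := h.fintype_card_le_finrank
    simp at this
    omega
  rw [Fintype.not_linearIndependent_iff] at hdep
  obtain ⟨g, hg, k0, hk0⟩ := hdep
  -- extend to ℕ
  let d : ℕ → K := fun k => if h : k < N + 1 then g ⟨k, h⟩ else 0
  have hd : ∃ k, d k ≠ 0 := ⟨k0, by simp only [d]; rw [dif_pos k0.isLt]; exact hk0⟩
  have hdN : ∀ k, N + 1 ≤ k → d k = 0 := by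
    intro k hk; simp only [d]; rw [dif_neg (by omega)]
  have hrel : ∃ m ∈ M φ r, ∀ x : Fin r → K, m (F x) = ∑ k ∈ Finset.range (N + 1), d k * (φ ^ k) (x i) := by
    have h1 : (LinearMap.range (pull hF)).mkQ
        (∑ k : Fin (N + 1), g k • (⟨E φ r i k, E_mem_M i k⟩ : M φ r)) = 0 := by
      rw [map_sum]; simp_rw [map_smul]; exact hg
    rw [Submodule.mkQ_apply, Submodule.Quotient.mk_eq_zero] at h1
    obtain ⟨m, hm⟩ := h1
    refine ⟨m.1, m.2, fun x => ?_⟩
    have h2 := congrFun (congrArg Subtype.val hm) x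
    rw [pull_apply] at h2
    rw [h2, Finset.sum_range]
    simp only [Submodule.coe_sum, Submodule.coe_smul, Finset.sum_apply, Pi.smul_apply, smul_eq_mul]
    refine Finset.sum_congr rfl fun k _ => ?_
    have hdk : d k = g k := by simp only [d]; rw [dif_pos k.isLt]
    rw [hdk]
    simp [E]
  obtain ⟨m, hm, hmF⟩ := hrel
  -- minimal and maximal index
  set a := Nat.find hd with ha
  have hda : d a ≠ 0 := Nat.find_spec hd
  have hda' : ∀ k < a, d k = 0 := fun k hk => by
    by_contra h; exact Nat.find_min hd hk h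
  have haN : a ≤ N := by
    by_contra h
    exact hda (hdN a (by omega))
  set b := Nat.findGreatest (fun k => d k ≠ 0) N with hb
  have hdb : d b ≠ 0 := Nat.findGreatest_spec (P := fun k => d k ≠ 0) haN hda
  have hdb' : ∀ k, b < k → d k = 0 := by
    intro k hk
    by_cases hkN : k ≤ N
    · by_contra h
      exact absurd (Nat.le_findGreatest (P := fun k => d k ≠ 0) hkN h) (by omega)
    · exact hdN k (by omega)
  have hab : a ≤ b := Nat.le_findGreatest haN hda
  refine ⟨b - a, fun k => (φ ^ (-(a:ℤ))) (d (a + k)), ?_, ?_, ?_⟩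
  · simpa using hda
  · have : a + (b - a) = b := by omega
    simp [this, hdb]
  · refine ⟨fun x => (φ ^ (-(a:ℤ))) (m x), twist_mem_M hm _, fun x => ?_⟩
    change (φ ^ (-(a:ℤ))) (m (F x)) = _
    rw [hmF, map_sum]
    unfold op
    have hbN : b ≤ N := Nat.findGreatest_le N
    -- split the sum
    have h1 : ∑ k ∈ Finset.range (N + 1), (φ ^ (-(a:ℤ))) (d k * (φ ^ k) (x i)) =
        ∑ k ∈ Finset.Ico a (b + 1), (φ ^ (-(a:ℤ))) (d k * (φ ^ k) (x i)) := by
      symm
      apply Finset.sum_subset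
      · intro k hk; rw [Finset.mem_Ico] at hk; rw [Finset.mem_range]; omega
      · intro k _ hk2
        rw [Finset.mem_Ico] at hk2
        have : d k = 0 := by
          by_cases h : k < a
          · exact hda' k h
          · exact hdb' k (by omega)
        rw [this]; simp
    rw [h1, Finset.sum_Ico_eq_sum_range]
    have h2 : b + 1 - a = b - a + 1 := by omega
    rw [h2]
    refine Finset.sum_congr rfl fun k _ => ?_
    rw [map_mul]
    congr 1
    have h3 : (φ ^ (-(a:ℤ))) ((φ ^ (a + k)) (x i)) = ((φ ^ (-(a:ℤ))) * (φ ^ (a + k))) (x i) := rfl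
    rw [h3]
    congr 1
    rw [← zpow_natCast φ (a + k), ← zpow_add, ← zpow_natCast φ k]
    congr 1
    push_cast; ring

/-- diagonal map -/
def diag (φ : RingAut K) {r : ℕ} (n : Fin r → ℕ) (c : Fin r → ℕ → K) (x : Fin r → K) : Fin r → K :=
  fun i => op φ (n i) (c i) (x i)

lemma isMor_diag (n : Fin r → ℕ) (c : Fin r → ℕ → K) : IsMor φ (diag φ n c) := by
  intro i
  have h : (fun x => diag φ n c x i) = ∑ k ∈ Finset.range (n i + 1), c i k • E φ r i (k : ℤ) := by
    funext x
    simp [diag, op, E]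
  rw [h]
  exact Submodule.sum_mem _ fun k _ => Submodule.smul_mem _ _ (E_mem_M i k)

/-- the range of the pull-back by a diagonal map together with few `E`'s is everything. -/
lemma diag_span (n : Fin r → ℕ) (c : Fin r → ℕ → K) (h0 : ∀ i, c i 0 ≠ 0)
    (hn : ∀ i, c i (n i) ≠ 0) (A : Submodule K (M φ r))
    (hA : LinearMap.range (pull (isMor_diag (φ := φ) n c)) ≤ A)
    (hE : ∀ i k, k < n i → (⟨E φ r i (k : ℤ), E_mem_M i k⟩ : M φ r) ∈ A) : A = ⊤ := by
  classical
  -- key relation
  have key : ∀ (i : Fin r) (l : ℤ), ∑ k ∈ Finset.range (n i + 1),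
      (φ ^ l) (c i k) • (⟨E φ r i (l + k), E_mem_M i _⟩ : M φ r) ∈ A := by
    intro i l
    apply hA
    refine ⟨⟨E φ r i l, E_mem_M i l⟩, ?_⟩
    apply Subtype.ext
    funext x
    rw [pull_apply]
    simp only [Submodule.coe_sum, Submodule.coe_smul, Finset.sum_apply, Pi.smul_apply, smul_eq_mul]
    simp only [E, diag, op, map_sum, map_mul]
    refine Finset.sum_congr rfl fun k _ => ?_
    congr 1
    rw [zpow_add]
    rfl
  have hpos : ∀ (i : Fin r) (k : ℕ), (⟨E φ r i (k : ℤ), E_mem_M i k⟩ : M φ r) ∈ A := by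
    intro i k
    induction k using Nat.strong_induction_on with
    | _ k ih =>
      by_cases hk : k < n i
      · exact hE i k hk
      · have h1 := key i ((k : ℤ) - n i)
        rw [Finset.sum_range_succ] at h1
        have h2 : ∑ k' ∈ Finset.range (n i), (φ ^ ((k : ℤ) - n i)) (c i k') •
            (⟨E φ r i ((k : ℤ) - n i + k'), E_mem_M i _⟩ : M φ r) ∈ A := by
          refine Submodule.sum_mem _ fun k' hk' => Submodule.smul_mem _ _ ?_
          rw [Finset.mem_range] at hk'
          have h3 : (k : ℤ) - n i + k' = ((k - n i + k' : ℕ) : ℤ) := by omega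
          simp only [h3]
          exact ih _ (by omega)
        have h4 := (Submodule.add_mem_iff_right _ h2).1 h1
        have h5 := (Submodule.smul_mem_iff _ (by simpa using hn i)).1 h4
        have h6 : (k : ℤ) - n i + n i = k := by ring
        simpa only [h6] using h5
  have hneg : ∀ (i : Fin r) (k : ℕ), (⟨E φ r i (-(k : ℤ)), E_mem_M i _⟩ : M φ r) ∈ A := by
    intro i k
    induction k using Nat.strong_induction_on with
    | _ k ih =>
      by_cases hk : k = 0
      · subst hk; simpa using hpos i 0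
      · have h1 := key i (-(k : ℤ))
        rw [Finset.sum_range_succ'] at h1
        have h2 : ∑ k' ∈ Finset.range (n i), (φ ^ (-(k : ℤ))) (c i (k' + 1)) •
            (⟨E φ r i (-(k : ℤ) + (k' + 1 : ℕ)), E_mem_M i _⟩ : M φ r) ∈ A := by
          refine Submodule.sum_mem _ fun k' _ => Submodule.smul_mem _ _ ?_
          by_cases h3 : k ≤ k' + 1
          · have h4 : -(k : ℤ) + (k' + 1 : ℕ) = ((k' + 1 - k : ℕ) : ℤ) := by omega
            simp only [h4]
            exact hpos i _
          · have h4 : -(k : ℤ) + (k' + 1 : ℕ) = -((k - (k' + 1) : ℕ) : ℤ) := by omega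
            simp only [h4]
            exact ih _ (by omega)
        have h4 := (Submodule.add_mem_iff_right _ h2).1 h1
        have h5 := (Submodule.smul_mem_iff _ (by simpa using h0 i)).1 h4
        simpa using h5
  have hall : ∀ (i : Fin r) (k : ℤ), (⟨E φ r i k, E_mem_M i _⟩ : M φ r) ∈ A := by
    intro i k
    obtain ⟨k, rfl | rfl⟩ := k.eq_nat_or_neg
    · exact hpos i k
    · exact hneg i k
  rw [eq_top_iff]
  rintro ⟨m, hm⟩ _
  have : m ∈ A.map (M φ r).subtype := by
    refine (Submodule.span_le.2 ?_) hm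
    rintro _ ⟨⟨i, k⟩, rfl⟩
    exact ⟨_, hall i k, rfl⟩
  obtain ⟨m', hm', h⟩ := this
  have : m' = ⟨m, hm⟩ := Subtype.ext h
  rwa [← this]

lemma diag_surj [Fact p.Prime] [IsAlgClosed K] (hφ : ∀ x, φ x = x ^ p)
    (n : Fin r → ℕ) (c : Fin r → ℕ → K) (hn : ∀ i, c i (n i) ≠ 0) :
    Function.Surjective (diag φ n c) := by
  intro y
  choose x hx using fun i => op_surj hφ (n i) (c i) (hn i) (y i)
  exact ⟨x, funext hx⟩

lemma diag_coker (n : Fin r → ℕ) (c : Fin r → ℕ → K) (h0 : ∀ i, c i 0 ≠ 0)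
    (hn : ∀ i, c i (n i) ≠ 0) :
    Module.length K (M φ r ⧸ LinearMap.range (pull (isMor_diag (φ := φ) n c))) ≤
      ((∑ i, n i : ℕ) : ℕ∞) := by
  classical
  set R := LinearMap.range (pull (isMor_diag (φ := φ) n c)) with hR
  let v : (Σ i : Fin r, Fin (n i)) → (M φ r ⧸ R) := fun ik =>
    R.mkQ ⟨E φ r ik.1 (ik.2 : ℕ), E_mem_M ik.1 _⟩
  have hspan : Submodule.span K (Set.range v) = ⊤ := by
    have h1 := diag_span n c h0 hn ((Submodule.span K (Set.range v)).comap R.mkQ) ?_ ?_
    · rw [eq_top_iff]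
      intro x _
      obtain ⟨y, rfl⟩ := R.mkQ_surjective x
      have : y ∈ (Submodule.span K (Set.range v)).comap R.mkQ := by rw [h1]; trivial
      exact this
    · rintro x hx
      rw [Submodule.mem_comap, Submodule.mkQ_apply, (Submodule.Quotient.mk_eq_zero R).2 hx]
      exact Submodule.zero_mem _
    · intro i k hk
      rw [Submodule.mem_comap]
      exact Submodule.subset_span ⟨⟨i, ⟨k, hk⟩⟩, rfl⟩
  have hfin : Module.Finite K (M φ r ⧸ R) :=
    ⟨⟨Finset.univ.image v, by rw [Finset.coe_image, Finset.coe_univ, Set.image_univ]; exact hspan⟩⟩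
  rw [Module.length_eq_finrank]
  have h := finrank_le_of_span_eq_top hspan
  simp only [Fintype.card_sigma, Fintype.card_fin] at h
  exact_mod_cast h

end Pool.Agent.Lib.H65.Fad
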