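import Mathlib
import Pool.Agent.Lib.H65.FadD

open Polynomial

namespace Pool.Agent.Lib.H65.Fad

set_option linter.unusedSectionVars false

variable {K : Type*} [Field K] {φ : RingAut K} {p : ℕ} {r : ℕ}

lemma exists_fixed {n : ℕ} (B : Submodule K (Fin n → K)) (hB : B ≠ ⊥)
    (hst : ∀ b ∈ B, (fun i => φ (b i)) ∈ B) : ∃ b ∈ B, b ≠ 0 ∧ ∀ i, φ (b i) = b i := by
  classical
  have hne : ∃ k, ∃ b ∈ B, b ≠ 0 ∧ (Finset.univ.filter (fun i => b i ≠ 0)).card = k := by
    obtain ⟨b, hb, hb0⟩ := Submodule.exists_mem_ne_zero_of_ne_bot hB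
    exact ⟨_, b, hb, hb0, rfl⟩
  obtain ⟨b, hb, hb0, hk⟩ := Nat.find_spec hne
  have hmin : ∀ b' ∈ B, (Finset.univ.filter (fun i => b' i ≠ 0)).card < Nat.find hne → b' = 0 := by
    intro b' hb' hlt
    by_contra h
    exact Nat.find_min hne hlt ⟨b', hb', h, rfl⟩
  obtain ⟨i0, hi0⟩ : ∃ i, b i ≠ 0 := by
    by_contra h; push Not at h; exact hb0 (funext h)
  set b1 : Fin n → K := (b i0)⁻¹ • b with hb1
  have hb1B : b1 ∈ B := B.smul_mem _ hb
  have hb1i0 : b1 i0 = 1 := by simp [hb1, hi0]
  have hb1s : ∀ i, b1 i ≠ 0 ↔ b i ≠ 0 := by intro i; simp [hb1, hi0]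
  have h1 := hmin ((fun i => φ (b1 i)) - b1) (B.sub_mem (hst _ hb1B) hb1B) (by
    rw [← hk]
    apply Finset.card_lt_card
    rw [Finset.ssubset_iff_of_subset]
    · refine ⟨i0, by simp [hi0], ?_⟩
      simp [hb1i0]
    · intro i hi
      rw [Finset.mem_filter] at hi ⊢
      refine ⟨Finset.mem_univ _, ?_⟩
      rw [← hb1s]
      intro h; apply hi.2; simp [h])
  refine ⟨b1, hb1B, ?_, ?_⟩
  · intro h; rw [h] at hb1i0; simp at hb1i0
  · intro i
    have := congrFun h1 i
    simpa [sub_eq_zero] using this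

lemma interp [Fact p.Prime] [Algebra (ZMod p) K] (hφ : ∀ x, φ x = x ^ p) {n : ℕ}
    (w : Fin n → (Fin r → K)) (hw : LinearIndependent (ZMod p) w) (y : Fin n → K) :
    ∃ m ∈ M φ r, ∀ i, m (w i) = y i := by
  have hchar : CharP K p := charP_of_injective_algebraMap (algebraMap (ZMod p) K).injective p
  -- evaluation map
  let ev : M φ r →ₗ[K] (Fin n → K) :=
    { toFun := fun m i => m.1 (w i)
      map_add' := fun _ _ => rfl
      map_smul' := fun _ _ => rfl }
  suffices h : LinearMap.range ev = ⊤ by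
    obtain ⟨m, hm⟩ := (LinearMap.range_eq_top.1 h) y
    exact ⟨m.1, m.2, fun i => congrFun hm i⟩
  by_contra hne
  obtain ⟨f, hf0, hf⟩ := Submodule.exists_le_ker_of_lt_top _ (lt_top_iff_ne_top.2 hne)
  let B : Submodule K (Fin n → K) :=
    { carrier := {b | ∀ m ∈ M φ r, ∑ i, b i * m (w i) = 0}
      zero_mem' := by intro m _; simp
      add_mem' := by
        intro a b ha hb m hm
        simp only [Pi.add_apply, add_mul, Finset.sum_add_distrib, ha m hm, hb m hm, add_zero]
      smul_mem' := by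
        intro c b hb m hm
        simp only [Pi.smul_apply, smul_eq_mul, mul_assoc, ← Finset.mul_sum, hb m hm, mul_zero] }
  have hB : B ≠ ⊥ := by
    intro hbot
    have hb : (fun i => f (Pi.single i 1)) ∈ B := by
      intro m hm
      have h1 : ev ⟨m, hm⟩ ∈ LinearMap.ker f := hf ⟨_, rfl⟩
      rw [LinearMap.mem_ker, LinearMap.pi_apply_eq_sum_univ f] at h1
      rw [← h1]
      refine Finset.sum_congr rfl fun i _ => ?_
      rw [smul_eq_mul, mul_comm]
      have h3 : (fun j : Fin n => if i = j then (1:K) else 0) = Pi.single i 1 := by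
        funext j; simp [Pi.single_apply, eq_comm]
      rw [h3]; rfl
    rw [hbot, Submodule.mem_bot] at hb
    apply hf0
    refine LinearMap.ext fun v => ?_
    rw [LinearMap.pi_apply_eq_sum_univ f]
    simp only [LinearMap.zero_apply]
    refine Finset.sum_eq_zero fun i _ => ?_
    have h2 := congrFun hb i
    simp only [Pi.zero_apply] at h2
    have h3 : (fun j : Fin n => if i = j then (1:K) else 0) = Pi.single i 1 := by
      funext j; simp [Pi.single_apply, eq_comm]
    rw [h3, h2, smul_zero]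
  obtain ⟨b, hb, hb0, hbφ⟩ := exists_fixed (φ := φ) B hB (by
    intro b hb m hm
    have h1 := hb _ (twist_mem_M hm (-1))
    have h2 := congrArg φ h1
    rw [map_sum, map_zero] at h2
    rw [← h2]
    refine Finset.sum_congr rfl fun i _ => ?_
    rw [map_mul]
    congr 1
    have : φ ((φ ^ (-1 : ℤ)) (m (w i))) = (φ * φ ^ (-1 : ℤ)) (m (w i)) := rfl
    rw [this]; simp)
  have hbF : ∀ i, ∃ β : ZMod p, algebraMap (ZMod p) K β = b i := by
    intro i
    have h1 : b i ∈ (⊥ : Subfield K) :=
      (Subfield.mem_bot_iff_pow_eq_self K p).2 (by rw [← hφ]; exact hbφ i)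
    have h2 : (⊥ : Subfield K) ≤ (algebraMap (ZMod p) K).fieldRange := bot_le
    exact h2 h1
  choose β hβ using hbF
  have hsum : ∑ i, β i • w i = 0 := by
    funext j
    have h1 := hb _ (E_mem_M (φ := φ) j 0)
    have h2 : ∀ i, (β i • w i) j = b i * w i j := by
      intro i; rw [Pi.smul_apply, Algebra.smul_def, hβ]
    simp only [Finset.sum_apply, Pi.zero_apply, h2]
    simpa [E] using h1
  have hβ0 := Fintype.linearIndependent_iff.1 hw β hsum
  apply hb0
  funext i
  rw [← hβ i, hβ0 i]; simp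

section main

variable [Fact p.Prime] [IsAlgClosed K] [Algebra (ZMod p) K]

/-- A morphism as an `F_p`-linear map. -/
def IsMor.lin (p : ℕ) [Algebra (ZMod p) K] {F : (Fin r → K) → (Fin r → K)} (hF : IsMor φ F) :
    (Fin r → K) →ₗ[ZMod p] (Fin r → K) :=
  AddMonoidHom.toZModLinearMap p (AddMonoidHom.mk' F hF.map_add)

@[simp] lemma IsMor.lin_apply {F : (Fin r → K) → (Fin r → K)} (hF : IsMor φ F) (x : Fin r → K) :
    hF.lin p x = F x := rfl

lemma card_ker_le (hφ : ∀ x, φ x = x ^ p) {F : (Fin r → K) → (Fin r → K)} (hF : IsMor φ F)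
    [Module.Finite K (M φ r ⧸ LinearMap.range (pull hF))] {n : ℕ}
    (w : Fin n → (Fin r → K)) (hw : LinearIndependent (ZMod p) w) (hwF : ∀ i, F (w i) = 0) :
    n ≤ Module.finrank K (M φ r ⧸ LinearMap.range (pull hF)) := by
  let ev : M φ r →ₗ[K] (Fin n → K) :=
    { toFun := fun m i => m.1 (w i)
      map_add' := fun _ _ => rfl
      map_smul' := fun _ _ => rfl }
  have hm0 : ∀ m ∈ M φ r, m 0 = 0 := by
    intro m hm
    have h1 := M_add hm 0 0
    rw [add_zero] at h1
    exact left_eq_add.1 h1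
  let ev' : (M φ r ⧸ LinearMap.range (pull hF)) →ₗ[K] (Fin n → K) :=
    Submodule.liftQ _ ev (by
      rintro _ ⟨m, rfl⟩
      rw [LinearMap.mem_ker]
      funext i
      change m.1 (F (w i)) = 0
      rw [hwF i, hm0 _ m.2])
  have hsurj : Function.Surjective ev' := by
    intro y
    obtain ⟨m, hm, hmy⟩ := interp hφ w hw y
    exact ⟨Submodule.Quotient.mk ⟨m, hm⟩, funext hmy⟩
  have := LinearMap.finrank_le_finrank_of_surjective hsurj
  simpa using this

lemma ker_finite (hφ : ∀ x, φ x = x ^ p) {F : (Fin r → K) → (Fin r → K)} (hF : IsMor φ F)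
    [Module.Finite K (M φ r ⧸ LinearMap.range (pull hF))] :
    Module.Finite (ZMod p) (LinearMap.ker (hF.lin p)) ∧
    Module.finrank (ZMod p) (LinearMap.ker (hF.lin p)) ≤
      Module.finrank K (M φ r ⧸ LinearMap.range (pull hF)) := by
  have h : Module.rank (ZMod p) (LinearMap.ker (hF.lin p)) ≤
      (Module.finrank K (M φ r ⧸ LinearMap.range (pull hF)) : ℕ) := by
    apply rank_le
    intro S hS
    let e := S.equivFin
    have h1 : LinearIndependent (ZMod p) (fun i : Fin S.card => ((e.symm i).1 : (Fin r → K))) := by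
      have h2 := hS.comp e.symm e.symm.injective
      exact h2.map' (LinearMap.ker (hF.lin p)).subtype (Submodule.ker_subtype _)
    exact card_ker_le hφ hF _ h1 (fun i => (e.symm i).1.2)
  have hfin : Module.Finite (ZMod p) (LinearMap.ker (hF.lin p)) :=
    Module.rank_lt_aleph0_iff.1 (lt_of_le_of_lt h Cardinal.natCast_lt_aleph0)
  refine ⟨hfin, ?_⟩
  rw [← Module.finrank_eq_rank] at h
  exact_mod_cast h

lemma diag_ker_card (hφ : ∀ x, φ x = x ^ p)
    (n : Fin r → ℕ) (c : Fin r → ℕ → K) (h0 : ∀ i, c i 0 ≠ 0) (hn : ∀ i, c i (n i) ≠ 0) :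
    Nat.card (LinearMap.ker ((isMor_diag (φ := φ) n c).lin p)) = p ^ (∑ i, n i) := by
  have hchar : CharP K p := charP_of_injective_algebraMap (algebraMap (ZMod p) K).injective p
  have e : (LinearMap.ker ((isMor_diag (φ := φ) n c).lin p)) ≃
      (∀ i : Fin r, {t : K // op φ (n i) (c i) t = 0}) :=
    { toFun := fun x i => ⟨x.1 i, congrFun (LinearMap.mem_ker.1 x.2) i⟩
      invFun := fun y => ⟨fun i => (y i).1, LinearMap.mem_ker.2 (funext fun i => (y i).2)⟩
      left_inv := fun _ => rfl
      right_inv := fun _ => rfl }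
  rw [Nat.card_congr e, Nat.card_pi]
  rw [Finset.prod_congr rfl (fun i _ => op_card_ker hφ (n i) (c i) (h0 i) (hn i))]
  rw [Finset.prod_pow_eq_pow_sum]

/-- Main structural theorem: if the pull-back along `F` is injective then `F` is surjective and the
order of its kernel is `p` to the codimension of the range of the pull-back. -/
theorem main_of_injective (hφ : ∀ x, φ x = x ^ p) {F : (Fin r → K) → (Fin r → K)} (hF : IsMor φ F)
    (hinj : Function.Injective (pull hF)) :
    Module.Finite K (M φ r ⧸ LinearMap.range (pull hF)) ∧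
    Module.Finite (ZMod p) (LinearMap.ker (hF.lin p)) ∧
    Function.Surjective F ∧
    Module.finrank (ZMod p) (LinearMap.ker (hF.lin p)) =
      Module.finrank K (M φ r ⧸ LinearMap.range (pull hF)) := by
  classical
  have hfinF := rank_coker hφ hF hinj
  choose n c h0 hn h hM hh using fun i => exists_op hφ hF hinj i
  let H : (Fin r → K) → (Fin r → K) := fun x i => h i x
  have hH : IsMor φ H := hM
  have hHF : ∀ x, H (F x) = diag φ n c x := fun x => funext fun i => hh i x
  have hcomp : pull (isMor_diag (φ := φ) n c) = pull hF ∘ₗ pull hH := by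
    refine LinearMap.ext fun m => Subtype.ext (funext fun x => ?_)
    simp only [LinearMap.comp_apply, pull_apply, hHF]
  have hPsurj := diag_surj hφ n c hn
  have hHinj : Function.Injective (pull hH) := by
    rw [← LinearMap.ker_eq_bot, LinearMap.ker_eq_bot']
    intro m hm
    apply Subtype.ext
    funext x
    obtain ⟨y, rfl⟩ := hPsurj x
    rw [← hHF]
    exact congrFun (congrArg Subtype.val hm) (F y)
  have hfinH := rank_coker hφ hH hHinj
  obtain ⟨hkF, hkF'⟩ := ker_finite (p := p) hφ hF
  obtain ⟨hkH, hkH'⟩ := ker_finite (p := p) hφ hH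
  have hlen := length_comp (pull hF) (pull hH) hinj
  rw [← hcomp] at hlen
  have hdc := diag_coker (φ := φ) n c h0 hn
  rw [hlen, Module.length_eq_finrank, Module.length_eq_finrank] at hdc
  have hdc' : Module.finrank K (M φ r ⧸ LinearMap.range (pull hH)) +
      Module.finrank K (M φ r ⧸ LinearMap.range (pull hF)) ≤ ∑ i, n i := by exact_mod_cast hdc
  -- kernel of P
  set P := diag φ n c with hP
  have hPM := isMor_diag (φ := φ) n c
  have hkPcard := diag_ker_card (p := p) hφ n c h0 hn
  have hkPfin : Finite (LinearMap.ker (hPM.lin p)) := by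
    apply Nat.finite_of_card_ne_zero
    rw [hkPcard]
    exact (pow_pos (Fact.out : p.Prime).pos _).ne'
  have hkPrank : Module.finrank (ZMod p) (LinearMap.ker (hPM.lin p)) = ∑ i, n i := by
    have := Fintype.ofFinite (LinearMap.ker (hPM.lin p))
    have h1 := Module.card_eq_pow_finrank (K := ZMod p) (V := LinearMap.ker (hPM.lin p))
    rw [← Nat.card_eq_fintype_card, hkPcard, ZMod.card] at h1
    exact (Nat.pow_right_injective (Fact.out : p.Prime).two_le h1).symm
  -- F maps ker P to ker H
  let FP : LinearMap.ker (hPM.lin p) →ₗ[ZMod p] LinearMap.ker (hH.lin p) :=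
    LinearMap.restrict (hF.lin p) (by
      intro x hx
      rw [LinearMap.mem_ker] at hx ⊢
      rw [IsMor.lin_apply, IsMor.lin_apply, hHF]
      exact hx)
  have hrn := LinearMap.finrank_range_add_finrank_ker FP
  have hkerFP : Module.finrank (ZMod p) (LinearMap.ker FP) ≤
      Module.finrank (ZMod p) (LinearMap.ker (hF.lin p)) := by
    let g : LinearMap.ker FP →ₗ[ZMod p] LinearMap.ker (hF.lin p) :=
      LinearMap.codRestrict _ ((LinearMap.ker (hPM.lin p)).subtype ∘ₗ (LinearMap.ker FP).subtype) (by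
        rintro ⟨x, hx⟩
        have := congrArg Subtype.val (LinearMap.mem_ker.1 hx)
        exact LinearMap.mem_ker.2 this)
    refine LinearMap.finrank_le_finrank_of_injective (f := g) ?_
    intro x y hxy
    have h5 := congrArg Subtype.val hxy
    apply Subtype.ext
    apply Subtype.ext
    exact h5
  have hrangeFP : Module.finrank (ZMod p) (LinearMap.range FP) ≤
      Module.finrank (ZMod p) (LinearMap.ker (hH.lin p)) := Submodule.finrank_le _
  rw [hkPrank] at hrn
  have heq1 : Module.finrank (ZMod p) (LinearMap.ker (hF.lin p)) =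
      Module.finrank K (M φ r ⧸ LinearMap.range (pull hF)) := by omega
  have heq2 : Module.finrank (ZMod p) (LinearMap.range FP) =
      Module.finrank (ZMod p) (LinearMap.ker (hH.lin p)) := by omega
  have hFPtop : LinearMap.range FP = ⊤ := Submodule.eq_top_of_finrank_eq heq2
  refine ⟨hfinF, hkF, ?_, heq1⟩
  intro v
  obtain ⟨x, hx⟩ := hPsurj (H v)
  have h1 : (F x - v) ∈ LinearMap.ker (hH.lin p) := by
    rw [LinearMap.mem_ker, map_sub, IsMor.lin_apply, IsMor.lin_apply, hHF, sub_eq_zero]
    exact hx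
  have h2 : (⟨F x - v, h1⟩ : LinearMap.ker (hH.lin p)) ∈ LinearMap.range FP := by
    rw [hFPtop]; trivial
  obtain ⟨y, hy⟩ := h2
  have h3 : F y.1 = F x - v := congrArg Subtype.val hy
  refine ⟨x - y.1, ?_⟩
  have h4 := map_sub (hF.lin p) x y.1
  rw [IsMor.lin_apply, IsMor.lin_apply, IsMor.lin_apply, h3] at h4
  rw [h4]; abel

end main

end Pool.Agent.Lib.H65.Fad
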