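import Mathlib
import Pool.Agent.Lib.H65.FadE

open Polynomial

namespace Pool.Agent.Lib.H65.Fad

variable {K : Type*} [Field K] {φ : RingAut K} {p : ℕ} {r : ℕ}

lemma finite_fiber {A B : Type*} [AddCommGroup A] [AddCommGroup B] (f : A → B)
    (hf : ∀ x y, f (x + y) = f x + f y) (h : Set.Finite {x | f x = 0}) (b : B) :
    Set.Finite {x | f x = b} := by
  by_cases hb : ∃ x0, f x0 = b
  · obtain ⟨x0, hx0⟩ := hb
    refine (h.image (fun x => x + x0)).subset ?_
    intro x hx
    rw [Set.mem_ofPred_eq] at hx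
    refine ⟨x - x0, ?_, by simp⟩
    have h1 := hf (x - x0) x0
    rw [sub_add_cancel, hx, hx0] at h1
    rw [Set.mem_ofPred_eq]
    exact (right_eq_add.1 h1)
  · push Not at hb
    have : {x | f x = b} = ∅ := by
      ext x; simp [hb x]
    rw [this]; exact Set.finite_empty

/-- the one-variable restrictions of elements of `M` -/
lemma restrict_one {m : (Fin r → K) → K} {j : ℕ} (hm : m ∈ Mj φ r j) (i : Fin r) :
    ∃ c : ℕ → K, ∀ t, (φ ^ (j : ℤ)) (m (Pi.single i t)) = op φ (2 * j) c t := by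
  refine Submodule.span_induction
    (p := fun m _ => ∃ c : ℕ → K, ∀ t, (φ ^ (j : ℤ)) (m (Pi.single i t)) = op φ (2 * j) c t)
    ?_ ?_ ?_ ?_ hm
  · rintro _ ⟨⟨i', l, hl⟩, rfl⟩
    rw [Finset.mem_Icc] at hl
    by_cases hi : i' = i
    · subst hi
      refine ⟨fun k => if k = (j + l).toNat then 1 else 0, fun t => ?_⟩
      have h1 : (φ ^ (j : ℤ)) (E φ r i' l (Pi.single i' t)) = (φ ^ ((j : ℤ) + l)) t := by
        simp only [E, Pi.single_eq_same, zpow_add]; rfl
      simp only [h1]
      unfold op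
      rw [Finset.sum_eq_single (j + l).toNat]
      · change (φ ^ ((j : ℤ) + l)) t =
          (if (j + l).toNat = (j + l).toNat then (1 : K) else 0) * (φ ^ ((j : ℤ) + l).toNat) t
        rw [if_pos rfl, one_mul, ← zpow_natCast φ, Int.toNat_of_nonneg (by omega)]
      · intro k _ hk; simp [hk]
      · intro h; exact absurd (Finset.mem_range.2 (by omega)) h
    · refine ⟨fun _ => 0, fun t => ?_⟩
      have h1 : E φ r i' l (Pi.single i t) = 0 := by
        simp only [E, Pi.single_eq_of_ne hi, map_zero]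
      simp [h1, op]
  · exact ⟨fun _ => 0, fun t => by simp [op]⟩
  · rintro m m' _ _ ⟨c, hc⟩ ⟨c', hc'⟩
    refine ⟨fun k => c k + c' k, fun t => ?_⟩
    rw [Pi.add_apply, map_add, hc, hc']
    simp [op, add_mul, Finset.sum_add_distrib]
  · rintro a m _ ⟨c, hc⟩
    refine ⟨fun k => (φ ^ (j : ℤ)) a * c k, fun t => ?_⟩
    rw [Pi.smul_apply, smul_eq_mul, map_mul, hc]
    simp [op, Finset.mul_sum, mul_assoc]

lemma finite_ker_restrict [Fact p.Prime] [IsAlgClosed K] (hφ : ∀ x, φ x = x ^ p)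
    {m : (Fin r → K) → K} (hm : m ∈ M φ r) (i : Fin r) (h : ∃ t, m (Pi.single i t) ≠ 0) :
    Set.Finite {t : K | m (Pi.single i t) = 0} := by
  obtain ⟨j, hj⟩ := exists_Mj_of_mem hm
  obtain ⟨c, hc⟩ := restrict_one hj i
  have h1 : ∃ k ≤ 2 * j, c k ≠ 0 := by
    by_contra hcon
    push Not at hcon
    obtain ⟨t, ht⟩ := h
    apply ht
    have h2 := hc t
    have h3 : op φ (2 * j) c t = 0 := by
      unfold op
      refine Finset.sum_eq_zero fun k hk => ?_
      rw [Finset.mem_range] at hk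
      rw [hcon k (by omega), zero_mul]
    rw [h3] at h2
    exact (φ ^ (j : ℤ)).injective (h2.trans (map_zero _).symm)
  refine (op_finite_ker hφ (2 * j) c h1).subset ?_
  intro t ht
  rw [Set.mem_ofPred_eq] at ht ⊢
  rw [← hc t, ht, map_zero]

/-- a parametrised additive curve in `K^r`. -/
def curve (φ : RingAut K) {r J : ℕ} (z : Fin (J + 1) → Fin r → K) (t : K) : Fin r → K :=
  fun i => ∑ k : Fin (J + 1), (φ ^ (k : ℕ)) (z k i * t)

lemma curve_add {J : ℕ} (z : Fin (J + 1) → Fin r → K) (s t : K) :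
    curve φ z (s + t) = curve φ z s + curve φ z t := by
  funext i
  simp [curve, mul_add, Finset.sum_add_distrib]

lemma curve_finite_ker [Fact p.Prime] [IsAlgClosed K] (hφ : ∀ x, φ x = x ^ p) {J : ℕ}
    (z : Fin (J + 1) → Fin r → K) (hz : z ≠ 0) : Set.Finite {t : K | curve φ z t = 0} := by
  obtain ⟨k, i, hki⟩ : ∃ k i, z k i ≠ 0 := by
    by_contra h
    push Not at h
    exact hz (funext fun k => funext fun i => h k i)
  let c : ℕ → K := fun k => if h : k < J + 1 then (φ ^ k) (z ⟨k, h⟩ i) else 0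
  have hc : c k ≠ 0 := by
    simp only [c]; rw [dif_pos k.isLt]
    intro h; exact hki ((φ ^ (k : ℕ)).injective (h.trans (map_zero _).symm))
  refine (op_finite_ker hφ J c ⟨k, by omega, hc⟩).subset ?_
  intro t ht
  rw [Set.mem_ofPred_eq] at ht ⊢
  have h1 := congrFun ht i
  simp only [curve, Pi.zero_apply] at h1
  rw [← h1]
  unfold op
  rw [Finset.sum_range]
  refine Finset.sum_congr rfl fun k _ => ?_
  simp only [c]; rw [dif_pos k.isLt, map_mul]

lemma curve_linear {J s : ℕ} {m : (Fin r → K) → K} (hm : m ∈ Mj φ r s) :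
    ∃ L : (Fin (J + 1) → Fin r → K) →ₗ[K] (Fin (J + 2 * s + 1) → K),
      ∀ z t, m (curve φ z t) = ∑ n : Fin (J + 2 * s + 1), (φ ^ ((n : ℕ) - s : ℤ)) (L z n * t) := by
  refine Submodule.span_induction
    (p := fun m _ => ∃ L : (Fin (J + 1) → Fin r → K) →ₗ[K] (Fin (J + 2 * s + 1) → K),
      ∀ z t, m (curve φ z t) = ∑ n : Fin (J + 2 * s + 1), (φ ^ ((n : ℕ) - s : ℤ)) (L z n * t))
    ?_ ?_ ?_ ?_ hm
  · rintro _ ⟨⟨i, l, hl⟩, rfl⟩
    rw [Finset.mem_Icc] at hl
    obtain ⟨a, ha⟩ : ∃ a : ℕ, (a : ℤ) = l + s := ⟨(l + s).toNat, by omega⟩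
    refine ⟨LinearMap.pi (fun n => if h : a ≤ n ∧ n - a < J + 1 then
      (LinearMap.proj i) ∘ₗ (LinearMap.proj (⟨n - a, h.2⟩ : Fin (J + 1))) else 0), fun z t => ?_⟩
    have h1 : E φ r i l (curve φ z t) = ∑ k : Fin (J + 1), (φ ^ ((k : ℕ) + l : ℤ)) (z k i * t) := by
      simp only [E, curve, map_sum]
      refine Finset.sum_congr rfl fun k _ => ?_
      have : (φ ^ l) ((φ ^ (k : ℕ)) (z k i * t)) = (φ ^ l * φ ^ (k : ℕ)) (z k i * t) := rfl
      rw [this, ← zpow_natCast φ (k : ℕ), ← zpow_add, add_comm]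
    change E φ r i l (curve φ z t) = _
    rw [h1]
    -- convert to sums over ranges
    let G : ℕ → K := fun n => (φ ^ ((n : ℕ) - s : ℤ))
      ((if h : a ≤ n ∧ n - a < J + 1 then z ⟨n - a, h.2⟩ i else 0) * t)
    trans (∑ n : Fin (J + 2 * s + 1), G n)
    swap
    · refine Finset.sum_congr rfl fun n _ => ?_
      simp only [G, LinearMap.pi_apply]
      by_cases h : a ≤ (n : ℕ) ∧ (n : ℕ) - a < J + 1
      · rw [dif_pos h, dif_pos h]; rfl
      · rw [dif_neg h, dif_neg h]; rfl
    rw [← Finset.sum_range]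
    have h3 : ∑ n ∈ Finset.range (J + 2 * s + 1), G n = ∑ n ∈ Finset.Ico a (a + (J + 1)), G n := by
      symm
      apply Finset.sum_subset
      · intro n hn; rw [Finset.mem_Ico] at hn; rw [Finset.mem_range]; omega
      · intro n _ hn
        rw [Finset.mem_Ico] at hn
        simp only [G]
        rw [dif_neg (by omega)]; simp
    rw [h3, Finset.sum_Ico_eq_sum_range, Nat.add_sub_cancel_left, Finset.sum_range]
    refine Finset.sum_congr rfl fun k _ => ?_
    simp only [G]
    rw [dif_pos ⟨by omega, by omega⟩]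
    have h4 : (k : ℤ) + l = ((a + (k : ℕ) : ℕ) : ℤ) - s := by push_cast; omega
    rw [h4]
    congr 4
    apply Fin.ext; simp
  · exact ⟨0, fun z t => by simp⟩
  · rintro m m' _ _ ⟨L, hL⟩ ⟨L', hL'⟩
    refine ⟨L + L', fun z t => ?_⟩
    rw [Pi.add_apply, hL, hL', ← Finset.sum_add_distrib]
    refine Finset.sum_congr rfl fun n _ => ?_
    rw [← map_add, LinearMap.add_apply, Pi.add_apply, add_mul]
  · rintro a m _ ⟨L, hL⟩
    refine ⟨LinearMap.pi (fun n => (φ ^ (s - (n : ℕ) : ℤ)) a • (LinearMap.proj n ∘ₗ L)),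
      fun z t => ?_⟩
    rw [Pi.smul_apply, smul_eq_mul, hL, Finset.mul_sum]
    refine Finset.sum_congr rfl fun n _ => ?_
    rw [LinearMap.pi_apply, LinearMap.smul_apply, smul_eq_mul, mul_assoc, map_mul _ _ (_ * t)]
    congr 1
    have : (φ ^ ((n : ℕ) - s : ℤ)) ((φ ^ (s - (n : ℕ) : ℤ)) a) =
      (φ ^ ((n : ℕ) - s : ℤ) * φ ^ (s - (n : ℕ) : ℤ)) a := rfl
    rw [this, ← zpow_add]; simp

lemma decomp {m : (Fin r → K) → K} (hm : m ∈ M φ r) (x : Fin r → K) :
    m x = ∑ i, m (Pi.single i (x i)) := by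
  have h1 : x = ∑ i, Pi.single i (x i) := (Finset.univ_sum_single x).symm
  let m' : (Fin r → K) →+ K := AddMonoidHom.mk' m (M_add hm)
  have h2 : m' x = ∑ i, m' (Pi.single i (x i)) := by
    rw [← map_sum, ← h1]
  exact h2

theorem injective_of_finite_ker [Fact p.Prime] [IsAlgClosed K] (hφ : ∀ x, φ x = x ^ p)
    {F : (Fin r → K) → (Fin r → K)} (hF : IsMor φ F) (hfin : Set.Finite {x | F x = 0}) :
    Function.Injective (pull hF) := by
  classical
  rw [← LinearMap.ker_eq_bot, LinearMap.ker_eq_bot']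
  intro m hm
  by_contra hne
  have hmF : ∀ x, m.1 (F x) = 0 := fun x => congrFun (congrArg Subtype.val hm) x
  -- some coordinate is nonzero
  obtain ⟨i0, hi0⟩ : ∃ i, ∃ t, m.1 (Pi.single i t) ≠ 0 := by
    by_contra h
    push Not at h
    apply hne
    apply Subtype.ext
    funext x
    rw [decomp m.2]
    simp [h]
  have hq := finite_ker_restrict hφ m.2 i0 hi0
  obtain ⟨s, hs⟩ := hF.exists_Mj
  set J := 2 * s * r with hJ
  choose L hL using fun i => curve_linear (J := J) (hs i)
  let Ψ : (Fin (J + 1) → Fin r → K) →ₗ[K] ({i : Fin r // i ≠ i0} → Fin (J + 2 * s + 1) → K) :=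
    LinearMap.pi (fun i => L i.1)
  have hdim : Module.finrank K ({i : Fin r // i ≠ i0} → Fin (J + 2 * s + 1) → K) <
      Module.finrank K (Fin (J + 1) → Fin r → K) := by
    simp only [Module.finrank_pi_fintype, Module.finrank_self, Fintype.card_fin, Finset.sum_const,
      Finset.card_univ, smul_eq_mul, mul_one]
    have h1 : Fintype.card {i : Fin r // i ≠ i0} = r - 1 := by
      rw [Fintype.card_subtype_compl]; simp
    rw [h1, hJ]
    have hr : 1 ≤ r := by have := i0.isLt; omega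
    obtain ⟨q, rfl⟩ : ∃ q, r = q + 1 := ⟨r - 1, by omega⟩
    simp only [Nat.add_sub_cancel]
    nlinarith [Nat.zero_le (s * q)]
  have hker := LinearMap.ker_ne_bot_of_finrank_lt (f := Ψ) hdim
  obtain ⟨z, hz, hz0⟩ := Submodule.exists_mem_ne_zero_of_ne_bot hker
  have hFz : ∀ i, i ≠ i0 → ∀ t, F (curve φ z t) i = 0 := by
    intro i hi t
    have h1 : L i z = 0 := congrFun (LinearMap.mem_ker.1 hz) ⟨i, hi⟩
    have h2 := hL i z t
    rw [h1] at h2
    simpa using h2
  have hFz0 : ∀ t, m.1 (Pi.single i0 (F (curve φ z t) i0)) = 0 := by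
    intro t
    have h1 := hmF (curve φ z t)
    rw [decomp m.2, Finset.sum_eq_single i0] at h1
    · exact h1
    · intro i _ hi
      rw [hFz i hi t]
      have : (Pi.single i (0 : K) : Fin r → K) = 0 := by simp
      rw [this]
      have h1 := M_add m.2 0 0
      rw [add_zero] at h1
      exact left_eq_add.1 h1
    · intro h; exact absurd (Finset.mem_univ _) h
  -- the image of F ∘ curve is finite
  have himg : Set.Finite (Set.range (fun t => F (curve φ z t))) := by
    refine (hq.image (fun u => (Pi.single i0 u : Fin r → K))).subset ?_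
    rintro _ ⟨t, rfl⟩
    refine ⟨F (curve φ z t) i0, hFz0 t, ?_⟩
    funext i
    by_cases hi : i = i0
    · subst hi; simp
    · change (Pi.single i0 (F (curve φ z t) i0) : Fin r → K) i = F (curve φ z t) i
      rw [hFz i hi t]; simp [hi]
  have hcurve := curve_finite_ker hφ z hz0
  have hS : Set.Finite {t | F (curve φ z t) = 0} := by
    have h1 : {t | F (curve φ z t) = 0} = (curve φ z) ⁻¹' {x | F x = 0} := rfl
    rw [h1]
    apply hfin.preimage'
    intro b _
    exact finite_fiber (curve φ z) (curve_add z) hcurve b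
  have hall : Set.Finite (Set.univ : Set K) := by
    have h1 : (Set.univ : Set K) = (fun t => F (curve φ z t)) ⁻¹'
        (Set.range (fun t => F (curve φ z t))) := by
      ext t; simp
    rw [h1]
    apply himg.preimage'
    intro b _
    refine finite_fiber (fun t => F (curve φ z t)) ?_ hS b
    intro x y
    simp only [curve_add, hF.map_add]
  have : Infinite K := inferInstance
  exact Set.infinite_univ hall

end Pool.Agent.Lib.H65.Fad
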