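import Mathlib
import Pool.Agent.Lib.H65.FadF

open Polynomial

namespace Pool.Agent.Lib.H65.Fad

section LinAlg2

variable {K : Type*} [Field K] {A B C : Type*} [AddCommGroup A] [Module K A]
  [AddCommGroup B] [Module K B] [AddCommGroup C] [Module K C]

/-- additivity of the codimension of the range for composites -/
lemma length_comp' (S : B →ₗ[K] C) (T : A →ₗ[K] B) (hS : Function.Injective S) :
    Module.length K (C ⧸ LinearMap.range (S ∘ₗ T)) =
      Module.length K (B ⧸ LinearMap.range T) + Module.length K (C ⧸ LinearMap.range S) := by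
  have h1 : LinearMap.range T ≤ (LinearMap.range (S ∘ₗ T)).comap S := by
    rintro _ ⟨x, rfl⟩
    exact ⟨x, rfl⟩
  have h2 : LinearMap.range (S ∘ₗ T) ≤ LinearMap.range S := by
    rintro _ ⟨x, rfl⟩
    exact ⟨T x, rfl⟩
  refine Module.length_eq_add_of_exact (Submodule.mapQ _ _ S h1) (Submodule.factor h2) ?_ ?_ ?_
  · rw [← LinearMap.ker_eq_bot, LinearMap.ker_eq_bot']
    intro x hx
    obtain ⟨y, rfl⟩ := Submodule.Quotient.mk_surjective _ x
    rw [Submodule.mapQ_apply, Submodule.Quotient.mk_eq_zero] at hx
    obtain ⟨z, hz⟩ := hx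
    rw [Submodule.Quotient.mk_eq_zero]
    exact ⟨z, hS hz⟩
  · exact Submodule.factor_surjective h2
  · intro x
    obtain ⟨y, rfl⟩ := Submodule.Quotient.mk_surjective _ x
    constructor
    · intro hy
      have hy' : y ∈ LinearMap.range S :=
        (Submodule.Quotient.mk_eq_zero _).1
          (show (Submodule.Quotient.mk y : C ⧸ LinearMap.range S) = 0 from hy)
      obtain ⟨z, rfl⟩ := hy'
      exact ⟨Submodule.Quotient.mk z, by rw [Submodule.mapQ_apply]⟩
    · rintro ⟨z, hz⟩
      obtain ⟨w, rfl⟩ := Submodule.Quotient.mk_surjective _ z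
      rw [Submodule.mapQ_apply] at hz
      rw [← hz]
      exact (Submodule.Quotient.mk_eq_zero _).2 ⟨w, rfl⟩

/-- compatible maps induce an inequality of codimensions if everything is generated by the image. -/
lemma length_quot_le (ι : A →ₗ[K] B) (T : A →ₗ[K] A) (S : B →ₗ[K] B) (h : S ∘ₗ ι = ι ∘ₗ T)
    (hgen : ∀ b : B, ∃ a b', b = ι a + S b') :
    Module.length K (B ⧸ LinearMap.range S) ≤ Module.length K (A ⧸ LinearMap.range T) := by
  have h1 : LinearMap.range T ≤ (LinearMap.range S).comap ι := by
    rintro _ ⟨x, rfl⟩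
    exact ⟨ι x, LinearMap.congr_fun h x⟩
  refine Module.length_le_of_surjective (Submodule.mapQ _ _ ι h1) ?_
  intro b
  obtain ⟨b, rfl⟩ := Submodule.Quotient.mk_surjective _ b
  obtain ⟨a, b', rfl⟩ := hgen b
  refine ⟨Submodule.Quotient.mk a, ?_⟩
  rw [Submodule.mapQ_apply, Submodule.Quotient.eq]
  exact ⟨-b', by simp⟩

lemma length_quot_eq (ι : A →ₗ[K] B) (T : A →ₗ[K] A) (S : B →ₗ[K] B) (h : S ∘ₗ ι = ι ∘ₗ T)
    (hgen : ∀ b : B, ∃ a b', b = ι a + S b')
    (hinj : ∀ a b, ι a = S b → ∃ a', a = T a') :
    Module.length K (B ⧸ LinearMap.range S) = Module.length K (A ⧸ LinearMap.range T) := by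
  refine le_antisymm (length_quot_le ι T S h hgen) ?_
  have h1 : LinearMap.range T ≤ (LinearMap.range S).comap ι := by
    rintro _ ⟨x, rfl⟩
    exact ⟨ι x, LinearMap.congr_fun h x⟩
  refine Module.length_le_of_injective (Submodule.mapQ _ _ ι h1) ?_
  rw [← LinearMap.ker_eq_bot, LinearMap.ker_eq_bot']
  intro x hx
  obtain ⟨a, rfl⟩ := Submodule.Quotient.mk_surjective _ x
  rw [Submodule.mapQ_apply, Submodule.Quotient.mk_eq_zero] at hx
  obtain ⟨b, hb⟩ := hx
  obtain ⟨a', rfl⟩ := hinj a b hb.symm
  rw [Submodule.Quotient.mk_eq_zero]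
  exact ⟨a', rfl⟩

end LinAlg2

section PolyModule

variable {K : Type*} [Field K] {A : Type*} [AddCommGroup A] [Module K A] [Module K[X] A]
  [IsScalarTower K K[X] A] {B : Type*} [AddCommGroup B] [Module K B] [Module K[X] B]
  [IsScalarTower K K[X] B]

/-- multiplication by `f` as a `K`-linear map -/
noncomputable def mulBy (A : Type*) [AddCommGroup A] [Module K A] [Module K[X] A]
    [IsScalarTower K K[X] A] (f : K[X]) : A →ₗ[K] A :=
  (LinearMap.lsmul K[X] A f).restrictScalars K

@[simp] lemma mulBy_apply (f : K[X]) (a : A) : mulBy A f a = f • a := rfl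

/-- the codimension of `f A` in `A` -/
noncomputable def colen (A : Type*) [AddCommGroup A] [Module K A] [Module K[X] A]
    [IsScalarTower K K[X] A] (f : K[X]) : ℕ∞ :=
  Module.length K (A ⧸ LinearMap.range (mulBy A f))

lemma colen_pi (c : ℕ) (f : K[X]) (hf : f ≠ 0) :
    colen (Fin c → K[X]) f = ((c * f.natDegree : ℕ) : ℕ∞) := by
  classical
  let Φ : (Fin c → K[X]) →ₗ[K] (Fin c → (K[X] ⧸ Ideal.span {f})) :=
    LinearMap.pi (fun i => ((Ideal.span {f}).mkQ.restrictScalars K) ∘ₗ LinearMap.proj i)
  have hΦ : Function.Surjective Φ := by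
    intro y
    choose x hx using fun i => Submodule.mkQ_surjective (Ideal.span {f}) (y i)
    exact ⟨x, funext hx⟩
  have hker : LinearMap.ker Φ = LinearMap.range (mulBy (Fin c → K[X]) f) := by
    ext x
    rw [LinearMap.mem_ker, LinearMap.mem_range]
    constructor
    · intro hx
      have h1 : ∀ i, f ∣ x i := by
        intro i
        have h2 := congrFun hx i
        have h3 : x i ∈ Ideal.span {f} := (Submodule.Quotient.mk_eq_zero _).1 h2
        exact Ideal.mem_span_singleton.1 h3
      choose y hy using h1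
      exact ⟨y, funext fun i => (hy i).symm⟩
    · rintro ⟨y, rfl⟩
      funext i
      exact (Submodule.Quotient.mk_eq_zero _).2 (Ideal.mem_span_singleton.2 ⟨y i, rfl⟩)
  have e := LinearMap.quotKerEquivOfSurjective Φ hΦ
  unfold colen
  rw [← hker, e.length_eq]
  rw [Module.length_pi_of_fintype]
  have hfin : Module.Finite K (K[X] ⧸ Ideal.span {f}) :=
    (AdjoinRoot.powerBasis hf).finite
  simp only [Module.length_eq_finrank, finrank_quotient_span_eq_natDegree, Finset.sum_const,
    Finset.card_univ, Fintype.card_fin]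
  simp

lemma colen_congr (e : A ≃ₗ[K[X]] B) (f : K[X]) : colen A f = colen B f := by
  unfold colen
  symm
  refine length_quot_eq (e.toLinearMap.restrictScalars K) (mulBy A f) (mulBy B f) ?_ ?_ ?_
  · ext x; simp
  · intro b; exact ⟨e.symm b, 0, by simp⟩
  · intro a b hab
    refine ⟨e.symm b, e.injective ?_⟩
    simp only [mulBy_apply, map_smul, LinearEquiv.apply_symm_apply]
    exact hab

lemma colen_span {c : ℕ} (m : Fin c → A) (hm : LinearIndependent K[X] m) (f : K[X]) (hf : f ≠ 0) :
    colen (Submodule.span K[X] (Set.range m)) f = ((c * f.natDegree : ℕ) : ℕ∞) := by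
  have e := (Module.Basis.span hm).equivFun
  rw [colen_congr e f, colen_pi c f hf]

/-- the torsion bound -/
lemma colen_le {c : ℕ} (m : Fin c → A) (hm : LinearIndependent K[X] m)
    (htor : ∀ a : A, ∃ d : K[X], d ≠ 0 ∧ d • a ∈ Submodule.span K[X] (Set.range m))
    (f : K[X]) (hf : f ≠ 0) (hinj : Function.Injective (mulBy A f))
    (hfin : Module.Finite K (A ⧸ LinearMap.range (mulBy A f))) :
    colen A f ≤ ((c * f.natDegree : ℕ) : ℕ∞) := by
  classical
  set N := Submodule.span K[X] (Set.range m) with hN
  obtain ⟨S, hS⟩ := hfin.fg_top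
  choose lift hlift using fun x : A ⧸ LinearMap.range (mulBy A f) =>
    Submodule.Quotient.mk_surjective _ x
  set S' : Finset A := S.image lift with hS'
  set N' := N ⊔ Submodule.span K[X] (S' : Set A) with hN'
  have hNN' : N ≤ N' := le_sup_left
  -- A = N' + f A
  have hgen : ∀ a : A, ∃ (n : N') (b : A), a = n.1 + f • b := by
    intro a
    have h1 : (Submodule.Quotient.mk a : A ⧸ LinearMap.range (mulBy A f)) ∈
        Submodule.span K (S : Set _) := by rw [hS]; trivial
    have h2 : ∀ x ∈ Submodule.span K (S : Set (A ⧸ LinearMap.range (mulBy A f))),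
        ∃ n : N', (Submodule.Quotient.mk n.1 : A ⧸ LinearMap.range (mulBy A f)) = x := by
      intro x hx
      refine Submodule.span_induction (p := fun x _ => ∃ n : N',
        (Submodule.Quotient.mk n.1 : A ⧸ LinearMap.range (mulBy A f)) = x) ?_ ?_ ?_ ?_ hx
      · intro x hx
        refine ⟨⟨lift x, ?_⟩, hlift x⟩
        apply (le_sup_right : _ ≤ N')
        exact Submodule.subset_span (Finset.mem_coe.2 (Finset.mem_image_of_mem _ hx))
      · exact ⟨0, rfl⟩
      · rintro x y _ _ ⟨n, hn⟩ ⟨n', hn'⟩
        exact ⟨n + n', by rw [← hn, ← hn']; rfl⟩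
      · rintro a x _ ⟨n, hn⟩
        exact ⟨a • n, by rw [← hn]; rfl⟩
    obtain ⟨n, hn⟩ := h2 _ h1
    rw [Submodule.Quotient.eq] at hn
    obtain ⟨b, hb⟩ := hn
    refine ⟨n, -b, ?_⟩
    rw [mulBy_apply] at hb
    rw [smul_neg, hb]; abel
  have hle : colen A f ≤ colen N' f := by
    refine length_quot_le (N'.subtype.restrictScalars K) (mulBy N' f) (mulBy A f) ?_ ?_
    · ext x; rfl
    · intro a
      obtain ⟨n, b, h⟩ := hgen a
      exact ⟨n, b, h⟩
  refine hle.trans ?_
  -- finite codimension of N in N'
  let ι : N →ₗ[K] N' := (Submodule.inclusion hNN').restrictScalars K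
  have hιinj : Function.Injective ι := Submodule.inclusion_injective hNN'
  have hfinN : Module.Finite K (N' ⧸ LinearMap.range ι) := by
    choose d hd0 hd using htor
    -- spanning set: X^k s
    let T : Finset A := S'.biUnion (fun s => (Finset.range (d s).natDegree).image
      (fun k => (X ^ k : K[X]) • s))
    have hTN' : ∀ t ∈ T, t ∈ N' := by
      intro t ht
      simp only [T, Finset.mem_biUnion, Finset.mem_image] at ht
      obtain ⟨s, hs, k, _, rfl⟩ := ht
      exact Submodule.smul_mem _ _ ((le_sup_right : _ ≤ N') (Submodule.subset_span hs))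
    let W : Submodule K A := (N.restrictScalars K) ⊔ Submodule.span K (T : Set A)
    have hW : ∀ s ∈ S', ∀ a : K[X], a • s ∈ W := by
      intro s hs a
      have h1 : a = (d s) * (a / d s) + a % d s := (EuclideanDomain.div_add_mod a (d s)).symm
      rw [h1, add_smul, mul_comm, mul_smul]
      refine Submodule.add_mem _ ?_ ?_
      · apply (le_sup_left : _ ≤ W)
        exact N.smul_mem _ (hd s)
      · apply (le_sup_right : _ ≤ W)
        have h2 : (a % d s).natDegree < (d s).natDegree ∨ (d s).natDegree = 0 := by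
          by_cases h0 : (d s).natDegree = 0
          · right; exact h0
          · left; exact Polynomial.natDegree_mod_lt _ h0
        rcases h2 with h2 | h2
        · rw [(a % d s).as_sum_range' _ h2, Finset.sum_smul]
          refine Submodule.sum_mem _ fun k hk => ?_
          rw [← C_mul_X_pow_eq_monomial, mul_smul, ← Polynomial.algebraMap_eq, algebraMap_smul]
          refine Submodule.smul_mem _ _ (Submodule.subset_span ?_)
          simp only [T, Finset.coe_biUnion, Set.mem_iUnion]
          exact ⟨s, hs, Finset.mem_coe.2 (Finset.mem_image_of_mem _ hk)⟩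
        · have h3 : a % d s = 0 := by
            rw [Polynomial.natDegree_eq_zero] at h2
            obtain ⟨u, hu⟩ := h2
            have hu0 : u ≠ 0 := by
              intro h; apply hd0 s; rw [← hu, h, C_0]
            rw [← hu]
            apply EuclideanDomain.mod_eq_zero.2
            exact (isUnit_C.2 (isUnit_iff_ne_zero.2 hu0)).dvd
          rw [h3, zero_smul]; exact Submodule.zero_mem _
    have hNW : ∀ x ∈ N', x ∈ W := by
      intro x hx
      obtain ⟨n, hn, y, hy, rfl⟩ := Submodule.mem_sup.1 hx
      refine Submodule.add_mem _ ((le_sup_left : _ ≤ W) hn) ?_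
      refine Submodule.span_induction (p := fun y _ => y ∈ W) ?_ ?_ ?_ ?_
        (show y ∈ Submodule.span K (⋃ s ∈ S', Set.range fun a : K[X] => a • s) from ?_)
      · intro y hy
        simp only [Set.mem_iUnion] at hy
        obtain ⟨s, hs, a, rfl⟩ := hy
        exact hW s hs a
      · exact Submodule.zero_mem _
      · intro _ _ _ _ h h'; exact Submodule.add_mem _ h h'
      · intro _ _ _ h; exact Submodule.smul_mem _ _ h
      · refine Submodule.span_induction (p := fun y _ => y ∈ Submodule.span K
          (⋃ s ∈ S', Set.range fun a : K[X] => a • s)) ?_ ?_ ?_ ?_ hy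
        · intro s hs
          apply Submodule.subset_span
          simp only [Set.mem_iUnion]
          exact ⟨s, hs, 1, one_smul _ _⟩
        · exact Submodule.zero_mem _
        · intro _ _ _ _ h h'; exact Submodule.add_mem _ h h'
        · intro a y _ h
          refine Submodule.span_induction (p := fun y _ => a • y ∈ Submodule.span K
            (⋃ s ∈ S', Set.range fun a : K[X] => a • s)) ?_ ?_ ?_ ?_ h
          · intro y hy
            simp only [Set.mem_iUnion] at hy
            obtain ⟨s, hs, b, rfl⟩ := hy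
            apply Submodule.subset_span
            simp only [Set.mem_iUnion]
            exact ⟨s, hs, a * b, mul_smul _ _ _⟩
          · rw [smul_zero]; exact Submodule.zero_mem _
          · intro x y _ _ hx hy; rw [smul_add]; exact Submodule.add_mem _ hx hy
          · intro b x _ hx
            rw [smul_comm]; exact Submodule.smul_mem _ _ hx
    -- conclude
    have hspan : Submodule.span K ((fun t : T => (LinearMap.range ι).mkQ ⟨t.1, hTN' _ t.2⟩) ''
        Set.univ) = ⊤ := by
      rw [eq_top_iff]
      intro x _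
      obtain ⟨⟨y, hy⟩, rfl⟩ := Submodule.mkQ_surjective _ x
      obtain ⟨n, hn, z, hz, hnz⟩ := Submodule.mem_sup.1 (hNW y hy)
      have hzN' : z ∈ N' := by
        have : z = y - n := by rw [← hnz]; abel
        rw [this]; exact Submodule.sub_mem _ hy (hNN' hn)
      have h1 : (LinearMap.range ι).mkQ ⟨y, hy⟩ = (LinearMap.range ι).mkQ ⟨z, hzN'⟩ := by
        rw [Submodule.mkQ_apply, Submodule.mkQ_apply, Submodule.Quotient.eq]
        refine ⟨⟨n, hn⟩, ?_⟩
        apply Subtype.ext
        change n = y - z
        rw [← hnz]; abel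
      rw [h1]
      have h2 : ∀ z (hz : z ∈ Submodule.span K (T : Set A)), ∀ hzN' : z ∈ N',
          (LinearMap.range ι).mkQ ⟨z, hzN'⟩ ∈ Submodule.span K
          ((fun t : T => (LinearMap.range ι).mkQ ⟨t.1, hTN' _ t.2⟩) '' Set.univ) := by
        intro z hz
        refine Submodule.span_induction (p := fun z _ => ∀ hzN' : z ∈ N',
          (LinearMap.range ι).mkQ ⟨z, hzN'⟩ ∈ Submodule.span K
          ((fun t : T => (LinearMap.range ι).mkQ ⟨t.1, hTN' _ t.2⟩) '' Set.univ)) ?_ ?_ ?_ ?_ hz
        · intro t ht _
          exact Submodule.subset_span ⟨⟨t, ht⟩, trivial, rfl⟩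
        · intro h0
          have : (⟨0, h0⟩ : N') = 0 := rfl
          rw [this, map_zero]; exact Submodule.zero_mem _
        · intro x y hx hy ihx ihy hxy
          have hTspan : ∀ x ∈ Submodule.span K (T : Set A), x ∈ N' := by
            intro x hx
            exact (Submodule.span_le (p := N'.restrictScalars K)).2 (fun t ht => hTN' t ht) hx
          have : (⟨x + y, hxy⟩ : N') = ⟨x, hTspan x hx⟩ + ⟨y, hTspan y hy⟩ := rfl
          rw [this, map_add]
          exact Submodule.add_mem _ (ihx _) (ihy _)
        · intro a x hx ihx hax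
          have hTspan : ∀ x ∈ Submodule.span K (T : Set A), x ∈ N' := by
            intro x hx
            exact (Submodule.span_le (p := N'.restrictScalars K)).2 (fun t ht => hTN' t ht) hx
          have : (⟨a • x, hax⟩ : N') = a • ⟨x, hTspan x hx⟩ := rfl
          rw [this, map_smul]
          exact Submodule.smul_mem _ _ (ihx _)
      exact h2 z hz hzN'
    have hfs : (((fun t : T => (LinearMap.range ι).mkQ ⟨t.1, hTN' _ t.2⟩) '' Set.univ)).Finite :=
      Set.toFinite _
    exact ⟨⟨hfs.toFinset, by rw [Set.Finite.coe_toFinset]; exact hspan⟩⟩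
  -- two ways of computing
  have h1 := length_comp' ι (mulBy N f) hιinj
  have hinjN' : Function.Injective (mulBy N' f) := by
    intro x y hxy
    apply Subtype.ext
    apply hinj
    exact congrArg Subtype.val hxy
  have h2 := length_comp' (mulBy N' f) ι hinjN'
  have h3 : ι ∘ₗ mulBy N f = mulBy N' f ∘ₗ ι := by ext x; rfl
  rw [h3, h2] at h1
  have h4 : Module.length K (N' ⧸ LinearMap.range ι) ≠ ⊤ := by
    rw [Module.length_eq_finrank]; exact ENat.natCast_ne_top _
  have h5 : colen N f = ((c * f.natDegree : ℕ) : ℕ∞) := colen_span m hm f hf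
  have h6 : colen N' f = colen N f := by
    rw [add_comm] at h1
    exact ENat.add_left_injective_of_ne_top h4 h1
  rw [h6, h5]

end PolyModule

end Pool.Agent.Lib.H65.Fad
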