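import Mathlib
import Pool.Agent.Lib.H65.FadG

open Polynomial

namespace Pool.Agent.Lib.H65.Fad

variable {K : Type*} [Field K] {φ : RingAut K} {p : ℕ} {r : ℕ}

/-- `M` as a `K[X]`-module, `X` acting as pull-back by `σ`. -/
def MX {σ : (Fin r → K) → (Fin r → K)} (_ : IsMor φ σ) : Type _ := M φ r

section inst

variable {σ : (Fin r → K) → (Fin r → K)} (hσ : IsMor φ σ)

noncomputable instance : AddCommGroup (MX hσ) := inferInstanceAs (AddCommGroup (M φ r))

noncomputable instance : Module K (MX hσ) := inferInstanceAs (Module K (M φ r))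

/-- the identification of `M` with `MX`. -/
noncomputable def toMX : M φ r ≃ₗ[K] MX hσ := LinearEquiv.refl K (M φ r)

noncomputable instance : SMul K[X] (MX hσ) :=
  ⟨fun f m => toMX hσ (aeval (pull hσ) f ((toMX hσ).symm m))⟩

lemma MX_smul_def (f : K[X]) (m : MX hσ) :
    f • m = toMX hσ (aeval (pull hσ) f ((toMX hσ).symm m)) := rfl

noncomputable instance : Module K[X] (MX hσ) where
  one_smul m := by simp [MX_smul_def]
  mul_smul f g m := by simp [MX_smul_def, Module.End.mul_apply]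
  smul_zero f := by simp [MX_smul_def]
  smul_add f m m' := by simp [MX_smul_def]
  add_smul f g m := by simp [MX_smul_def]
  zero_smul m := by simp [MX_smul_def]

instance : IsScalarTower K K[X] (MX hσ) where
  smul_assoc a f m := by simp [MX_smul_def]

lemma MX_C_smul (a : K) (m : MX hσ) : (C a : K[X]) • m = a • m := by
  simp [MX_smul_def]

lemma MX_X_smul (m : M φ r) : (X : K[X]) • toMX hσ m = toMX hσ (pull hσ m) := by
  simp [MX_smul_def]

end inst

/-- the twist -/
noncomputable def tw (φ : RingAut K) (r : ℕ) (k : ℤ) : M φ r ≃+ M φ r where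
  toFun m := ⟨fun x => (φ ^ k) (m.1 x), twist_mem_M m.2 k⟩
  invFun m := ⟨fun x => (φ ^ (-k)) (m.1 x), twist_mem_M m.2 (-k)⟩
  left_inv m := by
    apply Subtype.ext; funext x
    change ((φ ^ (-k)) * (φ ^ k)) (m.1 x) = _
    rw [← zpow_add]; simp
  right_inv m := by
    apply Subtype.ext; funext x
    change ((φ ^ k) * (φ ^ (-k))) (m.1 x) = _
    rw [← zpow_add]; simp
  map_add' m m' := by
    apply Subtype.ext; funext x
    simp

lemma tw_pull {σ : (Fin r → K) → (Fin r → K)} (hσ : IsMor φ σ) (k : ℤ) (m : M φ r) :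
    tw φ r k (pull hσ m) = pull hσ (tw φ r k m) := rfl

lemma tw_smul (k : ℤ) (a : K) (m : M φ r) : tw φ r k (a • m) = ((φ ^ k) a) • tw φ r k m := by
  apply Subtype.ext; funext x
  simp [tw]

lemma tw_E (i : Fin r) (k l : ℤ) : tw φ r k ⟨E φ r i l, E_mem_M i l⟩ = ⟨E φ r i (k + l), E_mem_M i _⟩ := by
  apply Subtype.ext; funext x
  simp only [tw, E, zpow_add]; rfl

/-- twisting the coefficients of a polynomial -/
noncomputable abbrev twp (φ : RingAut K) (k : ℤ) (a : K[X]) : K[X] := a.map ((φ ^ k : RingAut K) : K →+* K)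

lemma tw_poly {σ : (Fin r → K) → (Fin r → K)} (hσ : IsMor φ σ) (k : ℤ) (a : K[X]) (m : M φ r) :
    tw φ r k ((toMX hσ).symm (a • toMX hσ m)) = (toMX hσ).symm (twp φ k a • toMX hσ (tw φ r k m)) := by
  induction a using Polynomial.induction_on' generalizing m with
  | add a b ha hb =>
    simp only [twp, Polynomial.map_add, add_smul, map_add] at ha hb ⊢
    rw [ha, hb]
  | monomial n c =>
    induction n generalizing m with
    | zero =>
      simp only [twp, monomial_zero_left, Polynomial.map_C, MX_C_smul, map_smul,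
        LinearEquiv.symm_apply_apply]
      rw [tw_smul]; rfl
    | succ n ih =>
      have h1 : ∀ (c : K) (m : M φ r), (monomial (n + 1) c) • toMX hσ m =
          (monomial n c) • toMX hσ (pull hσ m) := by
        intro c m
        rw [← MX_X_smul, smul_smul, monomial_mul_X]
      simp only [twp, Polynomial.map_monomial] at ih ⊢
      rw [h1, ih, h1, tw_pull]

/-- the crucial denominators lemma. -/
lemma exists_denominator {σ : (Fin r → K) → (Fin r → K)} (hσ : IsMor φ σ) {c : ℕ}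
    (m : Fin c → MX hσ)
    (htor : ∀ a : MX hσ, ∃ d : K[X], d ≠ 0 ∧ d • a ∈ Submodule.span K[X] (Set.range m)) :
    ∃ g : K[X], g ≠ 0 ∧ ∀ f : K[X], twp φ 1 f = f → IsCoprime f g →
      ∀ a : MX hσ, ∃ G : K[X], IsCoprime f G ∧ G • a ∈ Submodule.span K[X] (Set.range m) := by
  classical
  set N := Submodule.span K[X] (Set.range m) with hN
  choose d hd0 hd using htor
  let T : Fin c → ℤ → MX hσ := fun i k => toMX hσ (tw φ r k ((toMX hσ).symm (m i)))
  let g : K[X] := (∏ i : Fin r, d (toMX hσ ⟨E φ r i 0, E_mem_M i 0⟩)) *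
    ((∏ i : Fin c, d (T i 1)) * (∏ i : Fin c, d (T i (-1))))
  have hg : g ≠ 0 := by
    refine mul_ne_zero (Finset.prod_ne_zero_iff.2 fun i _ => hd0 _)
      (mul_ne_zero (Finset.prod_ne_zero_iff.2 fun i _ => hd0 _)
        (Finset.prod_ne_zero_iff.2 fun i _ => hd0 _))
  have hdvd : ∀ (x : MX hσ) (e : K[X]), d x ∣ e → e • x ∈ N := by
    rintro x e ⟨u, rfl⟩
    rw [mul_comm, mul_smul]; exact N.smul_mem _ (hd x)
  have hgE : ∀ i, g • toMX hσ ⟨E φ r i 0, E_mem_M i 0⟩ ∈ N := fun i =>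
    hdvd _ _ (Dvd.dvd.mul_right (Finset.dvd_prod_of_mem _ (Finset.mem_univ i)) _)
  have hgT1 : ∀ i, g • T i 1 ∈ N := fun i =>
    hdvd _ _ (Dvd.dvd.mul_left (Dvd.dvd.mul_right
      (Finset.dvd_prod_of_mem (fun i => d (T i 1)) (Finset.mem_univ i)) _) _)
  have hgT2 : ∀ i, g • T i (-1) ∈ N := fun i =>
    hdvd _ _ (Dvd.dvd.mul_left (Dvd.dvd.mul_left
      (Finset.dvd_prod_of_mem (fun i => d (T i (-1))) (Finset.mem_univ i)) _) _)
  -- twisting N
  have htwN : ∀ k : ℤ, (∀ i, g • T i k ∈ N) → ∀ n ∈ N,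
      g • toMX hσ (tw φ r k ((toMX hσ).symm n)) ∈ N := by
    intro k hk n hn
    refine Submodule.span_induction (p := fun n _ =>
      g • toMX hσ (tw φ r k ((toMX hσ).symm n)) ∈ N) ?_ ?_ ?_ ?_ hn
    · rintro _ ⟨i, rfl⟩; exact hk i
    · simp
    · intro x y _ _ hx hy
      rw [map_add, map_add, map_add, smul_add]; exact N.add_mem hx hy
    · intro a x _ hx
      have h1 := tw_poly hσ k a ((toMX hσ).symm x)
      rw [LinearEquiv.apply_symm_apply] at h1
      rw [h1, LinearEquiv.apply_symm_apply, smul_comm]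
      exact N.smul_mem _ hx
  refine ⟨g, hg, fun f hf hfg => ?_⟩
  have hf' : twp φ (-1) f = f := by
    conv_lhs => rw [← hf]
    rw [twp, twp, Polynomial.map_map]
    have : (((φ ^ (-1 : ℤ) : RingAut K) : K →+* K)).comp ((φ ^ (1 : ℤ) : RingAut K) : K →+* K) =
        RingHom.id K := by
      ext x
      change ((φ ^ (-1 : ℤ)) * (φ ^ (1 : ℤ))) x = x
      rw [← zpow_add]; simp
    rw [this, Polynomial.map_id]
  have hcop : ∀ k : ℤ, twp φ k f = f → ∀ G, IsCoprime f G → IsCoprime f (twp φ k G) := by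
    intro k hk G hG
    have := hG.map (Polynomial.mapRingHom ((φ ^ k : RingAut K) : K →+* K))
    simpa only [Polynomial.coe_mapRingHom, hk] using! this
  -- the good submodule
  let P : MX hσ → Prop := fun a => ∃ G : K[X], IsCoprime f G ∧ G • a ∈ N
  have hPadd : ∀ a b, P a → P b → P (a + b) := by
    rintro a b ⟨G, hG, hGa⟩ ⟨G', hG', hGb⟩
    refine ⟨G * G', hG.mul_right hG', ?_⟩
    rw [smul_add]
    refine N.add_mem ?_ ?_
    · rw [mul_comm, mul_smul]; exact N.smul_mem _ hGa
    · rw [mul_smul]; exact N.smul_mem _ hGb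
  have hPtw : ∀ k : ℤ, twp φ k f = f → (∀ i, g • T i k ∈ N) → ∀ a : M φ r, P (toMX hσ a) →
      P (toMX hσ (tw φ r k a)) := by
    rintro k hk hkT a ⟨G, hG, hGa⟩
    refine ⟨g * twp φ k G, hfg.mul_right (hcop k hk G hG), ?_⟩
    have h1 := tw_poly hσ k G a
    have h2 : twp φ k G • toMX hσ (tw φ r k a) = toMX hσ (tw φ r k ((toMX hσ).symm (G • toMX hσ a))) := by
      rw [h1, LinearEquiv.apply_symm_apply]
    rw [mul_smul, h2]
    exact htwN k hkT _ hGa
  have hPE : ∀ (i : Fin r) (k : ℤ), P (toMX hσ ⟨E φ r i k, E_mem_M i k⟩) := by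
    intro i k
    induction k using Int.induction_on with
    | zero => exact ⟨g, hfg, hgE i⟩
    | succ k ih =>
      have := hPtw 1 hf hgT1 _ ih
      rw [tw_E, add_comm] at this
      exact this
    | pred k ih =>
      have := hPtw (-1) hf' hgT2 _ ih
      rw [tw_E] at this
      have h2 : (-1 : ℤ) + -(k : ℤ) = -(k : ℤ) - 1 := by ring
      simpa only [h2] using this
  intro a
  have hall : ∀ m (hm : m ∈ M φ r), P (toMX hσ ⟨m, hm⟩) := by
    intro m hm
    refine Submodule.span_induction (p := fun m _ => ∀ hm : m ∈ M φ r, P (toMX hσ ⟨m, hm⟩))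
      ?_ ?_ ?_ ?_ hm hm
    · rintro _ ⟨⟨i, k⟩, rfl⟩ _; exact hPE i k
    · intro h0
      have : (⟨0, h0⟩ : M φ r) = 0 := rfl
      rw [this, map_zero]
      exact ⟨1, isCoprime_one_right, by simp⟩
    · intro x y hx hy ihx ihy hxy
      have : (⟨x + y, hxy⟩ : M φ r) = ⟨x, hx⟩ + ⟨y, hy⟩ := rfl
      rw [this, map_add]
      exact hPadd _ _ (ihx _) (ihy _)
    · intro b x hx ihx hbx
      obtain ⟨G, hG, hGx⟩ := ihx hx
      have : (⟨b • x, hbx⟩ : M φ r) = b • ⟨x, hx⟩ := rfl
      rw [this, map_smul]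
      refine ⟨G, hG, ?_⟩
      rw [smul_comm]
      exact Submodule.smul_of_tower_mem N b hGx
  have := hall _ ((toMX hσ).symm a).2
  simpa using this

end Pool.Agent.Lib.H65.Fad
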