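import Mathlib
import Pool.Agent.Lib.H65.FadH

open Polynomial

namespace Pool.Agent.Lib.H65.Fad

set_option linter.unusedSectionVars false

variable {K : Type*} [Field K] {φ : RingAut K} {p : ℕ} {r : ℕ}

lemma pull_pow_mem_Mj {σ : (Fin r → K) → (Fin r → K)} (hσ : IsMor φ σ) {s : ℕ}
    (hs : ∀ i, (fun x => σ x i) ∈ Mj φ r s) {j : ℕ} (m : M φ r) (hm : m.1 ∈ Mj φ r j) (n : ℕ) :
    ((toMX hσ).symm ((X ^ n : K[X]) • toMX hσ m)).1 ∈ Mj φ r (j + n * s) := by
  induction n with
  | zero => simpa using hm
  | succ n ih =>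
    have h1 : (toMX hσ).symm ((X ^ (n + 1) : K[X]) • toMX hσ m) =
        pull hσ ((toMX hσ).symm ((X ^ n : K[X]) • toMX hσ m)) := by
      rw [pow_succ', mul_smul]
      apply (toMX hσ).injective
      rw [LinearEquiv.apply_symm_apply, ← MX_X_smul, LinearEquiv.apply_symm_apply]
    rw [h1]
    have h2 := comp_mem_Mj hs ih
    exact Mj_mono (by rw [Nat.succ_mul]; omega) h2

lemma card_indep_le [Fact p.Prime] [IsAlgClosed K] (hφ : ∀ x, φ x = x ^ p)
    {σ : (Fin r → K) → (Fin r → K)} (hσ : IsMor φ σ) {s : ℕ}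
    (hs : ∀ i, (fun x => σ x i) ∈ Mj φ r s) {t : ℕ} (m : Fin t → MX hσ)
    (hm : LinearIndependent K[X] m) : t ≤ 2 * r * s := by
  choose j hj using fun i => exists_Mj_of_mem ((toMX hσ).symm (m i)).2
  set J := Finset.univ.sup j with hJ
  have hJ' : ∀ i, ((toMX hσ).symm (m i)).1 ∈ Mj φ r J := fun i =>
    Mj_mono (Finset.le_sup (Finset.mem_univ i)) (hj i)
  have key : ∀ n : ℕ, n * t ≤ r * (2 * (J + n * s) + 1) := by
    intro n
    have h1 : LinearIndependent K (fun k : Fin n => (X ^ (k : ℕ) : K[X])) := by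
      have h2 := (Polynomial.basisMonomials K).linearIndependent
      have h3 := h2.comp (fun k : Fin n => (k : ℕ)) Fin.val_injective
      have h4 : (fun k : Fin n => (X ^ (k : ℕ) : K[X])) =
          (⇑(Polynomial.basisMonomials K) ∘ fun k : Fin n => (k : ℕ)) := by
        funext k
        simp [Polynomial.coe_basisMonomials, Polynomial.X_pow_eq_monomial]
      rw [h4]; exact h3
    have h5 := linearIndependent_smul h1 hm
    -- transport
    have hmem : ∀ q : Fin n × Fin t, ((toMX hσ).symm ((X ^ (q.1 : ℕ) : K[X]) • m q.2)).1 ∈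
        Mj φ r (J + n * s) := by
      intro q
      have h6 := pull_pow_mem_Mj hσ hs ((toMX hσ).symm (m q.2)) (hJ' q.2) q.1
      rw [LinearEquiv.apply_symm_apply] at h6
      refine Mj_mono ?_ h6
      have : (q.1 : ℕ) * s ≤ n * s := Nat.mul_le_mul_right _ q.1.isLt.le
      omega
    let v : Fin n × Fin t → Mj φ r (J + n * s) := fun q => ⟨_, hmem q⟩
    have hv : LinearIndependent K v := by
      apply LinearIndependent.of_comp (Mj φ r (J + n * s)).subtype
      have h7 := h5.map' ((M φ r).subtype ∘ₗ (toMX hσ).symm.toLinearMap) (by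
        rw [LinearMap.ker_eq_bot]
        exact (Submodule.injective_subtype _).comp (toMX hσ).symm.injective)
      exact h7
    have h8 := hv.fintype_card_le_finrank
    rw [finrank_Mj hφ] at h8
    simpa using h8
  by_contra hcon
  push Not at hcon
  have h1 := key (r * (2 * J + 1) + 1)
  set n := r * (2 * J + 1) + 1 with hn
  have h2 : n * (2 * r * s + 1) ≤ n * t := Nat.mul_le_mul_left _ hcon
  have h3 : r * (2 * (J + n * s) + 1) = (n - 1) + n * (2 * r * s) := by
    rw [hn]; simp only [Nat.add_sub_cancel]; ring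
  have h4 : n * (2 * r * s + 1) = n * (2 * r * s) + n := by ring
  have hn1 : 1 ≤ n := by omega
  omega

lemma exists_max_indep [Fact p.Prime] [IsAlgClosed K] (hφ : ∀ x, φ x = x ^ p)
    {σ : (Fin r → K) → (Fin r → K)} (hσ : IsMor φ σ) :
    ∃ (c : ℕ) (m : Fin c → MX hσ), LinearIndependent K[X] m ∧
      ∀ a : MX hσ, ∃ d : K[X], d ≠ 0 ∧ d • a ∈ Submodule.span K[X] (Set.range m) := by
  classical
  obtain ⟨s, hs⟩ := hσ.exists_Mj
  set P : ℕ → Prop := fun t => ∃ m : Fin t → MX hσ, LinearIndependent K[X] m with hP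
  have hP0 : P 0 := ⟨Fin.elim0, linearIndependent_empty_type⟩
  set c := Nat.findGreatest P (2 * r * s) with hc
  have hPc : P c := Nat.findGreatest_spec (P := P) (Nat.zero_le _) hP0
  obtain ⟨m, hm⟩ := hPc
  refine ⟨c, m, hm, fun a => ?_⟩
  by_contra hcon
  push Not at hcon
  have h1 : LinearIndependent K[X] (Fin.cons a m : Fin (c + 1) → MX hσ) := by
    apply LinearIndependent.finCons' a m hm
    intro d y hy hdy
    by_contra hd
    apply hcon d hd
    have : d • a = -y := eq_neg_of_add_eq_zero_left hdy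
    rw [this]; exact Submodule.neg_mem _ hy
  have h2 : P (c + 1) := ⟨_, h1⟩
  have h3 := card_indep_le hφ hσ hs _ h1
  have h4 := Nat.le_findGreatest h3 h2
  omega

section poly

variable [Fact p.Prime] [Algebra (ZMod p) K]

/-- `f(σ)` for a polynomial `f` over `F_p`. -/
noncomputable def evalMor {σ : (Fin r → K) → (Fin r → K)} (hσ : IsMor φ σ) (f : (ZMod p)[X]) :
    (Fin r → K) → (Fin r → K) := fun x => aeval (hσ.lin p) f x

/-- base change of a polynomial -/
noncomputable abbrev toK (K : Type*) [Field K] [Algebra (ZMod p) K] (f : (ZMod p)[X]) : K[X] :=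
  f.map (algebraMap (ZMod p) K)

lemma M_zmod_smul {m : (Fin r → K) → K} (hm : m ∈ M φ r) (a : ZMod p) (x : Fin r → K) :
    m (a • x) = algebraMap (ZMod p) K a * m x := by
  let m' : (Fin r → K) →ₗ[ZMod p] K := AddMonoidHom.toZModLinearMap p (AddMonoidHom.mk' m (M_add hm))
  have h1 := m'.map_smul a x
  have h2 : a • m' x = algebraMap (ZMod p) K a * m' x := Algebra.smul_def _ _
  rw [h2] at h1
  exact h1

lemma pull_evalMor {σ : (Fin r → K) → (Fin r → K)} (hσ : IsMor φ σ) (f : (ZMod p)[X])
    (m : M φ r) : (fun x => m.1 (evalMor hσ f x)) =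
      ((toMX hσ).symm (toK K f • toMX hσ m)).1 := by
  induction f using Polynomial.induction_on' generalizing m with
  | add a b ha hb =>
    have h1 := ha m
    have h2 := hb m
    simp only [toK, Polynomial.map_add, add_smul, map_add, Submodule.coe_add] at h1 h2 ⊢
    rw [← h1, ← h2]
    funext x
    simp only [evalMor, map_add, LinearMap.add_apply, Pi.add_apply]
    exact M_add m.2 _ _
  | monomial n c =>
    induction n generalizing m with
    | zero =>
      simp only [toK, monomial_zero_left, Polynomial.map_C, MX_C_smul, map_smul,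
        LinearEquiv.symm_apply_apply, Submodule.coe_smul]
      funext x
      simp only [evalMor, aeval_C, Module.algebraMap_end_apply, Pi.smul_apply, smul_eq_mul]
      exact M_zmod_smul m.2 c x
    | succ n ih =>
      have h1 : ∀ (c : K) (m : M φ r), (monomial (n + 1) c) • toMX hσ m =
          (monomial n c) • toMX hσ (pull hσ m) := by
        intro c m
        rw [← MX_X_smul, smul_smul, monomial_mul_X]
      have h2 := ih (pull hσ m)
      simp only [toK, Polynomial.map_monomial] at h2 ⊢
      rw [h1, ← h2]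
      funext x
      simp only [evalMor, pull_apply]
      rw [← X_mul_monomial, map_mul, aeval_X]
      rfl

lemma isMor_evalMor {σ : (Fin r → K) → (Fin r → K)} (hσ : IsMor φ σ) (f : (ZMod p)[X]) :
    IsMor φ (evalMor hσ f) := by
  intro i
  have h := pull_evalMor hσ f ⟨E φ r i 0, E_mem_M i 0⟩
  have h2 : (fun x => evalMor hσ f x i) = fun x => E φ r i 0 (evalMor hσ f x) := by
    funext x; simp [E]
  rw [h2]
  simp only at h
  rw [h]
  exact Subtype.mem _

lemma toMX_pull {σ : (Fin r → K) → (Fin r → K)} (hσ : IsMor φ σ) (f : (ZMod p)[X]) (m : M φ r) :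
    toMX hσ (pull (isMor_evalMor hσ f) m) = toK K f • toMX hσ m := by
  apply (toMX hσ).symm.injective
  rw [LinearEquiv.symm_apply_apply]
  exact Subtype.ext (pull_evalMor hσ f m)

lemma colen_eq_length {σ : (Fin r → K) → (Fin r → K)} (hσ : IsMor φ σ) (f : (ZMod p)[X]) :
    colen (MX hσ) (toK K f) =
      Module.length K (M φ r ⧸ LinearMap.range (pull (isMor_evalMor hσ f))) := by
  unfold colen
  have hpull := toMX_pull hσ f
  refine length_quot_eq (toMX hσ).toLinearMap _ _ ?_ ?_ ?_
  · refine LinearMap.ext fun m => ?_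
    simp only [LinearMap.comp_apply, LinearEquiv.coe_coe, mulBy_apply, hpull]
  · intro b; exact ⟨(toMX hσ).symm b, 0, by simp⟩
  · intro a b hab
    refine ⟨(toMX hσ).symm b, (toMX hσ).injective ?_⟩
    rw [hpull, LinearEquiv.apply_symm_apply]
    exact hab

lemma twp_toK (hφ : ∀ x, φ x = x ^ p) (f : (ZMod p)[X]) : twp φ 1 (toK K f) = toK K f := by
  have hchar : CharP K p := charP_of_injective_algebraMap (algebraMap (ZMod p) K).injective p
  rw [twp, toK, Polynomial.map_map]
  congr 1
  ext a
  change φ (algebraMap (ZMod p) K a) = _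
  rw [hφ, ← map_pow, ZMod.pow_card]

theorem main_poly [IsAlgClosed K] (hφ : ∀ x, φ x = x ^ p)
    {σ : (Fin r → K) → (Fin r → K)} (hσ : IsMor φ σ) :
    ∃ (c : ℕ) (g : K[X]), g ≠ 0 ∧ ∀ f : (ZMod p)[X], f ≠ 0 →
      Set.Finite {x | evalMor hσ f x = 0} →
      Function.Surjective (evalMor hσ f) ∧
      Module.Finite (ZMod p) (LinearMap.ker (aeval (hσ.lin p) f)) ∧
      Module.finrank (ZMod p) (LinearMap.ker (aeval (hσ.lin p) f)) ≤ c * f.natDegree ∧
      (IsCoprime (toK K f) g →
        Module.finrank (ZMod p) (LinearMap.ker (aeval (hσ.lin p) f)) = c * f.natDegree) := by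
  obtain ⟨c, m, hm, htor⟩ := exists_max_indep hφ hσ
  obtain ⟨g, hg0, hg⟩ := exists_denominator hσ m htor
  refine ⟨c, g, hg0, fun f hf hfin => ?_⟩
  have hfK : toK K f ≠ 0 := by
    rw [toK, Ne, Polynomial.map_eq_zero]; exact hf
  have hdeg : (toK K f).natDegree = f.natDegree := Polynomial.natDegree_map _
  have hinj := injective_of_finite_ker hφ (isMor_evalMor hσ f) hfin
  obtain ⟨h1, h2, h3, h4⟩ := main_of_injective (p := p) hφ (isMor_evalMor hσ f) hinj
  have hkereq : LinearMap.ker ((isMor_evalMor hσ f).lin p) = LinearMap.ker (aeval (hσ.lin p) f) := rfl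
  rw [hkereq] at h2 h4
  have hlen := colen_eq_length hσ f
  rw [Module.length_eq_finrank] at hlen
  have hinj' : Function.Injective (mulBy (MX hσ) (toK K f)) := by
    intro x y hxy
    apply (toMX hσ).symm.injective
    apply hinj
    apply (toMX hσ).injective
    rw [toMX_pull, toMX_pull, LinearEquiv.apply_symm_apply, LinearEquiv.apply_symm_apply]
    exact hxy
  have hfin' : Module.Finite K (MX hσ ⧸ LinearMap.range (mulBy (MX hσ) (toK K f))) := by
    have h5 : LinearMap.range (pull (isMor_evalMor hσ f)) ≤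
        (LinearMap.range (mulBy (MX hσ) (toK K f))).comap (toMX hσ).toLinearMap := by
      rintro _ ⟨x, rfl⟩
      exact ⟨toMX hσ x, (toMX_pull hσ f x).symm⟩
    refine Module.Finite.of_surjective (Submodule.mapQ _ _ (toMX hσ).toLinearMap h5) ?_
    intro b
    obtain ⟨b, rfl⟩ := Submodule.Quotient.mk_surjective _ b
    refine ⟨Submodule.Quotient.mk ((toMX hσ).symm b), ?_⟩
    rw [Submodule.mapQ_apply]
    simp
  refine ⟨h3, h2, ?_, ?_⟩
  · have h5 := colen_le m hm htor (toK K f) hfK hinj' hfin'
    rw [hlen, ← h4, hdeg] at h5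
    exact_mod_cast h5
  · intro hcop
    have h5 := hg (toK K f) (twp_toK hφ f) hcop
    have h6 : colen (MX hσ) (toK K f) =
        colen (Submodule.span K[X] (Set.range m)) (toK K f) := by
      unfold colen
      refine length_quot_eq ((Submodule.span K[X] (Set.range m)).subtype.restrictScalars K) _ _ ?_ ?_ ?_
      · ext x; rfl
      · intro b
        obtain ⟨G, ⟨u, v, huv⟩, hGb⟩ := h5 b
        refine ⟨v • ⟨G • b, hGb⟩, u • b, ?_⟩
        change b = v • (G • b) + (toK K f) • (u • b)
        rw [smul_smul, smul_smul, ← add_smul, add_comm, mul_comm (toK K f) u, huv, one_smul]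
      · intro a b hab
        obtain ⟨G, ⟨u, v, huv⟩, hGb⟩ := h5 b
        have hab' : (a : MX hσ) = (toK K f) • b := hab
        have hb : b ∈ Submodule.span K[X] (Set.range m) := by
          have : b = u • (toK K f • b) + v • (G • b) := by
            rw [smul_smul, smul_smul, ← add_smul, huv, one_smul]
          rw [this, ← hab']
          exact Submodule.add_mem _ (Submodule.smul_mem _ _ a.2) (Submodule.smul_mem _ _ hGb)
        exact ⟨⟨b, hb⟩, Subtype.ext hab'⟩
    rw [colen_span m hm _ hfK, hlen, ← h4, hdeg] at h6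
    exact_mod_cast h6

end poly

end Pool.Agent.Lib.H65.Fad
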