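import Mathlib
import Pool.Agent.Lib.H65.FadI

open Polynomial

namespace Pool.Agent.Lib.H65.Fad

set_option linter.unusedSectionVars false

variable {K : Type*} [Field K] {φ : RingAut K} {p : ℕ} {r : ℕ}

lemma additive_poly_mem [Fact p.Prime] [CharP K p] [Infinite K] (hφ : ∀ x, φ x = x ^ p)
    (i : Fin r) (n : ℕ) : ∀ q : K[X], q.natDegree ≤ n →
      (∀ s t, q.eval (s + t) = q.eval s + q.eval t) → (fun x : Fin r → K => q.eval (x i)) ∈ M φ r := by
  have hp := (Fact.out : p.Prime)
  induction n with
  | zero =>
    intro q hq hadd
    have h0 : q.eval 0 = 0 := by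
      have := hadd 0 0
      rw [add_zero] at this
      exact left_eq_add.1 this
    rw [Polynomial.eq_C_of_natDegree_le_zero hq] at h0 ⊢
    simp only [eval_C] at h0 ⊢
    rw [h0]
    exact Submodule.zero_mem _
  | succ n ih =>
    intro q hq hadd
    set a := q.derivative.eval 0 with ha
    have hder : q.derivative = C a := by
      apply Polynomial.funext
      intro s
      have h1 : q.comp (X + C s) = q + C (q.eval s) := by
        apply Polynomial.funext
        intro t
        simp [hadd]
      have h2 := congrArg derivative h1
      rw [derivative_comp] at h2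
      simp only [derivative_add, derivative_X, derivative_C, add_zero, one_mul] at h2
      have h3 := congrArg (eval 0) h2
      rw [eval_comp] at h3
      simp only [eval_add, eval_X, eval_C, zero_add] at h3
      rw [h3, eval_C]
    set q1 := q - C a * X with hq1
    have hq1d : derivative q1 = 0 := by
      rw [hq1, derivative_sub, hder]; simp
    have hq1add : ∀ s t, q1.eval (s + t) = q1.eval s + q1.eval t := by
      intro s t
      simp only [hq1, eval_sub, hadd, eval_mul, eval_C, eval_X]; ring
    set u := contract p q1 with hu
    have hexp : expand K p u = q1 := expand_contract p hq1d hp.ne_zero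
    have huadd : ∀ s t, u.eval (s + t) = u.eval s + u.eval t := by
      intro s t
      obtain ⟨s', rfl⟩ := φ.surjective s
      obtain ⟨t', rfl⟩ := φ.surjective t
      have h1 := hq1add s' t'
      rw [← hexp, expand_eval, expand_eval, expand_eval, ← hφ, ← hφ, ← hφ, map_add] at h1
      exact h1
    have hq1deg : q1.natDegree ≤ n + 1 := by
      refine (natDegree_sub_le _ _).trans (max_le hq ?_)
      exact ((natDegree_C_mul_le a X).trans natDegree_X_le).trans (by omega)
    have hudeg : u.natDegree ≤ n := by
      have h1 : q1.natDegree = u.natDegree * p := by rw [← hexp, natDegree_expand]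
      have h2 : 2 ≤ p := hp.two_le
      by_contra hcon
      push Not at hcon
      have : (n + 1) * 2 ≤ u.natDegree * p := Nat.mul_le_mul hcon h2
      omega
    have hmem := ih u hudeg huadd
    have hFr : IsMor φ (fun (x : Fin r → K) (j : Fin r) => φ (x j)) := by
      intro j
      have := E_mem_M (φ := φ) j 1
      have h2 : E φ r j 1 = fun x => φ (x j) := by funext x; simp [E]
      rwa [h2] at this
    have hmem2 := comp_mem_M hFr hmem
    have heq : (fun x : Fin r → K => q.eval (x i)) =
        a • E φ r i 0 + (fun x : Fin r → K => u.eval (φ (x i))) := by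
      funext x
      have h1 : q = C a * X + q1 := by rw [hq1]; ring
      conv_lhs => rw [h1]
      rw [← hexp]
      simp [E, expand_eval, hφ]
    rw [heq]
    exact Submodule.add_mem _ (Submodule.smul_mem _ _ (E_mem_M i 0)) hmem2

/-- additive polynomial maps are morphisms -/
lemma isMor_of_polynomial [Fact p.Prime] [CharP K p] [Infinite K] (hφ : ∀ x, φ x = x ^ p)
    (σ : (Fin r → K) → (Fin r → K)) (hadd : ∀ x y, σ (x + y) = σ x + σ y)
    (P : Fin r → MvPolynomial (Fin r) K) (hP : ∀ x i, σ x i = MvPolynomial.eval x (P i)) :
    IsMor φ σ := by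
  classical
  intro i
  let q : Fin r → K[X] := fun j => MvPolynomial.aeval (fun k => if k = j then (X : K[X]) else 0) (P i)
  have hq : ∀ j t, (q j).eval t = σ (Pi.single j t) i := by
    intro j t
    rw [hP]
    simp only [q]
    have h1 : (Polynomial.evalRingHom t).comp (MvPolynomial.aeval
        (fun k => if k = j then (X : K[X]) else 0) : MvPolynomial (Fin r) K →ₐ[K] K[X]).toRingHom =
        (MvPolynomial.eval (Pi.single j t)) := by
      apply MvPolynomial.ringHom_ext
      · intro a; simp
      · intro k
        simp only [AlgHom.toRingHom_eq_coe, RingHom.coe_comp, RingHom.coe_coe, Function.comp_apply,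
          MvPolynomial.aeval_X, coe_evalRingHom, MvPolynomial.eval_X, Pi.single_apply]
        split_ifs <;> simp
    exact RingHom.congr_fun h1 (P i)
  have hqadd : ∀ j s t, (q j).eval (s + t) = (q j).eval s + (q j).eval t := by
    intro j s t
    rw [hq, hq, hq, Pi.single_add, hadd]; rfl
  have hmem : ∀ j, (fun x : Fin r → K => (q j).eval (x j)) ∈ M φ r := fun j =>
    additive_poly_mem hφ j _ (q j) le_rfl (hqadd j)
  have hσ : (fun x => σ x i) = ∑ j, (fun x : Fin r → K => (q j).eval (x j)) := by
    funext x
    rw [Finset.sum_apply]
    simp only [hq]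
    let σ' : (Fin r → K) →+ (Fin r → K) := AddMonoidHom.mk' σ hadd
    have h2 : σ' x = ∑ j, σ' (Pi.single j (x j)) := by
      rw [← map_sum, Finset.univ_sum_single]
    have h3 := congrFun h2 i
    rw [Finset.sum_apply] at h3
    exact h3
  rw [hσ]
  exact Submodule.sum_mem _ fun j _ => hmem j

end Pool.Agent.Lib.H65.Fad
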