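import Mathlib
import Pool.Agent.Lib.H65.FadJ

open Polynomial

namespace Pool.Agent.Lib.H65.Fad

set_option linter.unusedSectionVars false

section kerlemma

variable {F V : Type*} [Field F] [AddCommGroup V] [Module F V]

lemma finrank_ker_mul (S T : Module.End F V) (hT : Function.Surjective T)
    [Module.Finite F (LinearMap.ker (S * T))] :
    Module.finrank F (LinearMap.ker (S * T)) =
      Module.finrank F (LinearMap.ker S) + Module.finrank F (LinearMap.ker T) := by
  let R : LinearMap.ker (S * T) →ₗ[F] LinearMap.ker S :=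
    LinearMap.codRestrict _ (T ∘ₗ (LinearMap.ker (S * T)).subtype) (fun x => x.2)
  have h1 := LinearMap.finrank_range_add_finrank_ker R
  have h2 : LinearMap.range R = ⊤ := by
    rw [LinearMap.range_eq_top]
    rintro ⟨y, hy⟩
    obtain ⟨x, rfl⟩ := hT y
    exact ⟨⟨x, hy⟩, rfl⟩
  have h3 : Module.finrank F (LinearMap.ker R) = Module.finrank F (LinearMap.ker T) := by
    refine LinearEquiv.finrank_eq ?_
    refine LinearEquiv.ofBijective (LinearMap.codRestrict _
      ((LinearMap.ker (S * T)).subtype ∘ₗ (LinearMap.ker R).subtype) ?_) ⟨?_, ?_⟩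
    · rintro ⟨x, hx⟩
      exact congrArg Subtype.val (LinearMap.mem_ker.1 hx)
    · intro x y hxy
      have h5 := congrArg Subtype.val hxy
      apply Subtype.ext
      apply Subtype.ext
      exact h5
    · rintro ⟨x, hx⟩
      refine ⟨⟨⟨x, ?_⟩, ?_⟩, rfl⟩
      · rw [LinearMap.mem_ker, Module.End.mul_apply, LinearMap.mem_ker.1 hx, map_zero]
      · rw [LinearMap.mem_ker]
        exact Subtype.ext (LinearMap.mem_ker.1 hx)
  rw [← h1, h2, finrank_top, h3]

end kerlemma

variable {K : Type*} [Field K] {φ : RingAut K} {p : ℕ} {r : ℕ}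
  [Fact p.Prime] [Algebra (ZMod p) K] [IsAlgClosed K]

/-- dimension of the kernel of `f(σ)` -/
noncomputable def kap {σ : (Fin r → K) → (Fin r → K)} (hσ : IsMor φ σ) (f : (ZMod p)[X]) : ℕ :=
  Module.finrank (ZMod p) (LinearMap.ker (aeval (hσ.lin p) f))

theorem fad_core (hφ : ∀ x, φ x = x ^ p) {σ : (Fin r → K) → (Fin r → K)} (hσ : IsMor φ σ)
    (hconf : ∀ n, 1 ≤ n → Set.Finite {x | σ^[n] x = x}) :
    ∃ (c : ℕ) (t : ℕ → ℕ) (d : ℕ), 1 ≤ d ∧ d.Coprime p ∧ (∀ n, 1 ≤ n → t n = t (n.gcd d)) ∧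
      ∀ n, 1 ≤ n → Nat.card {x // σ^[n] x = x} * p ^ (t n * p ^ (padicValNat p n)) = p ^ (c * n) := by
  classical
  have hp := (Fact.out : p.Prime)
  have hchar : CharP K p := charP_of_injective_algebraMap (algebraMap (ZMod p) K).injective p
  obtain ⟨c, g, hg0, hmain⟩ := main_poly (p := p) hφ hσ
  have hiter : ∀ (n : ℕ) x, aeval (hσ.lin p) (X ^ n - 1 : (ZMod p)[X]) x = σ^[n] x - x := by
    intro n x
    simp only [map_sub, map_pow, aeval_X, map_one, LinearMap.sub_apply, Module.End.one_apply]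
    congr 1
    induction n generalizing x with
    | zero => rfl
    | succ n ih =>
      rw [pow_succ, Module.End.mul_apply, ih, IsMor.lin_apply, Function.iterate_succ_apply]
  have hfin : ∀ n, 1 ≤ n → ∀ f : (ZMod p)[X], f ∣ X ^ n - 1 → Set.Finite {x | evalMor hσ f x = 0} := by
    rintro n hn f ⟨h, hfh⟩
    refine (hconf n hn).subset ?_
    intro x hx
    rw [Set.mem_ofPred_eq] at hx ⊢
    have h1 := hiter n x
    rw [hfh, mul_comm, map_mul, Module.End.mul_apply] at h1
    change aeval (hσ.lin p) h (evalMor hσ f x) = _ at h1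
    rw [hx, map_zero] at h1
    exact (sub_eq_zero.1 h1.symm)
  have hne : ∀ n, 1 ≤ n → ∀ f : (ZMod p)[X], f ∣ X ^ n - 1 → f ≠ 0 := by
    rintro n hn f hf rfl
    rw [zero_dvd_iff] at hf
    exact (X_pow_sub_C_ne_zero (R := ZMod p) (by omega : 0 < n) 1) (by simpa using hf)
  have hmul : ∀ n, 1 ≤ n → ∀ f h : (ZMod p)[X], f * h ∣ X ^ n - 1 →
      kap hσ (f * h) = kap hσ f + kap hσ h := by
    intro n hn f h hfh
    have hh : h ∣ X ^ n - 1 := (dvd_mul_left _ _).trans hfh
    obtain ⟨h1, -, -, -⟩ := hmain h (hne n hn h hh) (hfin n hn h hh)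
    obtain ⟨-, h2, -, -⟩ := hmain (f * h) (hne n hn _ hfh) (hfin n hn _ hfh)
    unfold kap
    rw [map_mul] at h2 ⊢
    exact finrank_ker_mul _ _ h1
  have hkle : ∀ n, 1 ≤ n → ∀ f : (ZMod p)[X], f ∣ X ^ n - 1 → kap hσ f ≤ c * f.natDegree := by
    intro n hn f hf
    exact (hmain f (hne n hn f hf) (hfin n hn f hf)).2.2.1
  have hkeq : ∀ n, 1 ≤ n → ∀ f : (ZMod p)[X], f ∣ X ^ n - 1 → IsCoprime (toK K f) g →
      kap hσ f = c * f.natDegree := by
    intro n hn f hf
    exact (hmain f (hne n hn f hf) (hfin n hn f hf)).2.2.2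
  have hk1 : kap hσ (1 : (ZMod p)[X]) = 0 := by
    have := hmul 1 le_rfl 1 1 (by simp)
    rw [mul_one] at this
    omega
  have hcard : ∀ n, 1 ≤ n → Nat.card {x // σ^[n] x = x} = p ^ kap hσ (X ^ n - 1 : (ZMod p)[X]) := by
    intro n hn
    obtain ⟨-, h2, -, -⟩ := hmain (X ^ n - 1) (hne n hn _ dvd_rfl) (hfin n hn _ dvd_rfl)
    have h3 : Nat.card {x // σ^[n] x = x} =
        Nat.card (LinearMap.ker (aeval (hσ.lin p) (X ^ n - 1 : (ZMod p)[X]))) := by
      refine Nat.card_congr (Equiv.subtypeEquivRight fun x => ?_)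
      rw [LinearMap.mem_ker, hiter, sub_eq_zero]
    have h4 : Finite (LinearMap.ker (aeval (hσ.lin p) (X ^ n - 1 : (ZMod p)[X]))) :=
      Module.finite_of_finite (ZMod p)
    have := Fintype.ofFinite (LinearMap.ker (aeval (hσ.lin p) (X ^ n - 1 : (ZMod p)[X])))
    rw [h3, Nat.card_eq_fintype_card, Module.card_eq_pow_finrank (K := ZMod p), ZMod.card]
    rfl
  -- the exceptional polynomials
  let Z : Finset K := g.roots.toFinset.filter (fun α => IsOfFinOrder α)
  let 𝓕 : Finset (ZMod p)[X] := Z.image (fun α => minpoly (ZMod p) α)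
  have hint : ∀ α : K, IsOfFinOrder α → IsIntegral (ZMod p) α := by
    intro α hα
    obtain ⟨n, hn, hαn⟩ := isOfFinOrder_iff_pow_eq_one.1 hα
    refine ⟨X ^ n - 1, ?_, by simp [hαn]⟩
    simpa using monic_X_pow_sub_C (1 : ZMod p) (by omega : n ≠ 0)
  have hdvd : ∀ (α : K) (n : ℕ), minpoly (ZMod p) α ∣ X ^ n - 1 ↔ orderOf α ∣ n := by
    intro α n
    rw [minpoly.dvd_iff, orderOf_dvd_iff_pow_eq_one]
    simp [sub_eq_zero]
  have hordp : ∀ α : K, IsOfFinOrder α → (orderOf α).Coprime p := by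
    intro α hα
    rw [Nat.coprime_comm, Nat.Prime.coprime_iff_not_dvd hp]
    rintro ⟨k, hk⟩
    have hpos := hα.orderOf_pos
    have h1 : α ^ orderOf α = 1 := pow_orderOf_eq_one α
    rw [hk, mul_comm, pow_mul] at h1
    have h2 : (α ^ k - 1) ^ p = 0 := by
      rw [sub_pow_char, h1, one_pow, sub_self]
    have h3 : α ^ k = 1 := sub_eq_zero.1 (pow_eq_zero_iff hp.ne_zero |>.1 h2)
    have h4 := orderOf_dvd_of_pow_eq_one h3
    have hk0 : 0 < k := by
      rcases Nat.eq_zero_or_pos k with h | h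
      · rw [hk, h, mul_zero] at hpos; omega
      · exact h
    have h5 := Nat.le_of_dvd hk0 h4
    rw [hk] at h5
    have := hp.two_le
    nlinarith
  let t : ℕ → ℕ := fun n => ∑ f ∈ 𝓕, if f ∣ X ^ n - 1 then c * f.natDegree - kap hσ f else 0
  let d : ℕ := ∏ α ∈ Z, orderOf α
  have hZfin : ∀ α ∈ Z, IsOfFinOrder α := fun α hα => (Finset.mem_filter.1 hα).2
  have hd1 : 1 ≤ d := Finset.prod_pos fun α hα => (hZfin α hα).orderOf_pos
  have hdp : d.Coprime p := Nat.Coprime.prod_left fun α hα => hordp α (hZfin α hα)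
  have hgcd : ∀ n, t n = t (n.gcd d) := by
    intro n
    refine Finset.sum_congr rfl fun f hf => ?_
    obtain ⟨α, hα, rfl⟩ := Finset.mem_image.1 hf
    have h1 : (minpoly (ZMod p) α ∣ X ^ n - 1) ↔ (minpoly (ZMod p) α ∣ X ^ (n.gcd d) - 1) := by
      rw [hdvd, hdvd, Nat.dvd_gcd_iff]
      exact ⟨fun h => ⟨h, Finset.dvd_prod_of_mem _ hα⟩, fun h => h.1⟩
    simp only [h1]
  -- the main identity for n prime to p
  have hid : ∀ n, 1 ≤ n → n.Coprime p → kap hσ (X ^ n - 1 : (ZMod p)[X]) + t n = c * n := by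
    intro n hn hnp
    let 𝓕' := 𝓕.filter (fun f => f ∣ X ^ n - 1)
    have hirr : ∀ f ∈ 𝓕, Irreducible f ∧ f.Monic := by
      intro f hf
      obtain ⟨α, hα, rfl⟩ := Finset.mem_image.1 hf
      have h1 := hint α (hZfin α hα)
      exact ⟨minpoly.irreducible h1, minpoly.monic h1⟩
    have hcop : (𝓕' : Set (ZMod p)[X]).Pairwise (Function.onFun IsCoprime fun f => f) := by
      intro f hf h hh hfh
      have hf' := hirr f (Finset.mem_filter.1 hf).1
      have hh' := hirr h (Finset.mem_filter.1 hh).1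
      refine (hf'.1.coprime_iff_not_dvd).2 ?_
      intro hdiv
      exact hfh (eq_of_monic_of_associated hf'.2 hh'.2 (hf'.1.associated_of_dvd hh'.1 hdiv))
    have hPdvd : (∏ f ∈ 𝓕', f) ∣ (X ^ n - 1 : (ZMod p)[X]) :=
      Finset.prod_dvd_of_coprime hcop (fun f hf => (Finset.mem_filter.1 hf).2)
    obtain ⟨H, hH⟩ := hPdvd
    have hsqf : Squarefree (X ^ n - 1 : (ZMod p)[X]) := by
      apply Separable.squarefree
      rw [X_pow_sub_one_separable_iff]
      intro h
      rw [ZMod.natCast_eq_zero_iff] at h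
      exact (Nat.Prime.coprime_iff_not_dvd hp).1 hnp.symm h
    have hHdvd : H ∣ X ^ n - 1 := ⟨_, by rw [hH, mul_comm]⟩
    have hHcop : IsCoprime (toK K H) g := by
      rw [Polynomial.isCoprime_iff_aeval_ne_zero_of_isAlgClosed K K]
      intro α
      by_contra hcon
      push Not at hcon
      obtain ⟨hα1, hα2⟩ := hcon
      have hα1' : aeval α H = 0 := by
        rw [toK, coe_aeval_eq_eval, eval_map] at hα1
        rw [aeval_def]; exact hα1
      have hαn : α ^ n = 1 := by
        obtain ⟨Q, hQ⟩ := hHdvd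
        have h1 := congrArg (aeval α) hQ
        rw [map_mul, hα1', zero_mul] at h1
        simpa [sub_eq_zero] using h1
      have hαfin : IsOfFinOrder α := isOfFinOrder_iff_pow_eq_one.2 ⟨n, by omega, hαn⟩
      have hαZ : α ∈ Z := by
        refine Finset.mem_filter.2 ⟨?_, hαfin⟩
        rw [Multiset.mem_toFinset, mem_roots hg0, IsRoot.def]
        simpa using hα2
      have hmin : minpoly (ZMod p) α ∈ 𝓕' := by
        refine Finset.mem_filter.2 ⟨Finset.mem_image_of_mem _ hαZ, ?_⟩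
        rw [hdvd]; exact orderOf_dvd_of_pow_eq_one hαn
      have h1 : minpoly (ZMod p) α * minpoly (ZMod p) α ∣ (X ^ n - 1 : (ZMod p)[X]) := by
        rw [hH]
        exact mul_dvd_mul (Finset.dvd_prod_of_mem (fun f => f) hmin) (minpoly.dvd _ _ hα1')
      exact (minpoly.irreducible (hint α hαfin)).not_isUnit (hsqf _ h1)
    have hkH := hkeq n hn H hHdvd hHcop
    -- kappa of partial products
    have hprod : ∀ S ⊆ 𝓕', kap hσ (∏ f ∈ S, f) = ∑ f ∈ S, kap hσ f := by
      intro S
      induction S using Finset.induction_on with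
      | empty => intro _; simpa using hk1
      | insert f S hfS ih =>
        intro hS
        rw [Finset.prod_insert hfS, Finset.sum_insert hfS, hmul n hn, ih
          ((Finset.subset_insert _ _).trans hS)]
        rw [← Finset.prod_insert hfS (f := fun f => f), hH]
        exact (Finset.prod_dvd_prod_of_subset _ _ _ hS).trans (dvd_mul_right _ _)
    have hkX : kap hσ (X ^ n - 1 : (ZMod p)[X]) = (∑ f ∈ 𝓕', kap hσ f) + c * H.natDegree := by
      conv_lhs => rw [hH]
      rw [hmul n hn _ _ (by rw [← hH]), hprod 𝓕' (Finset.Subset.refl _), hkH]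
    have hdeg : n = (∑ f ∈ 𝓕', f.natDegree) + H.natDegree := by
      have h1 := congrArg natDegree hH
      have hmon : (∏ f ∈ 𝓕', f).Monic := monic_prod_of_monic _ _ fun f hf =>
        (hirr f (Finset.mem_filter.1 hf).1).2
      have hXn : (X ^ n - 1 : (ZMod p)[X]).natDegree = n := by
        simpa using natDegree_X_pow_sub_C (R := ZMod p) (n := n) (r := 1)
      have hH0 : H ≠ 0 := hne n hn H hHdvd
      rw [hXn, hmon.natDegree_mul' hH0, natDegree_prod_of_monic _ _ fun f hf =>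
        (hirr f (Finset.mem_filter.1 hf).1).2] at h1
      exact h1
    have ht : t n = ∑ f ∈ 𝓕', (c * f.natDegree - kap hσ f) := by
      simp only [t, 𝓕']
      rw [Finset.sum_filter]
    have hsum : (∑ f ∈ 𝓕', kap hσ f) + ∑ f ∈ 𝓕', (c * f.natDegree - kap hσ f) =
        c * ∑ f ∈ 𝓕', f.natDegree := by
      rw [← Finset.sum_add_distrib, Finset.mul_sum]
      refine Finset.sum_congr rfl fun f hf => ?_
      have := hkle n hn f (Finset.mem_filter.1 hf).2
      omega
    rw [hkX, ht]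
    have hdeg' : c * n = c * (∑ f ∈ 𝓕', f.natDegree) + c * H.natDegree := by
      conv_lhs => rw [hdeg]
      rw [mul_add]
    rw [hdeg', ← hsum]; ring
  refine ⟨c, t, d, hd1, hdp, fun n _ => hgcd n, fun n hn => ?_⟩
  -- write n = p^v * n'
  obtain ⟨v, n', hn', hnv⟩ := Nat.exists_eq_pow_mul_and_not_dvd (by omega : n ≠ 0) p hp.ne_one
  have hn'1 : 1 ≤ n' := by
    rcases Nat.eq_zero_or_pos n' with h | h
    · rw [h] at hn'; simp at hn'
    · exact h
  have hv : padicValNat p n = v := by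
    rw [hnv, padicValNat.mul (pow_ne_zero _ hp.ne_zero) (by omega), padicValNat.prime_pow,
      padicValNat.eq_zero_of_not_dvd hn', add_zero]
  have hn'p : n'.Coprime p := ((Nat.Prime.coprime_iff_not_dvd hp).2 hn').symm
  have hXn : (X ^ n - 1 : (ZMod p)[X]) = (X ^ n' - 1) ^ (p ^ v) := by
    rw [sub_pow_char_pow, one_pow, ← pow_mul, hnv, mul_comm]
  have hkpow : ∀ k, k ≤ p ^ v → kap hσ ((X ^ n' - 1 : (ZMod p)[X]) ^ k) = k * kap hσ (X ^ n' - 1 : (ZMod p)[X]) := by
    intro k
    induction k with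
    | zero => intro _; simpa using hk1
    | succ k ih =>
      intro hk
      rw [pow_succ, hmul n hn, ih (by omega)]
      · ring
      · rw [← pow_succ, hXn]; exact pow_dvd_pow _ hk
  have htn : t n = t n' := by
    rw [hgcd n, hgcd n', hnv]
    congr 1
    exact Nat.Coprime.gcd_mul_left_cancel n' (Nat.Coprime.pow_left v hdp.symm)
  rw [hcard n hn, hXn, hkpow _ le_rfl, hv, htn, ← pow_add]
  congr 1
  have h1 := hid n' hn'1 hn'p
  calc p ^ v * kap hσ (X ^ n' - 1 : (ZMod p)[X]) + t n' * p ^ v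
      = p ^ v * (kap hσ (X ^ n' - 1 : (ZMod p)[X]) + t n') := by ring
    _ = c * n := by rw [h1, hnv]; ring

end Pool.Agent.Lib.H65.Fad
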