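import Mathlib
import Pool.Agent.Lib.H63.ThreeSquares

/-!
Gaussian integers, the norm form `N x - q N y`, and the norm theorem: for a prime
`q ≡ 3 mod 4`, every nonzero integer is, up to a nonzero square, of the form `N x - q N y`.
-/

namespace Pool.Agent.Lib.H65.TE

abbrev GI := GaussianInt

/-- the norm of a Gaussian integer -/
def N (z : GI) : ℤ := z.re ^ 2 + z.im ^ 2

lemma N_def (z : GI) : N z = z.re ^ 2 + z.im ^ 2 := rfl

@[simp] lemma N_mul (x y : GI) : N (x * y) = N x * N y := by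
  simp [N]; ring

@[simp] lemma N_star (x : GI) : N (star x) = N x := by
  simp [N]

@[simp] lemma N_one : N 1 = 1 := by simp [N]

@[simp] lemma N_zero : N 0 = 0 := by simp [N]

@[simp] lemma N_neg (x : GI) : N (-x) = N x := by simp [N]

@[simp] lemma N_intCast (n : ℤ) : N (n : GI) = n ^ 2 := by simp [N]

lemma N_eq (z : GI) : ((N z : ℤ) : GI) = z * star z := by
  apply Zsqrtd.ext
  · rw [Zsqrtd.re_intCast]; simp [N]; ring
  · rw [Zsqrtd.im_intCast]; simp; ring

lemma N_nonneg (z : GI) : 0 ≤ N z := by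
  unfold N; positivity

lemma N_eq_zero {z : GI} (h : N z = 0) : z = 0 := by
  unfold N at h
  have h1 : z.re = 0 := by nlinarith [sq_nonneg z.re, sq_nonneg z.im]
  have h2 : z.im = 0 := by nlinarith [sq_nonneg z.re, sq_nonneg z.im]
  exact Zsqrtd.ext h1 h2

lemma N_pos {z : GI} (h : z ≠ 0) : 0 < N z := by
  rcases (N_nonneg z).lt_or_eq with h1 | h1
  · exact h1
  · exact absurd (N_eq_zero h1.symm) h

lemma inert {p : ℕ} (hp : p.Prime) (h4 : p % 4 = 3) {x y : ℤ}
    (hd : (p : ℤ) ∣ x ^ 2 + y ^ 2) : (p : ℤ) ∣ x ∧ (p : ℤ) ∣ y := by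
  have : Fact p.Prime := ⟨hp⟩
  have h1 : ((x : ZMod p)) ^ 2 = -((y : ZMod p)) ^ 2 := by
    have : ((x ^ 2 + y ^ 2 : ℤ) : ZMod p) = 0 := (ZMod.intCast_zmod_eq_zero_iff_dvd _ _).mpr hd
    push_cast at this
    linear_combination this
  have hy : (y : ZMod p) = 0 := by
    by_contra hy
    exact ZMod.mod_four_ne_three_of_sq_eq_neg_sq' hy h1 h4
  have hx : (x : ZMod p) = 0 := by
    by_contra hx
    exact ZMod.mod_four_ne_three_of_sq_eq_neg_sq hx h1 h4
  exact ⟨(ZMod.intCast_zmod_eq_zero_iff_dvd _ _).mp hx,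
    (ZMod.intCast_zmod_eq_zero_iff_dvd _ _).mp hy⟩

lemma inert_dvd {p : ℕ} (hp : p.Prime) (h4 : p % 4 = 3) {z : GI}
    (hd : (p : ℤ) ∣ N z) : (p : ℤ) ∣ z.re ∧ (p : ℤ) ∣ z.im :=
  inert hp h4 hd

/-- `q` (a prime `≡ 3 mod 4`) is not a ratio of norms -/
lemma N_ne_mul {q : ℕ} (hq : q.Prime) (h4 : q % 4 = 3) :
    ∀ (n : ℕ) (x y : GI), (N y).natAbs ≤ n → N x = q * N y → y = 0 := by
  intro n
  induction n with
  | zero =>
    intro x y hn h
    exact N_eq_zero (by simpa using hn)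
  | succ n ih =>
    intro x y hn h
    by_contra hy
    have hqpos : (0 : ℤ) < q := by exact_mod_cast hq.pos
    obtain ⟨⟨a, ha⟩, ⟨b, hb⟩⟩ := inert_dvd hq h4 (z := x) (by rw [h]; exact dvd_mul_right _ _)
    have h2 : N y = q * N ⟨a, b⟩ := by
      have : (q : ℤ) * N y = q * (q * N ⟨a, b⟩) := by
        rw [← h]; simp only [N, ha, hb]; ring
      exact mul_left_cancel₀ hqpos.ne' this
    obtain ⟨⟨c, hc⟩, ⟨d, hd⟩⟩ := inert_dvd hq h4 (z := y) (by rw [h2]; exact dvd_mul_right _ _)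
    have h3 : N ⟨a, b⟩ = q * N ⟨c, d⟩ := by
      have : (q : ℤ) * N ⟨a, b⟩ = q * (q * N ⟨c, d⟩) := by
        rw [← h2]; simp only [N, hc, hd]; ring
      exact mul_left_cancel₀ hqpos.ne' this
    have h4' : N y = q * (q * N ⟨c, d⟩) := by rw [h2, h3]
    have hyp := N_pos hy
    have hcd : (0 : ℤ) < N ⟨c, d⟩ := by
      by_contra hcon
      have := N_nonneg ⟨c, d⟩
      have h0 : N ⟨c, d⟩ = 0 := le_antisymm (not_lt.mp hcon) this
      rw [h0] at h4'
      simp at h4'
      omega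
    have hq2 : (2 : ℤ) ≤ q := by exact_mod_cast hq.two_le
    have hlt : N ⟨c, d⟩ < N y := by
      have e1 : 2 * N ⟨c, d⟩ ≤ q * N ⟨c, d⟩ := mul_le_mul_of_nonneg_right hq2 hcd.le
      have e2 : 2 * (q * N ⟨c, d⟩) ≤ q * (q * N ⟨c, d⟩) :=
        mul_le_mul_of_nonneg_right hq2 (by positivity)
      rw [h4']
      linarith
    have hle : (N ⟨c, d⟩).natAbs ≤ n := by omega
    have := ih ⟨a, b⟩ ⟨c, d⟩ hle h3
    rw [this] at hcd
    simp at hcd

lemma N_ne_mul' {q : ℕ} (hq : q.Prime) (h4 : q % 4 = 3) {x y : GI} (h : N x = q * N y) :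
    x = 0 ∧ y = 0 := by
  have hy := N_ne_mul hq h4 _ x y le_rfl h
  refine ⟨N_eq_zero ?_, hy⟩
  rw [h, hy]; simp

/-- norm group of the quaternion algebra `(-1, q)` over `ℚ`, restricted to nonzero integers -/
def NG (q : ℕ) (n : ℤ) : Prop := ∃ (x y : GI) (c : ℤ), c ≠ 0 ∧ N x - q * N y = n * c ^ 2

lemma NG.mul {q : ℕ} {m n : ℤ} (hm : NG q m) (hn : NG q n) : NG q (m * n) := by
  obtain ⟨x, y, c, hc, h⟩ := hm
  obtain ⟨z, w, d, hd, h'⟩ := hn
  refine ⟨x * z + q * y * star w, x * w + y * star z, c * d, mul_ne_zero hc hd, ?_⟩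
  have : (m * n) * (c * d) ^ 2 = (m * c ^ 2) * (n * d ^ 2) := by ring
  rw [this, ← h, ← h']
  simp only [N, Zsqrtd.re_add, Zsqrtd.im_add, Zsqrtd.re_mul, Zsqrtd.im_mul, Zsqrtd.re_star,
    Zsqrtd.im_star, Zsqrtd.re_natCast, Zsqrtd.im_natCast]
  ring

lemma NG.sq {q : ℕ} (n : ℤ) : NG q (n ^ 2) := ⟨(n : GI), 0, 1, one_ne_zero, by simp⟩

lemma NG.norm {q : ℕ} (z : GI) : NG q (N z) := ⟨z, 0, 1, one_ne_zero, by simp⟩

lemma NG.of_mul_sq {q : ℕ} {n m : ℤ} (hm : m ≠ 0) (h : NG q (n * m ^ 2)) : NG q n := by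
  obtain ⟨x, y, c, hc, h⟩ := h
  exact ⟨x, y, m * c, mul_ne_zero hm hc, by rw [h]; ring⟩

lemma NG.of_mul {q : ℕ} {n m : ℤ} (hm : m ≠ 0) (h : NG q (n * m)) (h' : NG q m) : NG q n :=
  NG.of_mul_sq hm (by simpa [pow_two, mul_assoc] using h.mul h')

lemma NG.neg_q (q : ℕ) : NG q (-(q : ℤ)) := ⟨0, 1, 1, one_ne_zero, by simp⟩

lemma NG.one (q : ℕ) : NG q 1 := ⟨1, 0, 1, one_ne_zero, by simp⟩

lemma NG.neg_one {q : ℕ} (hq : q.Prime) (h4 : q % 4 = 3) : NG q (-1) := by
  obtain ⟨x, y, z, h⟩ := Pool.Agent.Lib.H63.ThreeSquares.three_squares_two_mod_four (2 * q)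
    (by omega)
  have hz : z ≠ 0 := by
    rintro rfl
    have h1 : (q : ℤ) ∣ x ^ 2 + y ^ 2 := ⟨2, by push_cast at h; linarith⟩
    obtain ⟨⟨a, ha⟩, ⟨b, hb⟩⟩ := inert hq h4 h1
    have h2 : (q : ℤ) * 2 = q * (q * (a ^ 2 + b ^ 2)) := by
      push_cast at h
      rw [ha, hb] at h
      linarith
    have hqpos : (q : ℤ) ≠ 0 := by exact_mod_cast hq.ne_zero
    have h3 := mul_left_cancel₀ hqpos h2
    have h5 : (q : ℤ) ∣ 2 := ⟨_, h3⟩
    have h6 : q ∣ 2 := by exact_mod_cast h5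
    have h7 := Nat.le_of_dvd (by norm_num) h6
    have := hq.two_le
    omega
  refine ⟨⟨x, y⟩, ⟨1, 1⟩, z, hz, ?_⟩
  simp only [N]
  push_cast at h
  linarith

lemma NG.neg {q : ℕ} (hq : q.Prime) (h4 : q % 4 = 3) {n : ℤ} (h : NG q n) : NG q (-n) := by
  simpa using (NG.neg_one hq h4).mul h

lemma NG.self {q : ℕ} (hq : q.Prime) (h4 : q % 4 = 3) : NG q (q : ℤ) := by
  simpa using (NG.neg_q q).neg hq h4

lemma NG.of_not_three {q p : ℕ} (hp : p.Prime) (h4 : p % 4 ≠ 3) : NG q (p : ℤ) := by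
  have : Fact p.Prime := ⟨hp⟩
  obtain ⟨a, b, hab⟩ := Nat.Prime.sq_add_sq (p := p) h4
  have : (p : ℤ) = N ⟨a, b⟩ := by
    simp only [N]
    exact_mod_cast hab.symm
  rw [this]
  exact NG.norm _

/-- products of primes -/
lemma NG.of_primes {q : ℕ} {n : ℕ} (hn : n ≠ 0)
    (h : ∀ p : ℕ, p.Prime → p ∣ n → NG q (p : ℤ)) : NG q (n : ℤ) := by
  induction n using Nat.recOnMul with
  | zero => exact absurd rfl hn
  | one => exact_mod_cast NG.one q
  | prime p hp => exact h p hp dvd_rfl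
  | mul a b iha ihb =>
    have ha : a ≠ 0 := by rintro rfl; simp at hn
    have hb : b ≠ 0 := by rintro rfl; simp at hn
    push_cast
    exact (iha ha fun p hp hd => h p hp (hd.mul_right _)).mul
      (ihb hb fun p hp hd => h p hp (hd.mul_left _))

lemma exists_small_rep {q : ℕ} (hq : q.Prime) (h2 : q % 2 = 1) (p : ℤ) :
    ∃ z : GI, (q : ℤ) ∣ N z - p ∧ 2 * N z < q ^ 2 := by
  have : Fact q.Prime := ⟨hq⟩
  obtain ⟨a, b, hab⟩ := ZMod.sq_add_sq q (p : ZMod q)
  refine ⟨⟨a.valMinAbs, b.valMinAbs⟩, ?_, ?_⟩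
  · rw [← ZMod.intCast_zmod_eq_zero_iff_dvd]
    simp only [N, Int.cast_sub, Int.cast_add, Int.cast_pow, Int.cast_natCast]
    rw [ZMod.coe_valMinAbs, ZMod.coe_valMinAbs, hab, sub_self]
  · have key : ∀ c : ZMod q, 4 * (c.valMinAbs) ^ 2 < (q : ℤ) ^ 2 := by
      intro c
      have h1 := ZMod.natAbs_valMinAbs_le c
      have h3 : 2 * c.valMinAbs.natAbs < q := by omega
      have h4 : (2 * |c.valMinAbs| : ℤ) < q := by
        rw [Int.abs_eq_natAbs]; exact_mod_cast h3
      have h5 : (2 * |c.valMinAbs| : ℤ) ^ 2 < q ^ 2 := by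
        apply pow_lt_pow_left₀ h4 (by positivity) (by norm_num)
      rw [mul_pow, sq_abs] at h5
      linarith
    have ha := key a
    have hb := key b
    simp only [N]
    linarith

/-- Norm theorem for primes -/
lemma NG.prime_aux : ∀ (k : ℕ) (p q : ℕ), p.Prime → q.Prime → p % 4 = 3 → q % 4 = 3 →
    p ≠ q → max p q < k → NG q (p : ℤ) := by
  intro k
  induction k with
  | zero => intro p q _ _ _ _ _ h; simp at h
  | succ k ih =>
    -- first the case small, large: `q` is a norm for `p`, `p < q`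
    have first : ∀ (p q : ℕ), p.Prime → q.Prime → p % 4 = 3 → q % 4 = 3 → p < q → q < k + 1 →
        NG p (q : ℤ) := by
      intro p q hp hq hp4 hq4 hlt hk
      obtain ⟨z, ⟨n', hn'⟩, hz⟩ := exists_small_rep hq (by omega) (p : ℤ)
      have hqpos : (0 : ℤ) < q := by exact_mod_cast hq.pos
      have hp0 : (0 : ℤ) < p := by exact_mod_cast hp.pos
      have hpq : (p : ℤ) < q := by exact_mod_cast hlt
      have hn0 : n' ≠ 0 := by
        rintro rfl
        have h1 : N z = p * N 1 := by simp; linarith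
        have := (N_ne_mul' hp hp4 h1).2
        exact one_ne_zero this
      have habs : |n'| < q := by
        have h1 : |(q : ℤ) * n'| < q * q := by
          rw [← hn', abs_lt]
          have := N_nonneg z
          constructor <;> nlinarith
        rw [abs_mul, abs_of_pos hqpos] at h1
        exact lt_of_mul_lt_mul_left h1 hqpos.le
      have hnat : n'.natAbs < q := by
        have : (n'.natAbs : ℤ) < q := by rw [Int.natCast_natAbs]; exact habs
        exact_mod_cast this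
      have hNG : NG p (n'.natAbs : ℤ) := by
        apply NG.of_primes (by omega)
        intro l hl hdvd
        have hl' : l < q := lt_of_le_of_lt (Nat.le_of_dvd (by omega) hdvd) hnat
        by_cases h3 : l % 4 = 3
        · by_cases hlp : l = p
          · subst hlp; exact NG.self hp hp4
          · exact ih l p hl hp h3 hp4 hlp (by
              have : max l p < q := max_lt hl' hlt
              omega)
        · exact NG.of_not_three hl h3
      have hNG' : NG p n' := by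
        rcases Int.natAbs_eq n' with h | h
        · rw [h]; exact hNG
        · rw [h]; exact hNG.neg hp hp4
      have h3 : NG p ((q : ℤ) * n') := by
        rw [← hn']
        exact ⟨z, 1, 1, one_ne_zero, by simp⟩
      exact NG.of_mul hn0 h3 hNG'
    intro p q hp hq hp4 hq4 hne hmax
    rcases lt_or_gt_of_ne hne with hlt | hgt
    · have h := first p q hp hq hp4 hq4 hlt (by omega)
      obtain ⟨x, y, c, hc, h⟩ := h
      -- N x - p N y = q c^2
      have hy : N y ≠ 0 := by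
        intro h0
        have : N x = q * N (c : GI) := by simp; rw [h0] at h; linarith
        have := (N_ne_mul' hq hq4 this).2
        apply hc
        exact_mod_cast this
      apply NG.of_mul hy (m := N y) _ (NG.norm y)
      refine ⟨x, (c : GI), 1, one_ne_zero, ?_⟩
      simp
      linarith
    · exact first q p hq hp hq4 hp4 hgt (by omega)

/-- Norm theorem: for a prime `q ≡ 3 mod 4`, every nonzero integer is up to a nonzero square
represented by `N x - q N y`. -/
theorem NG.all {q : ℕ} (hq : q.Prime) (h4 : q % 4 = 3) {n : ℤ} (hn : n ≠ 0) : NG q n := by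
  have h : NG q (n.natAbs : ℤ) := by
    apply NG.of_primes (by omega)
    intro p hp _
    by_cases h3 : p % 4 = 3
    · by_cases hpq : p = q
      · subst hpq; exact NG.self hp h3
      · exact NG.prime_aux _ p q hp hq h3 h4 hpq (Nat.lt_succ_self _)
    · exact NG.of_not_three hp h3
  rcases Int.natAbs_eq n with h' | h'
  · rw [h']; exact h
  · rw [h']; exact h.neg hq h4

end Pool.Agent.Lib.H65.TE
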