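import Mathlib
import Pool.Agent.Lib.H65.TE1

/-!
Chinese remainder lemmas over finite sets of primes, and Lemma W.
-/

namespace Pool.Agent.Lib.H65.TE

/-- congruence of Gaussian integers modulo a rational integer -/
def Cg (M : ℤ) (x y : GI) : Prop := ∃ k : GI, x = y + (M : GI) * k

lemma Cg.refl (M : ℤ) (x : GI) : Cg M x x := ⟨0, by simp⟩

lemma Cg.symm {M : ℤ} {x y : GI} (h : Cg M x y) : Cg M y x := by
  obtain ⟨k, hk⟩ := h
  exact ⟨-k, by rw [hk]; ring⟩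

lemma Cg.trans {M : ℤ} {x y z : GI} (h : Cg M x y) (h' : Cg M y z) : Cg M x z := by
  obtain ⟨k, hk⟩ := h
  obtain ⟨l, hl⟩ := h'
  exact ⟨k + l, by rw [hk, hl]; ring⟩

lemma Cg.mono {M M' : ℤ} (hM : M' ∣ M) {x y : GI} (h : Cg M x y) : Cg M' x y := by
  obtain ⟨k, hk⟩ := h
  obtain ⟨c, hc⟩ := hM
  exact ⟨(c : GI) * k, by rw [hk, hc]; push_cast; ring⟩

lemma Cg.add {M : ℤ} {x y z w : GI} (h : Cg M x y) (h' : Cg M z w) : Cg M (x + z) (y + w) := by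
  obtain ⟨k, hk⟩ := h
  obtain ⟨l, hl⟩ := h'
  exact ⟨k + l, by rw [hk, hl]; ring⟩

lemma Cg.mul {M : ℤ} {x y z w : GI} (h : Cg M x y) (h' : Cg M z w) : Cg M (x * z) (y * w) := by
  obtain ⟨k, hk⟩ := h
  obtain ⟨l, hl⟩ := h'
  exact ⟨k * w + y * l + (M : GI) * k * l, by rw [hk, hl]; ring⟩

lemma Cg.star {M : ℤ} {x y : GI} (h : Cg M x y) : Cg M (star x) (star y) := by
  obtain ⟨k, hk⟩ := h
  exact ⟨Star.star k, by rw [hk]; simp [mul_comm]⟩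

lemma cg_iff {M : ℤ} {x y : GI} : Cg M x y ↔ M ∣ x.re - y.re ∧ M ∣ x.im - y.im := by
  constructor
  · rintro ⟨k, hk⟩
    refine ⟨⟨k.re, by rw [hk]; simp⟩, ⟨k.im, by rw [hk]; simp⟩⟩
  · rintro ⟨⟨a, ha⟩, ⟨b, hb⟩⟩
    refine ⟨⟨a, b⟩, ?_⟩
    apply Zsqrtd.ext
    · simp; linarith
    · simp; linarith

lemma Cg.N {M : ℤ} {x y : GI} (h : Cg M x y) : M ∣ TE.N x - TE.N y := by
  rw [cg_iff] at h
  obtain ⟨⟨a, ha⟩, ⟨b, hb⟩⟩ := h
  have h1 : x.re = y.re + M * a := by linarith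
  have h2 : x.im = y.im + M * b := by linarith
  refine ⟨2 * y.re * a + M * a ^ 2 + 2 * y.im * b + M * b ^ 2, ?_⟩
  simp only [TE.N, h1, h2]
  ring

lemma prime_coprime_iff {p : ℕ} (hp : p.Prime) {n : ℤ} : IsCoprime (p : ℤ) n ↔ ¬ (p : ℤ) ∣ n :=
  (Nat.prime_iff_prime_int.mp hp).irreducible.coprime_iff_not_dvd

lemma isCoprime_of_primes {a b : ℤ} (_ha : a ≠ 0 ∨ b ≠ 0)
    (h : ∀ p : ℕ, p.Prime → (p : ℤ) ∣ a → (p : ℤ) ∣ b → False) : IsCoprime a b := by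
  rw [Int.isCoprime_iff_gcd_eq_one]
  by_contra hne
  obtain ⟨p, hp, hd⟩ := Nat.exists_prime_and_dvd hne
  have h1 : (p : ℤ) ∣ a := (Int.natCast_dvd_natCast.mpr hd).trans (Int.gcd_dvd_left ..)
  have h2 : (p : ℤ) ∣ b := (Int.natCast_dvd_natCast.mpr hd).trans (Int.gcd_dvd_right ..)
  exact h p hp h1 h2

lemma prime_dvd_pow {p : ℕ} (hp : p.Prime) {n : ℤ} {k : ℕ} (h : (p : ℤ) ∣ n ^ k) : (p : ℤ) ∣ n :=
  (Nat.prime_iff_prime_int.mp hp).dvd_of_dvd_pow h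

lemma prime_dvd_mul {p : ℕ} (hp : p.Prime) {m n : ℤ} (h : (p : ℤ) ∣ m * n) :
    (p : ℤ) ∣ m ∨ (p : ℤ) ∣ n :=
  (Nat.prime_iff_prime_int.mp hp).dvd_or_dvd h

lemma prime_dvd_prod {p : ℕ} (hp : p.Prime) {F : Finset ℕ} (hF : ∀ r ∈ F, r.Prime)
    (h : (p : ℤ) ∣ ∏ r ∈ F, (r : ℤ)) : p ∈ F := by
  obtain ⟨r, hr, hd⟩ := ((Nat.prime_iff_prime_int.mp hp).dvd_finsetProd_iff _).mp h
  have : p ∣ r := by exact_mod_cast hd
  rwa [(Nat.prime_dvd_prime_iff_eq hp (hF r hr)).mp this]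

/-- Chinese remainder: prescribe a residue mod `E` and residues mod primes not dividing `E`. -/
lemma crt_mod (E : ℤ) (F : Finset ℕ) (hF : ∀ p ∈ F, p.Prime) (hE : ∀ p ∈ F, ¬ (p : ℤ) ∣ E)
    (a : ℕ → ℤ) (x : ℤ) : ∃ k : ℤ, E ∣ k - x ∧ ∀ p ∈ F, (p : ℤ) ∣ k - a p := by
  classical
  induction F using Finset.induction_on with
  | empty => exact ⟨x, by simp, by simp⟩
  | insert p F hpF ih =>
    obtain ⟨k, hk1, hk2⟩ := ih (fun r hr => hF r (Finset.mem_insert_of_mem hr))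
      (fun r hr => hE r (Finset.mem_insert_of_mem hr))
    have hp := hF p (Finset.mem_insert_self _ _)
    have hcop : IsCoprime (p : ℤ) (E * ∏ r ∈ F, (r : ℤ)) := by
      rw [prime_coprime_iff hp]
      intro hd
      rcases prime_dvd_mul hp hd with h | h
      · exact hE p (Finset.mem_insert_self _ _) h
      · exact hpF (prime_dvd_prod hp (fun r hr => hF r (Finset.mem_insert_of_mem hr)) h)
    obtain ⟨u, v, huv⟩ := hcop
    refine ⟨k + v * (E * ∏ r ∈ F, (r : ℤ)) * (a p - k), ?_, ?_⟩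
    · obtain ⟨c, hc⟩ := hk1
      exact ⟨c + v * (∏ r ∈ F, (r : ℤ)) * (a p - k), by linear_combination hc⟩
    · intro r hr
      rw [Finset.mem_insert] at hr
      rcases hr with rfl | hr
      · refine ⟨u * (k - a r), ?_⟩
        linear_combination (a r - k) * huv
      · obtain ⟨c, hc⟩ := hk2 r hr
        obtain ⟨d, hd⟩ : (r : ℤ) ∣ ∏ r ∈ F, (r : ℤ) := Finset.dvd_prod_of_mem _ hr
        refine ⟨c + v * E * d * (a p - k), ?_⟩
        rw [hd]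
        linear_combination hc

lemma crt_primes (F : Finset ℕ) (hF : ∀ p ∈ F, p.Prime) (a : ℕ → ℤ) :
    ∃ k : ℤ, ∀ p ∈ F, (p : ℤ) ∣ k - a p := by
  obtain ⟨k, -, hk⟩ := crt_mod 1 F hF (fun p hp hd => (Nat.prime_iff_prime_int.mp (hF p hp)).not_isUnit
    (isUnit_of_dvd_one hd)) a 0
  exact ⟨k, hk⟩

/-- Dirichlet's theorem plus two squares. -/
lemma exists_norm_prime (n : ℕ) {L a : ℤ} (hL : L ≠ 0) (h4 : 4 ∣ L) (ha4 : a % 4 = 1)
    (hc : IsCoprime a L) : ∃ (r : ℕ) (ρ : GI), n < r ∧ r.Prime ∧ r % 4 = 1 ∧ L ∣ (r : ℤ) - a ∧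
      N ρ = r := by
  have hL' : L.natAbs ≠ 0 := by omega
  have hc' : IsCoprime a (L.natAbs : ℤ) := by
    rcases Int.natAbs_eq L with h | h
    · rwa [← h]
    · rw [h] at hc
      exact (IsCoprime.neg_right_iff _ _).mp hc
  obtain ⟨r, hrn, hr, hmod⟩ := Nat.forall_exists_prime_gt_and_zmodEq n hL' hc'
  have hd : L ∣ (r : ℤ) - a := by
    have h1 : ((L.natAbs : ℕ) : ℤ) ∣ (r : ℤ) - a := (Int.modEq_iff_dvd.mp hmod.symm)
    exact Int.natAbs_dvd.mp h1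
  have hr4 : r % 4 = 1 := by
    have := h4.trans hd
    omega
  have : Fact r.Prime := ⟨hr⟩
  obtain ⟨x, y, hxy⟩ := Nat.Prime.sq_add_sq (p := r) (by omega)
  exact ⟨r, ⟨x, y⟩, hrn, hr, hr4, hd, by simp only [N]; exact_mod_cast hxy⟩

/-- Lemma W. -/
theorem lemmaW {q : ℕ} (hq : q.Prime) (h4 : q % 4 = 3) {M D a : ℤ} (hM : 0 < M) (hM4 : 4 ∣ M)
    (hDM : D ∣ M) (hD : D ≠ 0) (ha4 : a % 4 = 1) (haM : IsCoprime a M)
    (u₁ u₂ : GI) (hu : N u₁ - q * N u₂ = D ^ 2 * a) :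
    ∃ w₁ w₂ κ : GI, Cg M w₁ u₁ ∧ Cg M w₂ u₂ ∧ N w₁ - q * N w₂ = N κ ∧
      ∀ p : ℕ, p.Prime → ¬ (p : ℤ) ∣ M → ¬ ((p : ℤ) ∣ κ.re ∧ (p : ℤ) ∣ κ.im) := by
  classical
  have hqpos : (0 : ℤ) < q := by exact_mod_cast hq.pos
  set E : ℤ := D ^ 2 * M with hE
  have hE0 : 0 < E := by positivity
  -- make `u₂` nonzero
  obtain ⟨v₂, hv₂, hv0⟩ : ∃ v₂ : GI, Cg E v₂ u₂ ∧ v₂ ≠ 0 := by
    by_cases h : u₂ = 0
    · refine ⟨(E : GI), ⟨1, by rw [h]; simp⟩, ?_⟩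
      intro h0
      have : (E : GI) = ((0 : ℤ) : GI) := by simpa using h0
      have := congrArg Zsqrtd.re this
      simp at this
      omega
    · exact ⟨u₂, Cg.refl _ _, h⟩
  set Q : ℤ := q * N v₂ with hQ
  have hQ0 : 0 < Q := mul_pos hqpos (N_pos hv0)
  -- primes dividing `Q` but not `M`
  set F : Finset ℕ := Q.natAbs.primeFactors.filter (fun p => ¬ (p : ℤ) ∣ M) with hF
  have hFp : ∀ p ∈ F, p.Prime := fun p hp => Nat.prime_of_mem_primeFactors (Finset.mem_filter.mp hp).1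
  have hFE : ∀ p ∈ F, ¬ (p : ℤ) ∣ E := by
    intro p hp hd
    have hpM := (Finset.mem_filter.mp hp).2
    rcases prime_dvd_mul (hFp p hp) hd with h | h
    · exact hpM ((prime_dvd_pow (hFp p hp) h).trans hDM)
    · exact hpM h
  have hmemF : ∀ p : ℕ, p.Prime → (p : ℤ) ∣ Q → ¬ (p : ℤ) ∣ M → p ∈ F := by
    intro p hp hd hM
    rw [hF, Finset.mem_filter, Nat.mem_primeFactors]
    exact ⟨⟨hp, by exact Int.natCast_dvd.mp hd, by omega⟩, hM⟩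
  obtain ⟨x, hx1, hx2⟩ := crt_mod E F hFp hFE (fun _ => 1) u₁.re
  obtain ⟨y, hy1, hy2⟩ := crt_mod E F hFp hFE (fun _ => 0) u₁.im
  have hv₁ : Cg E ⟨x, y⟩ u₁ := cg_iff.mpr ⟨hx1, hy1⟩
  -- the new `a`
  obtain ⟨b, hb⟩ : ∃ b : ℤ, N ⟨x, y⟩ - Q = D ^ 2 * (a + M * b) := by
    obtain ⟨s, hs⟩ := hv₁.N
    obtain ⟨t, ht⟩ := hv₂.N
    refine ⟨s - q * t, ?_⟩
    rw [hQ]
    have e1 : N ⟨x, y⟩ = N u₁ + E * s := by linarith
    have e2 : N v₂ = N u₂ + E * t := by linarith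
    rw [e1, e2, hE]
    linear_combination hu
  set a' : ℤ := a + M * b with ha'
  have ha'4 : a' % 4 = 1 := by
    obtain ⟨c, hc⟩ := hM4
    rw [ha', hc]
    have : a + 4 * c * b = a + 4 * (c * b) := by ring
    rw [this]
    omega
  have ha'M : IsCoprime a' M := by
    rw [ha']
    exact (IsCoprime.add_mul_left_left_iff).mpr haM
  set L : ℤ := 4 * M * Q ^ 2 with hL
  have ha'L : IsCoprime a' L := by
    apply isCoprime_of_primes (Or.inr (by positivity))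
    intro p hp hpa hpL
    by_cases hpM : (p : ℤ) ∣ M
    · have := ha'M.isUnit_of_dvd' hpa hpM
      exact (Nat.prime_iff_prime_int.mp hp).not_isUnit this
    · have hpQ : (p : ℤ) ∣ Q := by
        rw [hL] at hpL
        rcases prime_dvd_mul hp hpL with h | h
        · rcases prime_dvd_mul hp h with h | h
          · exact absurd (h.trans hM4) hpM
          · exact absurd h hpM
        · exact prime_dvd_pow hp h
      have hpF := hmemF p hp hpQ hpM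
      obtain ⟨s, hs⟩ := hx2 p hpF
      obtain ⟨t, ht⟩ := hy2 p hpF
      obtain ⟨c, hc⟩ := hpa
      obtain ⟨d, hd⟩ := hpQ
      have h1 : (p : ℤ) ∣ 1 := by
        have ex : x = 1 + p * s := by linarith
        have ey : y = p * t := by linarith
        refine ⟨D ^ 2 * c + d - 2 * s - p * s ^ 2 - p * t ^ 2, ?_⟩
        rw [hc] at hb
        simp only [N] at hb
        rw [ex, ey, hd] at hb
        linear_combination hb
      exact (Nat.prime_iff_prime_int.mp hp).not_isUnit (isUnit_of_dvd_one h1)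
  obtain ⟨r, ρ, -, hr, hr4, hrL, hρ⟩ := exists_norm_prime 0 (L := L) (a := a') (by positivity)
    ⟨M * Q ^ 2, by rw [hL]; ring⟩ ha'4 ha'L
  obtain ⟨j, hj⟩ := hrL
  set κ₀ : GI := (D : GI) * ρ with hκ₀
  have hNκ₀ : N κ₀ = D ^ 2 * r := by rw [hκ₀, N_mul, N_intCast, hρ]
  set M₃ : ℤ := 2 * M * Q ^ 2 with hM₃
  have hM₃0 : 0 < M₃ := by positivity
  -- choose the imaginary part of the new `u₁`
  obtain ⟨y', hy'1, hy'2⟩ : ∃ y' : ℤ, M₃ ∣ y' - y ∧ y' - κ₀.im ≠ 0 := by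
    by_cases h : y - κ₀.im = 0
    · exact ⟨y + M₃, ⟨1, by ring⟩, by omega⟩
    · exact ⟨y, by simp, h⟩
  set F' : Finset ℕ := (y' - κ₀.im).natAbs.primeFactors.filter (fun p => ¬ (p : ℤ) ∣ M₃) with hF'
  have hF'p : ∀ p ∈ F', p.Prime :=
    fun p hp => Nat.prime_of_mem_primeFactors (Finset.mem_filter.mp hp).1
  obtain ⟨x', hx'1, hx'2⟩ := crt_mod M₃ F' hF'p (fun p hp => (Finset.mem_filter.mp hp).2)
    (fun _ => κ₀.re + 1) x
  set δ₁ : ℤ := x' - κ₀.re with hδ₁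
  set δ₂ : ℤ := y' - κ₀.im with hδ₂
  have hprim : ∀ p : ℕ, p.Prime → (p : ℤ) ∣ δ₁ → (p : ℤ) ∣ δ₂ → (p : ℤ) ∣ M₃ := by
    intro p hp h1 h2
    by_contra h3
    have hmem : p ∈ F' := by
      rw [hF', Finset.mem_filter, Nat.mem_primeFactors]
      exact ⟨⟨hp, Int.natCast_dvd.mp h2, by omega⟩, h3⟩
    have h4 := hx'2 p hmem
    have h5 : (p : ℤ) ∣ 1 := by
      have : (1 : ℤ) = (x' - κ₀.re) - (x' - (κ₀.re + 1)) := by ring
      rw [this]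
      exact dvd_sub h1 h4
    exact (Nat.prime_iff_prime_int.mp hp).not_isUnit (isUnit_of_dvd_one h5)
  -- `N κ₀ - nrm u''` is divisible by `M₃`
  obtain ⟨k₃, hk₃⟩ : M₃ ∣ N κ₀ - (x' ^ 2 + y' ^ 2 - Q) := by
    have e1 : M₃ ∣ N ⟨x', y'⟩ - N ⟨x, y⟩ := (cg_iff.mpr ⟨hx'1, hy'1⟩ : Cg M₃ ⟨x', y'⟩ ⟨x, y⟩).N
    have e2 : N κ₀ - (N ⟨x, y⟩ - Q) = M₃ * (2 * D ^ 2 * j) := by
      rw [hNκ₀, hb]
      have : (r : ℤ) = a' + L * j := by linarith
      rw [this, hL, hM₃]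
      ring
    have e3 : N κ₀ - (x' ^ 2 + y' ^ 2 - Q) = (N κ₀ - (N ⟨x, y⟩ - Q)) - (N ⟨x', y'⟩ - N ⟨x, y⟩) := by
      simp only [N]; ring
    rw [e3, e2]
    exact dvd_sub (dvd_mul_right _ _) e1
  -- the content of `δ`
  set g : ℤ := (Int.gcd δ₁ δ₂ : ℤ) with hg
  have hg0 : 0 < g := by
    rw [hg]
    exact_mod_cast Int.gcd_pos_of_ne_zero_right _ hy'2
  have hg1 : g ∣ δ₁ := Int.gcd_dvd_left ..
  have hg2 : g ∣ δ₂ := Int.gcd_dvd_right ..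
  have hgQ : g ∣ Q := by
    have e1 : g ∣ Q * (1 - 2 * M * Q * k₃) := by
      obtain ⟨d₁, hd₁⟩ := hg1
      obtain ⟨d₂, hd₂⟩ := hg2
      have ex : x' = κ₀.re + g * d₁ := by linarith
      have ey : y' = κ₀.im + g * d₂ := by linarith
      refine ⟨2 * κ₀.re * d₁ + g * d₁ ^ 2 + 2 * κ₀.im * d₂ + g * d₂ ^ 2, ?_⟩
      rw [ex, ey, hM₃] at hk₃
      simp only [N] at hk₃
      linear_combination hk₃
    have e2 : IsCoprime g (1 - 2 * M * Q * k₃) := by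
      apply isCoprime_of_primes (Or.inl hg0.ne')
      intro p hp hp1 hp2
      have h1 := hprim p hp (hp1.trans hg1) (hp1.trans hg2)
      have h3 : (p : ℤ) ∣ 2 * M * Q := by
        rw [hM₃] at h1
        rcases prime_dvd_mul hp h1 with h | h
        · exact h.mul_right _
        · exact (prime_dvd_pow hp h).mul_left _
      have h4 : (p : ℤ) ∣ 1 := by
        have : (1 : ℤ) = (1 - 2 * M * Q * k₃) + 2 * M * Q * k₃ := by ring
        rw [this]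
        exact dvd_add hp2 (h3.mul_right _)
      exact (Nat.prime_iff_prime_int.mp hp).not_isUnit (isUnit_of_dvd_one h4)
    exact e2.dvd_of_dvd_mul_right e1
  obtain ⟨k₄, hk₄⟩ : 2 * M * g ∣ N κ₀ - (x' ^ 2 + y' ^ 2 - Q) := by
    rw [hk₃, hM₃]
    obtain ⟨c, hc⟩ := hgQ
    exact ⟨c * Q * k₃, by rw [hc]; ring⟩
  set s₁ : ℤ := Int.gcdA δ₁ δ₂ with hs₁
  set s₂ : ℤ := Int.gcdB δ₁ δ₂ with hs₂
  have hbez : g = δ₁ * s₁ + δ₂ * s₂ := Int.gcd_eq_gcd_ab δ₁ δ₂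
  obtain ⟨d₁, hd₁⟩ := hg1
  obtain ⟨d₂, hd₂⟩ := hg2
  have hbez' : d₁ * s₁ + d₂ * s₂ = 1 := by
    have : g * (d₁ * s₁ + d₂ * s₂) = g * 1 := by
      have e : g * (d₁ * s₁ + d₂ * s₂) = (g * d₁) * s₁ + (g * d₂) * s₂ := by ring
      rw [e, ← hd₁, ← hd₂, ← hbez, mul_one]
    exact mul_left_cancel₀ hg0.ne' this
  set X : ℤ := κ₀.re + M * (k₄ * s₁) with hX
  set Y : ℤ := κ₀.im + M * (k₄ * s₂) with hY
  have hnormeq : 2 * (X * δ₁ + Y * δ₂) = Q - (δ₁ ^ 2 + δ₂ ^ 2) := by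
    have e1 : 2 * M * (k₄ * s₁ * δ₁ + k₄ * s₂ * δ₂) = 2 * M * g * k₄ := by
      rw [hbez]; ring
    have ex : x' = κ₀.re + δ₁ := by rw [hδ₁]; ring
    have ey : y' = κ₀.im + δ₂ := by rw [hδ₂]; ring
    rw [← hk₄, ex, ey] at e1
    simp only [N] at e1
    rw [hX, hY]
    linear_combination e1
  set Δ : ℤ := X * d₁ + Y * d₂ with hΔ
  have hΔ0 : Δ ≠ 0 := by
    intro h0
    have e1 : 2 * (X * δ₁ + Y * δ₂) = 0 := by
      rw [hd₁, hd₂]
      have : 2 * (X * (g * d₁) + Y * (g * d₂)) = 2 * g * Δ := by rw [hΔ]; ring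
      rw [this, h0, mul_zero]
    have e2 : N ⟨δ₁, δ₂⟩ = q * N v₂ := by
      simp only [N] at *
      linarith
    exact hv0 (N_ne_mul' hq h4 e2).2
  set F₂ : Finset ℕ := Δ.natAbs.primeFactors.filter (fun p => ¬ (p : ℤ) ∣ M) with hF₂
  have hF₂p : ∀ p ∈ F₂, p.Prime :=
    fun p hp => Nat.prime_of_mem_primeFactors (Finset.mem_filter.mp hp).1
  have hchoice : ∀ p ∈ F₂, ∃ k : ℤ,
      ¬ ((p : ℤ) ∣ X - k * M * d₂ ∧ (p : ℤ) ∣ Y + k * M * d₁) := by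
    intro p hp
    by_contra hcon
    push Not at hcon
    have hpp := hF₂p p hp
    have hpM := (Finset.mem_filter.mp hp).2
    have h0 := hcon 0
    have h1 := hcon 1
    have e1 : (p : ℤ) ∣ M * d₂ := by
      have : M * d₂ = (X - 0 * M * d₂) - (X - 1 * M * d₂) := by ring
      rw [this]; exact dvd_sub h0.1 h1.1
    have e2 : (p : ℤ) ∣ M * d₁ := by
      have : M * d₁ = (Y + 1 * M * d₁) - (Y + 0 * M * d₁) := by ring
      rw [this]; exact dvd_sub h1.2 h0.2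
    have e3 := (prime_dvd_mul hpp e1).resolve_left hpM
    have e4 := (prime_dvd_mul hpp e2).resolve_left hpM
    have e5 : (p : ℤ) ∣ 1 := by
      rw [← hbez']
      exact dvd_add (e4.mul_right _) (e3.mul_right _)
    exact (Nat.prime_iff_prime_int.mp hpp).not_isUnit (isUnit_of_dvd_one e5)
  choose! kf hkf using hchoice
  obtain ⟨k, hk⟩ := crt_primes F₂ hF₂p kf
  refine ⟨⟨x' + M * (k₄ * s₁ - k * d₂), y' + M * (k₄ * s₂ + k * d₁)⟩, v₂,
    ⟨X - k * M * d₂, Y + k * M * d₁⟩, ?_, ?_, ?_, ?_⟩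
  · rw [cg_iff]
    obtain ⟨s, hs⟩ := hx1
    obtain ⟨t, ht⟩ := hy1
    obtain ⟨s', hs'⟩ := hx'1
    obtain ⟨t', ht'⟩ := hy'1
    constructor
    · refine ⟨k₄ * s₁ - k * d₂ + 2 * Q ^ 2 * s' + D ^ 2 * s, ?_⟩
      simp only
      rw [hM₃] at hs'
      rw [hE] at hs
      linear_combination hs' + hs
    · refine ⟨k₄ * s₂ + k * d₁ + 2 * Q ^ 2 * t' + D ^ 2 * t, ?_⟩
      simp only
      rw [hM₃] at ht'
      rw [hE] at ht
      linear_combination ht' + ht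
  · exact hv₂.mono ⟨D ^ 2, by rw [hE]; ring⟩
  · have ex : x' = κ₀.re + δ₁ := by rw [hδ₁]; ring
    have ey : y' = κ₀.im + δ₂ := by rw [hδ₂]; ring
    simp only [N] at *
    rw [← hQ]
    have e1 : x' + M * (k₄ * s₁ - k * d₂) = (X - k * M * d₂) + δ₁ := by rw [ex, hX]; ring
    have e2 : y' + M * (k₄ * s₂ + k * d₁) = (Y + k * M * d₁) + δ₂ := by rw [ey, hY]; ring
    rw [e1, e2]
    have e3 : δ₁ * d₂ = δ₂ * d₁ := by rw [hd₁, hd₂]; ring
    linear_combination hnormeq - 2 * k * M * e3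
  · intro p hp hpM hdv
    simp only at hdv
    have e1 : (p : ℤ) ∣ Δ := by
      have : Δ = (X - k * M * d₂) * d₁ + (Y + k * M * d₁) * d₂ := by rw [hΔ]; ring
      rw [this]
      exact dvd_add (hdv.1.mul_right _) (hdv.2.mul_right _)
    have hmem : p ∈ F₂ := by
      rw [hF₂, Finset.mem_filter, Nat.mem_primeFactors]
      exact ⟨⟨hp, Int.natCast_dvd.mp e1, by omega⟩, hpM⟩
    obtain ⟨c, hc⟩ := hk p hmem
    apply hkf p hmem
    have ek : k = kf p + p * c := by linarith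
    constructor
    · have : X - kf p * M * d₂ = (X - k * M * d₂) + p * (c * M * d₂) := by rw [ek]; ring
      rw [this]
      exact dvd_add hdv.1 (dvd_mul_right _ _)
    · have : Y + kf p * M * d₁ = (Y + k * M * d₁) - p * (c * M * d₁) := by rw [ek]; ring
      rw [this]
      exact dvd_sub hdv.2 (dvd_mul_right _ _)

end Pool.Agent.Lib.H65.TE
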