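import Mathlib
import Pool.Agent.Lib.H65.TE2

/-!
Step T1: a denominator with a bad prime (`2` or `p ≡ 3 mod 4`).
-/

namespace Pool.Agent.Lib.H65.TE

lemma star_int (n : ℤ) : star (n : GI) = (n : GI) := by
  apply Zsqrtd.ext
  · simp
  · simp

lemma star_nat (n : ℕ) : star (n : GI) = (n : GI) := by
  apply Zsqrtd.ext
  · simp
  · simp

lemma bad_cases {p : ℕ} (hp : p.Prime) (h : p % 4 ≠ 1) : p = 2 ∨ p % 4 = 3 := by
  rcases hp.eq_two_or_odd with h2 | h2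
  · exact Or.inl h2
  · right; omega

/-- the ternary form `N A - q S^2` -/
def fq (q : ℕ) (A : GI) (S : ℤ) : ℤ := N A - q * S ^ 2

lemma fq_congr {q : ℕ} {E : ℤ} {A A' : GI} {S S' : ℤ} (hA : Cg E A' A) (hS : E ∣ S' - S) :
    E ∣ fq q A' S' - fq q A S := by
  obtain ⟨a, ha⟩ := hA.N
  obtain ⟨b, hb⟩ := hS
  have h1 : S' = S + E * b := by linarith
  refine ⟨a - q * (2 * S * b + E * b ^ 2), ?_⟩
  simp only [fq]
  rw [h1]
  linear_combination ha

/-- adjusting `A` modulo primes not dividing the modulus -/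
lemma adjust (q : ℕ) (E : ℤ) (F : Finset ℕ) (hF : ∀ p ∈ F, p.Prime)
    (hE : ∀ p ∈ F, ¬ (p : ℤ) ∣ E) (A : GI) (S : ℤ) :
    ∃ A' : GI, Cg E A' A ∧ ∀ p ∈ F, ¬ (p : ℤ) ∣ fq q A' S := by
  have hch : ∀ p ∈ F, ∃ a : ℤ, ¬ (p : ℤ) ∣ a ^ 2 - q * S ^ 2 := by
    intro p hp
    by_contra hcon
    push Not at hcon
    have h0 := hcon 0
    have h1 := hcon 1
    have : (p : ℤ) ∣ 1 := by
      have e : (1 : ℤ) = (1 ^ 2 - q * S ^ 2) - (0 ^ 2 - q * S ^ 2) := by ring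
      rw [e]; exact dvd_sub h1 h0
    exact (Nat.prime_iff_prime_int.mp (hF p hp)).not_isUnit (isUnit_of_dvd_one this)
  choose! a ha using hch
  obtain ⟨x, hx1, hx2⟩ := crt_mod E F hF hE a A.re
  obtain ⟨y, hy1, hy2⟩ := crt_mod E F hF hE (fun _ => 0) A.im
  refine ⟨⟨x, y⟩, cg_iff.mpr ⟨hx1, hy1⟩, ?_⟩
  intro p hp hd
  apply ha p hp
  obtain ⟨s, hs⟩ := hx2 p hp
  obtain ⟨t, ht⟩ := hy2 p hp
  have ex : x = a p + p * s := by linarith
  have ey : y = p * t := by linarith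
  have e : a p ^ 2 - q * S ^ 2 = fq q ⟨x, y⟩ S - p * (2 * a p * s + p * s ^ 2 + p * t ^ 2) := by
    simp only [fq, N]
    rw [ex, ey]; ring
  rw [e]
  exact dvd_sub hd (dvd_mul_right _ _)

lemma split_aux (M : ℤ) : ∀ (k : ℕ) (n : ℤ), n ≠ 0 → n.natAbs ≤ k →
    ∃ P a : ℤ, n = P * a ∧ IsCoprime a M ∧ ∀ p : ℕ, p.Prime → (p : ℤ) ∣ P → (p : ℤ) ∣ M := by
  intro k
  induction k with
  | zero => intro n hn hk; omega
  | succ k ih =>
    intro n hn hk
    by_cases hc : IsCoprime n M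
    · exact ⟨1, n, by ring, hc, fun p hp hd => absurd (isUnit_of_dvd_one hd)
        (Nat.prime_iff_prime_int.mp hp).not_isUnit⟩
    · rw [Int.isCoprime_iff_gcd_eq_one] at hc
      obtain ⟨p, hp, hd⟩ := Nat.exists_prime_and_dvd hc
      have h1 : (p : ℤ) ∣ n := (Int.natCast_dvd_natCast.mpr hd).trans (Int.gcd_dvd_left ..)
      have h2 : (p : ℤ) ∣ M := (Int.natCast_dvd_natCast.mpr hd).trans (Int.gcd_dvd_right ..)
      obtain ⟨n', hn'⟩ := h1
      have hn0 : n' ≠ 0 := by rintro rfl; simp at hn'; exact hn hn'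
      have hlt : n'.natAbs < n.natAbs := by
        rw [hn', Int.natAbs_mul, Int.natAbs_natCast]
        have := hp.two_le
        have h3 : 0 < n'.natAbs := by omega
        nlinarith
      obtain ⟨P, a, h3, h4, h5⟩ := ih n' hn0 (by omega)
      refine ⟨p * P, a, by rw [hn', h3]; ring, h4, ?_⟩
      intro r hr hrd
      rcases prime_dvd_mul hr hrd with h | h
      · have : r = p := (Nat.prime_dvd_prime_iff_eq hr hp).mp (by exact_mod_cast h)
        rw [this]; exact h2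
      · exact h5 r hr h

/-- splitting off the part of `n` supported on the primes of `2 M`, with cofactor `≡ 1 mod 4` -/
lemma split_one {M n : ℤ} (hn : n ≠ 0) :
    ∃ P a : ℤ, n = P * a ∧ IsCoprime a (2 * M) ∧ a % 4 = 1 ∧
      ∀ p : ℕ, p.Prime → (p : ℤ) ∣ P → (p : ℤ) ∣ 2 * M := by
  obtain ⟨P, a, h1, h2, h3⟩ := split_aux (2 * M) n.natAbs n hn le_rfl
  have hodd : a % 2 = 1 := by
    by_contra h
    have h4 : (2 : ℤ) ∣ a := by omega
    have := h2.isUnit_of_dvd' h4 (dvd_mul_right _ _)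
    rw [Int.isUnit_iff] at this
    omega
  by_cases h : a % 4 = 1
  · exact ⟨P, a, h1, h2, h, h3⟩
  · refine ⟨-P, -a, by rw [h1]; ring, h2.neg_left, by omega, ?_⟩
    intro p hp hd
    exact h3 p hp ((dvd_neg).mp hd)

/-- main part of step T1 -/
theorem T1core {q : ℕ} (hq : q.Prime) (h4 : q % 4 = 3) {m : ℤ} (hm : 0 < m) (A : GI) (S : ℤ)
    (hS : S ≠ 0) (hf : fq q A S ≠ 0) (hodd : ¬ (2 : ℤ) ∣ m → ¬ (2 : ℤ) ∣ fq q A S) :
    ∃ (A' : GI) (S' : ℤ), Cg m A' A ∧ m ∣ S' - S ∧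
      (∀ p : ℕ, p.Prime → p % 4 ≠ 1 → ¬ (p : ℤ) ∣ m → ¬ (p : ℤ) ∣ fq q A' S') ∧
      (∀ p : ℕ, p.Prime → p % 4 ≠ 1 → ∀ k : ℕ, (p : ℤ) ^ k ∣ m ^ 2 →
        (p : ℤ) ^ k ∣ fq q A' S' → (p : ℤ) ^ k ∣ fq q A S) := by
  classical
  obtain ⟨P, a₁, hP, ha₁m, ha₁4, hPp⟩ := split_one (M := m) hf
  have hP0 : P ≠ 0 := by rintro rfl; simp at hP; exact hf hP
  obtain ⟨h₁, h₂, c, hc0, hh⟩ := NG.all hq h4 hP0
  set E : ℤ := 4 * m ^ 2 * P with hE
  have hE0 : E ≠ 0 := by positivity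
  set F : Finset ℕ := (S * c).natAbs.primeFactors.filter (fun p => ¬ (p : ℤ) ∣ E) with hF
  have hFp : ∀ p ∈ F, p.Prime :=
    fun p hp => Nat.prime_of_mem_primeFactors (Finset.mem_filter.mp hp).1
  have hSc : S * c ≠ 0 := mul_ne_zero hS hc0
  obtain ⟨A₂, hA₂, hA₂F⟩ := adjust q E F hFp (fun p hp => (Finset.mem_filter.mp hp).2) A S
  -- primes dividing `S c` but not `2 m` do not divide `n₀`
  have hgood : ∀ p : ℕ, p.Prime → ¬ (p : ℤ) ∣ 2 * m → (p : ℤ) ∣ S * c →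
      ¬ (p : ℤ) ∣ fq q A₂ S := by
    intro p hp h1 h2
    apply hA₂F
    rw [hF, Finset.mem_filter, Nat.mem_primeFactors]
    refine ⟨⟨hp, Int.natCast_dvd.mp h2, by simpa using hSc⟩, ?_⟩
    intro hd
    rw [hE] at hd
    rcases prime_dvd_mul hp hd with h | h
    · rcases prime_dvd_mul hp h with h | h
      · have h5 : (p : ℤ) ∣ 2 := prime_dvd_pow hp (k := 2) (by norm_num; exact h)
        exact h1 (h5.mul_right _)
      · exact h1 ((prime_dvd_pow hp h).mul_left _)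
    · exact h1 (hPp p hp h)
  obtain ⟨k₀, hk₀⟩ : E ∣ fq q A₂ S - fq q A S := fq_congr hA₂ (by simp)
  set a : ℤ := a₁ + 4 * m ^ 2 * k₀ with ha
  have hn₀ : fq q A₂ S = P * a := by
    have : fq q A₂ S = fq q A S + E * k₀ := by linarith
    rw [this, hP, hE, ha]; ring
  have ha4 : a % 4 = 1 := by
    rw [ha]
    have : a₁ + 4 * m ^ 2 * k₀ = a₁ + 4 * (m ^ 2 * k₀) := by ring
    rw [this]; omega
  have ha2m : IsCoprime a (2 * m) := by
    have : a = a₁ + 2 * m * (2 * m * k₀) := by rw [ha]; ring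
    rw [this]
    exact (IsCoprime.add_mul_left_left_iff).mpr ha₁m
  set M₁ : ℤ := 4 * m ^ 2 * P ^ 2 * S ^ 2 * c ^ 2 with hM₁
  have hM₁0 : 0 < M₁ := by positivity
  set R : ℤ := P * c ^ 2 with hR
  have hR0 : R ≠ 0 := by positivity
  set M : ℤ := M₁ * R ^ 2 with hM
  have hM0 : 0 < M := by positivity
  -- primes dividing `M` divide `2 m` or `S c`
  have hMp : ∀ p : ℕ, p.Prime → (p : ℤ) ∣ M → (p : ℤ) ∣ 2 * m ∨ (p : ℤ) ∣ S * c := by
    intro p hp hd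
    have h1 : (p : ℤ) ∣ (2 * m) * P * (S * c) * (R ^ 2 * ((2 * m) * P * (S * c))) := by
      have : (2 * m) * P * (S * c) * (R ^ 2 * ((2 * m) * P * (S * c))) = M := by
        rw [hM, hM₁]; ring
      rw [this]; exact hd
    have key : (p : ℤ) ∣ (2 * m) * P * (S * c) → (p : ℤ) ∣ 2 * m ∨ (p : ℤ) ∣ S * c := by
      intro h
      rcases prime_dvd_mul hp h with h | h
      · rcases prime_dvd_mul hp h with h | h
        · exact Or.inl h
        · exact Or.inl (hPp p hp h)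
      · exact Or.inr h
    rcases prime_dvd_mul hp h1 with h | h
    · exact key h
    · rcases prime_dvd_mul hp h with h | h
      · have h := prime_dvd_pow hp h
        rcases prime_dvd_mul hp h with h | h
        · exact Or.inl (hPp p hp h)
        · exact Or.inr ((prime_dvd_pow hp h).mul_left _)
      · exact key h
  have haM : IsCoprime a M := by
    apply isCoprime_of_primes (Or.inr hM0.ne')
    intro p hp hpa hpM
    by_cases h2m : (p : ℤ) ∣ 2 * m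
    · exact (Nat.prime_iff_prime_int.mp hp).not_isUnit (ha2m.isUnit_of_dvd' hpa h2m)
    · rcases hMp p hp hpM with h | h
      · exact h2m h
      · apply hgood p hp h2m h
        rw [hn₀]; exact hpa.mul_left _
  -- Lemma W
  obtain ⟨w₁, w₂, κ, hw₁, hw₂, hw, hκ⟩ := lemmaW hq h4 (M := M) (D := P * c) (a := a) hM0
    ⟨m ^ 2 * P ^ 2 * S ^ 2 * c ^ 2 * R ^ 2, by rw [hM, hM₁]; ring⟩
    ⟨4 * m ^ 2 * P * S ^ 2 * c * R ^ 2, by rw [hM, hM₁]; ring⟩ (mul_ne_zero hP0 hc0) ha4 haM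
    (star h₁ * A₂ - (q : GI) * h₂ * (S : GI)) (star h₁ * (S : GI) - h₂ * star A₂) (by
      have e : N (star h₁ * A₂ - (q : GI) * h₂ * (S : GI)) -
          q * N (star h₁ * (S : GI) - h₂ * star A₂) = (N h₁ - q * N h₂) * fq q A₂ S := by
        simp only [N, fq, Zsqrtd.re_sub, Zsqrtd.im_sub,
          Zsqrtd.re_mul, Zsqrtd.im_mul, Zsqrtd.re_star, Zsqrtd.im_star, Zsqrtd.re_natCast,
          Zsqrtd.im_natCast, Zsqrtd.re_intCast, Zsqrtd.im_intCast]
        ring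
      rw [e, hh, hn₀]; ring)
  -- `z = h w / R`
  have e : h₁ * star h₁ - (q : GI) * (h₂ * star h₂) = (R : GI) := by
    rw [← N_eq, ← N_eq, ← hh]; push_cast; ring
  obtain ⟨k, hk⟩ := hw₁
  obtain ⟨l, hl⟩ := hw₂
  obtain ⟨z₁, hz₁, hz₁'⟩ : ∃ z₁ : GI, Cg M₁ z₁ A₂ ∧
      (R : GI) * z₁ = h₁ * w₁ + (q : GI) * h₂ * star w₂ := by
    refine ⟨A₂ + (M₁ : GI) * ((R : GI) * (h₁ * k + (q : GI) * h₂ * star l)), ⟨_, rfl⟩, ?_⟩
    rw [hk, hl, hM]
    simp only [star_add, star_sub, star_mul, star_star, star_int, Int.cast_mul,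
      Int.cast_pow, star_pow]
    linear_combination (-A₂) * e
  obtain ⟨z₂, ⟨v, hv⟩, hz₂'⟩ : ∃ z₂ : GI, (∃ v : GI, z₂ = (S : GI) + ((M₁ * R : ℤ) : GI) * v) ∧
      (R : GI) * z₂ = h₁ * w₂ + h₂ * star w₁ := by
    refine ⟨(S : GI) + ((M₁ * R : ℤ) : GI) * (h₁ * l + h₂ * star k), ⟨_, rfl⟩, ?_⟩
    rw [hk, hl, hM]
    simp only [star_add, star_sub, star_mul, star_star, star_int, star_nat, Int.cast_mul,
      Int.cast_pow, star_pow]
    linear_combination (-(S : GI)) * e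
  have hnz : R * (N z₁ - q * N z₂) = N κ := by
    have e1 : R * (R * (N z₁ - q * N z₂)) = R * N κ := by
      have e2 : R * (R * (N z₁ - q * N z₂)) = N ((R : GI) * z₁) - q * N ((R : GI) * z₂) := by
        simp only [N_mul, N_intCast]; ring
      rw [e2, hz₁', hz₂', ← hw, ← hh]
      simp only [N, Zsqrtd.re_add, Zsqrtd.im_add,
        Zsqrtd.re_mul, Zsqrtd.im_mul, Zsqrtd.re_star, Zsqrtd.im_star, Zsqrtd.re_natCast,
        Zsqrtd.im_natCast, Zsqrtd.re_intCast, Zsqrtd.im_intCast]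
      ring
    exact mul_left_cancel₀ hR0 e1
  -- congruence of the norm of `z`
  obtain ⟨kz, hkz⟩ : M₁ ∣ (N z₁ - q * N z₂) - fq q A₂ S := by
    obtain ⟨b₁, hb₁⟩ := hz₁.N
    obtain ⟨b₂, hb₂⟩ : M₁ ∣ N z₂ - N (S : GI) := Cg.N ⟨(R : GI) * v, by rw [hv]; push_cast; ring⟩
    refine ⟨b₁ - q * b₂, ?_⟩
    rw [N_intCast] at hb₂
    simp only [fq]
    linear_combination hb₁ - q * hb₂
  -- `ζ = z₂ / S`
  set ζ : GI := 1 + ((4 * m ^ 2 : ℤ) : GI) * (((P ^ 2 * S * c ^ 2 * R : ℤ) : GI) * v) with hζ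
  have hζz : z₂ = (S : GI) * ζ := by
    rw [hv, hζ, hM₁]; push_cast; ring
  have hζre : (4 * m ^ 2 : ℤ) ∣ ζ.re - 1 ∧ (4 * m ^ 2 : ℤ) ∣ ζ.im := by
    have h := cg_iff.mp (⟨_, hζ⟩ : Cg (4 * m ^ 2) ζ 1)
    simpa using h
  have hζ0 : ζ ≠ 0 := by
    intro h0
    obtain ⟨⟨b, hb⟩, -⟩ := hζre
    rw [h0] at hb
    simp at hb
    have : (4 : ℤ) ∣ 1 := ⟨- (m ^ 2 * b), by linarith⟩
    norm_num at this
  obtain ⟨ω, hω, hωc⟩ := Zsqrtd.exists_coprime_of_gcd_pos ((Zsqrtd.gcd_pos_iff ζ).mpr hζ0)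
  set d : ℤ := (Int.gcd ζ.re ζ.im : ℤ) with hd
  have hdcop : IsCoprime d (4 * m) := by
    have h1 : d ∣ ζ.re := Int.gcd_dvd_left ..
    obtain ⟨⟨b, hb⟩, -⟩ := hζre
    have h2 : ζ.re = 1 + 4 * m * (m * b) := by linarith
    have h3 : IsCoprime ζ.re (4 * m) := by
      rw [h2]
      exact (IsCoprime.add_mul_left_left_iff).mpr isCoprime_one_left
    exact h3.of_isCoprime_of_dvd_left h1
  have hd2 : d % 2 = 1 := by
    by_contra h
    have h5 : (2 : ℤ) ∣ d := by omega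
    have := hdcop.isUnit_of_dvd' h5 ⟨2 * m, by ring⟩
    rw [Int.isUnit_iff] at this
    omega
  -- the prime `t`
  obtain ⟨t, ht, htp⟩ : ∃ t : ℤ, (m : ℤ) ∣ t - d ∧
      ∀ p : ℕ, p.Prime → p % 4 ≠ 1 → ¬ (p : ℤ) ∣ t := by
    obtain ⟨s, hs1, hs2⟩ : ∃ s : ℤ, s ^ 2 = 1 ∧ (s * d) % 4 = 1 := by
      by_cases h : d % 4 = 1
      · exact ⟨1, by norm_num, by omega⟩
      · exact ⟨-1, by norm_num, by omega⟩
    have hcop : IsCoprime (s * d) (4 * m) := by
      have hsu : IsUnit s := IsUnit.of_mul_eq_one s (by rw [← pow_two]; exact hs1)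
      exact (isCoprime_mul_unit_left_left hsu _ _).mpr hdcop
    obtain ⟨r, ρ, -, hr, hr4, hrL, -⟩ := exists_norm_prime 0 (L := 4 * m) (a := s * d)
      (by positivity) (dvd_mul_right _ _) hs2 hcop
    refine ⟨s * r, ?_, ?_⟩
    · obtain ⟨b, hb⟩ := hrL
      refine ⟨s * (4 * b), ?_⟩
      linear_combination s * hb + d * hs1
    · intro p hp hp4 hpd
      have h1 : (p : ℤ) ∣ r := by
        have : (r : ℤ) = s * (s * r) := by rw [← mul_assoc, ← pow_two, hs1, one_mul]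
        rw [this]; exact hpd.mul_left _
      have h2 : p = r := (Nat.prime_dvd_prime_iff_eq hp hr).mp (by exact_mod_cast h1)
      exact hp4 (by rw [h2]; exact hr4)
  have htω : Cg m ((t : GI) * ω) 1 := by
    obtain ⟨b, hb⟩ := ht
    have h1 : (t : GI) = (d : GI) + (m : GI) * (b : GI) := by
      have : t = d + m * b := by linarith
      rw [this]; push_cast; ring
    refine ⟨(b : GI) * ω + ((4 * m : ℤ) : GI) * (((P ^ 2 * S * c ^ 2 * R : ℤ) : GI) * v), ?_⟩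
    rw [h1]
    have h2 : (d : GI) * ω = ζ := hω.symm
    have h3 : ((d : GI) + (m : GI) * (b : GI)) * ω = (d : GI) * ω + (m : GI) * (b : GI) * ω := by
      ring
    rw [h3, h2, hζ]
    push_cast; ring
  have hNω : m ∣ t ^ 2 * N ω - 1 := by
    have := htω.N
    simpa using this
  have hfinal : fq q ((t : GI) * (z₁ * ω)) (t * (S * d * N ω)) =
      (t ^ 2 * N ω) * (N z₁ - q * N z₂) := by
    have h1 : N z₂ = S ^ 2 * (d ^ 2 * N ω) := by
      rw [hζz, N_mul, N_intCast, hω, N_mul, N_intCast]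
    simp only [fq, N_mul, N_intCast]
    rw [h1]; ring
  have htN : ∀ p : ℕ, p.Prime → p % 4 ≠ 1 → ¬ (p : ℤ) ∣ t ^ 2 * N ω := by
    intro p hp hp4 hpd
    rcases prime_dvd_mul hp hpd with h | h
    · exact htp p hp hp4 (prime_dvd_pow hp h)
    · rcases bad_cases hp hp4 with rfl | h3
      · have h5 : N ζ = d ^ 2 * N ω := by rw [hω, N_mul, N_intCast]
        obtain ⟨⟨b₁, hb₁⟩, ⟨b₂, hb₂⟩⟩ := hζre
        have h6 : ζ.re = 1 + 4 * m ^ 2 * b₁ := by linarith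
        obtain ⟨b₃, hb₃⟩ := h
        have h7 : (1 : ℤ) = 2 * (d ^ 2 * b₃ - 4 * m ^ 2 * b₁ - 8 * m ^ 4 * b₁ ^ 2 -
            8 * m ^ 4 * b₂ ^ 2) := by
          simp only [N] at h5 hb₃
          push_cast at hb₃
          rw [hb₃, h6, hb₂] at h5
          linear_combination h5
        omega
      · obtain ⟨h5, h6⟩ := inert_dvd hp h3 h
        exact (Nat.prime_iff_prime_int.mp hp).not_isUnit (hωc.isUnit_of_dvd' h5 h6)
  have hnzc : m ^ 2 ∣ (N z₁ - q * N z₂) - fq q A S := by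
    refine ⟨4 * P ^ 2 * S ^ 2 * c ^ 2 * kz + 4 * P * k₀, ?_⟩
    rw [hM₁] at hkz
    rw [hE] at hk₀
    linear_combination hkz + hk₀
  have hnzp : ∀ p : ℕ, p.Prime → p % 4 ≠ 1 → ¬ (p : ℤ) ∣ m → ¬ (p : ℤ) ∣ N z₁ - q * N z₂ := by
    intro p hp hp4 hpm hpd
    rcases bad_cases hp hp4 with rfl | h3
    · apply hodd (by exact_mod_cast hpm)
      obtain ⟨b, hb⟩ := hpd
      rw [hM₁] at hkz
      rw [hE] at hk₀
      push_cast at hb
      exact ⟨b - 2 * m ^ 2 * P ^ 2 * S ^ 2 * c ^ 2 * kz - 2 * m ^ 2 * P * k₀, by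
        linear_combination hb - hkz - hk₀⟩
    · have hp2m : ¬ (p : ℤ) ∣ 2 * m := by
        intro h
        rcases prime_dvd_mul hp h with h | h
        · have h5 : p ∣ 2 := by exact_mod_cast h
          have h6 := (Nat.prime_dvd_prime_iff_eq hp Nat.prime_two).mp h5
          omega
        · exact hpm h
      by_cases hpM : (p : ℤ) ∣ M
      · have hpSc := (hMp p hp hpM).resolve_left hp2m
        have hpM₁ : (p : ℤ) ∣ M₁ := by
          have : M₁ = 4 * m ^ 2 * P ^ 2 * (S * c) * (S * c) := by rw [hM₁]; ring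
          rw [this]; exact hpSc.mul_left _
        apply hgood p hp hp2m hpSc
        have : fq q A₂ S = (N z₁ - q * N z₂) - M₁ * kz := by linarith
        rw [this]
        exact dvd_sub hpd (hpM₁.mul_right _)
      · apply hκ p hp hpM
        apply inert_dvd hp h3
        rw [← hnz]; exact hpd.mul_left _
  refine ⟨(t : GI) * (z₁ * ω), t * (S * d * N ω), ?_, ?_, ?_, ?_⟩
  · have h1 : Cg m z₁ A := (hz₁.mono ⟨4 * m * P ^ 2 * S ^ 2 * c ^ 2, by rw [hM₁]; ring⟩).trans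
      (hA₂.mono ⟨4 * m * P, by rw [hE]; ring⟩)
    have h2 := htω.mul h1
    have h3 : (t : GI) * (z₁ * ω) = (t : GI) * ω * z₁ := by ring
    rw [h3]
    simpa using h2
  · obtain ⟨b₁, hb₁⟩ := ht
    obtain ⟨b₂, hb₂⟩ := hNω
    refine ⟨S * (b₂ - t * b₁ * N ω), ?_⟩
    linear_combination S * hb₂ - S * t * N ω * hb₁
  · -- bad primes not dividing `m`
    intro p hp hp4 hpm hpd
    rw [hfinal] at hpd
    rcases prime_dvd_mul hp hpd with h | h
    · exact htN p hp hp4 h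
    · exact hnzp p hp hp4 hpm h
  · intro p hp hp4 k hk hpd
    rw [hfinal] at hpd
    have h1 : IsCoprime ((p : ℤ) ^ k) (t ^ 2 * N ω) :=
      IsCoprime.pow_left ((prime_coprime_iff hp).mpr (htN p hp hp4))
    have h2 := h1.dvd_of_dvd_mul_left hpd
    have h3 : fq q A S = (N z₁ - q * N z₂) - ((N z₁ - q * N z₂) - fq q A S) := by ring
    rw [h3]
    exact dvd_sub h2 (hk.trans hnzc)

end Pool.Agent.Lib.H65.TE
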