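import Mathlib
import Pool.Agent.Lib.H65.TE3

/-!
Step T1, conclusion.
-/

namespace Pool.Agent.Lib.H65.TE

lemma sq_mod_four (x : ℤ) : (x % 2 = 0 ∧ x ^ 2 % 4 = 0) ∨ (x % 2 = 1 ∧ x ^ 2 % 4 = 1) := by
  rcases Int.emod_two_eq_zero_or_one x with h | h
  · left
    refine ⟨h, ?_⟩
    obtain ⟨k, hk⟩ : ∃ k, x = 2 * k := ⟨x / 2, by omega⟩
    rw [hk, mul_pow]; omega
  · right
    refine ⟨h, ?_⟩
    obtain ⟨k, hk⟩ : ∃ k, x = 2 * k + 1 := ⟨x / 2, by omega⟩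
    have : x ^ 2 = 4 * (k ^ 2 + k) + 1 := by rw [hk]; ring
    rw [this]; omega

lemma two_case {q : ℕ} (h4 : q % 4 = 3) {A : GI} {S : ℤ}
    (h : ¬ ((2 : ℤ) ∣ A.re ∧ (2 : ℤ) ∣ A.im ∧ (2 : ℤ) ∣ S)) : ¬ (4 : ℤ) ∣ fq q A S := by
  intro hd
  apply h
  obtain ⟨j, hj⟩ : ∃ j : ℤ, (q : ℤ) = 4 * j + 3 := ⟨q / 4, by omega⟩
  have e : fq q A S = A.re ^ 2 + A.im ^ 2 - 4 * (j * S ^ 2) - 3 * S ^ 2 := by
    simp only [fq, N]; rw [hj]; ring
  rw [e] at hd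
  rcases sq_mod_four A.re with h1 | h1 <;> rcases sq_mod_four A.im with h2 | h2 <;>
    rcases sq_mod_four S with h3 | h3 <;> omega

lemma q_case {q : ℕ} (hq : q.Prime) (h4 : q % 4 = 3) {A : GI} {S : ℤ}
    (h : ¬ ((q : ℤ) ∣ A.re ∧ (q : ℤ) ∣ A.im ∧ (q : ℤ) ∣ S)) : ¬ (q : ℤ) ^ 2 ∣ fq q A S := by
  intro hd
  apply h
  have h1 : (q : ℤ) ∣ N A := by
    have e : N A = fq q A S + q * S ^ 2 := by simp only [fq]; ring
    rw [e]
    exact dvd_add ((dvd_pow_self _ two_ne_zero).trans hd) (dvd_mul_right _ _)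
  obtain ⟨h2, h3⟩ := inert_dvd hq h4 h1
  refine ⟨h2, h3, ?_⟩
  obtain ⟨a, ha⟩ := h2
  obtain ⟨b, hb⟩ := h3
  obtain ⟨c, hc⟩ := hd
  have hq0 : (q : ℤ) ≠ 0 := by exact_mod_cast hq.ne_zero
  have e : (q : ℤ) * S ^ 2 = q * (q * (a ^ 2 + b ^ 2 - c)) := by
    simp only [fq, N] at hc
    rw [ha, hb] at hc
    linarith
  have e2 := mul_left_cancel₀ hq0 e
  exact prime_dvd_pow hq (k := 2) ⟨_, e2⟩

/-- local adjustment at an inert prime -/
lemma inert_adjust {q p : ℕ} (hp : p.Prime) (hp4 : p % 4 = 3) (hpq : p ≠ q) (hq : q.Prime)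
    {m k : ℕ} (hk : 1 ≤ k) {m' : ℤ} (hm : (m : ℤ) = p ^ k * m') (hm' : ¬ (p : ℤ) ∣ m')
    (A : GI) (S : ℤ) (hprim : ¬ ((p : ℤ) ∣ A.re ∧ (p : ℤ) ∣ A.im ∧ (p : ℤ) ∣ S)) :
    ∃ l : ℤ × ℤ × ℤ, ∀ x y z : ℤ, (p : ℤ) ∣ x - l.1 → (p : ℤ) ∣ y - l.2.1 →
      (p : ℤ) ∣ z - l.2.2 →
      ¬ (p : ℤ) ^ (2 * k) ∣ fq q (A + (m : GI) * ⟨x, y⟩) (S + m * z) := by
  have hexp : ∀ x y z : ℤ, fq q (A + (m : GI) * ⟨x, y⟩) (S + m * z) =
      fq q A S + 2 * m * (A.re * x + A.im * y - q * S * z) + m ^ 2 * (x ^ 2 + y ^ 2 - q * z ^ 2) := by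
    intro x y z
    simp only [fq, N, Zsqrtd.re_add, Zsqrtd.im_add, Zsqrtd.re_mul, Zsqrtd.im_mul,
      Zsqrtd.re_natCast, Zsqrtd.im_natCast]
    ring
  have hp2 : ¬ (p : ℤ) ∣ 2 := by
    intro h
    have h5 : p ∣ 2 := by exact_mod_cast h
    have h6 := (Nat.prime_dvd_prime_iff_eq hp Nat.prime_two).mp h5
    omega
  have hpq' : ¬ (p : ℤ) ∣ (q : ℤ) := by
    intro h
    have h5 : p ∣ q := by exact_mod_cast h
    exact hpq ((Nat.prime_dvd_prime_iff_eq hp hq).mp h5)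
  have hp0 : (p : ℤ) ^ k ≠ 0 := by
    have := hp.pos
    positivity
  have hle : k + 1 ≤ 2 * k := by omega
  have hm2 : (p : ℤ) ^ (k + 1) ∣ m ^ 2 := by
    rw [hm, mul_pow, ← pow_mul]
    exact (pow_dvd_pow _ (by omega)).mul_right _
  by_cases hf : (p : ℤ) ^ (k + 1) ∣ fq q A S
  · -- choose a good direction
    obtain ⟨l, hl⟩ : ∃ l : ℤ × ℤ × ℤ, ¬ (p : ℤ) ∣ A.re * l.1 + A.im * l.2.1 - q * S * l.2.2 := by
      by_cases h1 : (p : ℤ) ∣ A.re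
      · by_cases h2 : (p : ℤ) ∣ A.im
        · have h3 : ¬ (p : ℤ) ∣ S := fun h => hprim ⟨h1, h2, h⟩
          refine ⟨(0, 0, 1), ?_⟩
          intro h
          simp only [mul_zero, mul_one, zero_add, zero_sub, dvd_neg] at h
          rcases prime_dvd_mul hp h with h | h
          · exact hpq' h
          · exact h3 h
        · exact ⟨(0, 1, 0), by simpa using h2⟩
      · exact ⟨(1, 0, 0), by simpa using h1⟩
    refine ⟨l, ?_⟩
    intro x y z hx hy hz hd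
    rw [hexp] at hd
    have hd' := (pow_dvd_pow (p : ℤ) hle).trans hd
    have h1 : (p : ℤ) ^ (k + 1) ∣ 2 * m * (A.re * x + A.im * y - q * S * z) := by
      have e : 2 * m * (A.re * x + A.im * y - q * S * z) =
          (fq q A S + 2 * m * (A.re * x + A.im * y - q * S * z) +
            m ^ 2 * (x ^ 2 + y ^ 2 - q * z ^ 2)) - fq q A S -
            m ^ 2 * (x ^ 2 + y ^ 2 - q * z ^ 2) := by ring
      rw [e]
      exact dvd_sub (dvd_sub hd' hf) (hm2.mul_right _)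
    have h2 : (p : ℤ) ∣ 2 * m' * (A.re * x + A.im * y - q * S * z) := by
      obtain ⟨c, hc⟩ := h1
      refine ⟨c, ?_⟩
      apply mul_left_cancel₀ hp0
      rw [hm] at hc
      rw [pow_succ] at hc
      linear_combination hc
    have h3 : (p : ℤ) ∣ A.re * x + A.im * y - q * S * z := by
      rcases prime_dvd_mul hp h2 with h | h
      · rcases prime_dvd_mul hp h with h | h
        · exact absurd h hp2
        · exact absurd h hm'
      · exact h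
    apply hl
    obtain ⟨a, ha⟩ := hx
    obtain ⟨b, hb⟩ := hy
    obtain ⟨c, hc⟩ := hz
    obtain ⟨d, hd⟩ := h3
    refine ⟨d - A.re * a - A.im * b + q * S * c, ?_⟩
    linear_combination hd - A.re * ha - A.im * hb + q * S * hc
  · refine ⟨(0, 0, 0), ?_⟩
    intro x y z hx hy hz hd
    apply hf
    rw [hexp] at hd
    have hd' := (pow_dvd_pow (p : ℤ) hle).trans hd
    simp only [sub_zero] at hx hy hz
    have h1 : (p : ℤ) ^ (k + 1) ∣ 2 * m * (A.re * x + A.im * y - q * S * z) := by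
      obtain ⟨a, ha⟩ := hx
      obtain ⟨b, hb⟩ := hy
      obtain ⟨c, hc⟩ := hz
      refine ⟨2 * m' * (A.re * a + A.im * b - q * S * c), ?_⟩
      rw [ha, hb, hc, hm, pow_succ]
      ring
    have e : fq q A S =
          (fq q A S + 2 * m * (A.re * x + A.im * y - q * S * z) +
            m ^ 2 * (x ^ 2 + y ^ 2 - q * z ^ 2)) - 2 * m * (A.re * x + A.im * y - q * S * z) -
            m ^ 2 * (x ^ 2 + y ^ 2 - q * z ^ 2) := by ring
    rw [e]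
    exact dvd_sub (dvd_sub hd' h1) (hm2.mul_right _)

lemma step1 {q : ℕ} (hq : q.Prime) (h4 : q % 4 = 3) {m : ℕ} (hm : 0 < m) (A : GI) (S : ℤ)
    (hprim : ∀ p : ℕ, p.Prime → p ∣ m → ¬ ((p : ℤ) ∣ A.re ∧ (p : ℤ) ∣ A.im ∧ (p : ℤ) ∣ S)) :
    ∃ (A' : GI) (S' : ℤ), Cg m A' A ∧ (m : ℤ) ∣ S' - S ∧ ∀ p : ℕ, p.Prime → p % 4 ≠ 1 → p ∣ m →
      ¬ (p : ℤ) ^ (2 * m.factorization p) ∣ fq q A' S' := by
  classical
  set F : Finset ℕ := m.primeFactors.filter (fun p => p % 4 = 3 ∧ p ≠ q) with hF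
  have hFp : ∀ p ∈ F, p.Prime :=
    fun p hp => Nat.prime_of_mem_primeFactors (Finset.mem_filter.mp hp).1
  have hloc : ∀ p ∈ F, ∃ l : ℤ × ℤ × ℤ, ∀ x y z : ℤ, (p : ℤ) ∣ x - l.1 → (p : ℤ) ∣ y - l.2.1 →
      (p : ℤ) ∣ z - l.2.2 →
      ¬ (p : ℤ) ^ (2 * m.factorization p) ∣ fq q (A + (m : GI) * ⟨x, y⟩) (S + m * z) := by
    intro p hp
    rw [hF, Finset.mem_filter, Nat.mem_primeFactors] at hp
    obtain ⟨⟨hpp, hpm, -⟩, hp4, hpq⟩ := hp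
    have hk : 1 ≤ m.factorization p := (hpp.dvd_iff_one_le_factorization hm.ne').mp hpm
    have e : (m : ℤ) = p ^ (m.factorization p) * ((m / p ^ m.factorization p : ℕ) : ℤ) := by
      exact_mod_cast (Nat.ordProj_mul_ordCompl_eq_self m p).symm
    have hnd : ¬ (p : ℤ) ∣ ((m / p ^ m.factorization p : ℕ) : ℤ) := by
      intro h
      exact Nat.not_dvd_ordCompl hpp hm.ne' (by exact_mod_cast h)
    exact inert_adjust hpp hp4 hpq hq hk e hnd A S (hprim p hpp hpm)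
  choose! l hl using hloc
  obtain ⟨x, hx⟩ := crt_primes F hFp (fun p => (l p).1)
  obtain ⟨y, hy⟩ := crt_primes F hFp (fun p => (l p).2.1)
  obtain ⟨z, hz⟩ := crt_primes F hFp (fun p => (l p).2.2)
  have hA' : Cg m (A + (m : GI) * ⟨x, y⟩) A := ⟨⟨x, y⟩, by push_cast; rfl⟩
  have hS' : (m : ℤ) ∣ (S + m * z) - S := ⟨z, by ring⟩
  refine ⟨A + (m : GI) * ⟨x, y⟩, S + m * z, hA', hS', ?_⟩
  intro p hp hp4 hpm
  have hk : 1 ≤ m.factorization p := (hp.dvd_iff_one_le_factorization hm.ne').mp hpm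
  have hpm' : (p : ℤ) ∣ m := by exact_mod_cast hpm
  -- primitivity is preserved
  have hprim' : ¬ ((p : ℤ) ∣ (A + (m : GI) * ⟨x, y⟩).re ∧ (p : ℤ) ∣ (A + (m : GI) * ⟨x, y⟩).im ∧
      (p : ℤ) ∣ S + m * z) := by
    rintro ⟨h1, h2, h3⟩
    apply hprim p hp hpm
    obtain ⟨h5, h6⟩ := cg_iff.mp hA'
    refine ⟨?_, ?_, ?_⟩
    · have := dvd_sub h1 (hpm'.trans h5)
      simpa using this
    · have := dvd_sub h2 (hpm'.trans h6)
      simpa using this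
    · have := dvd_sub h3 (hpm'.trans hS')
      simpa using this
  rcases bad_cases hp hp4 with rfl | h3
  · intro hd
    apply two_case h4 (A := A + (m : GI) * ⟨x, y⟩) (S := S + m * z) (by exact_mod_cast hprim')
    have : (4 : ℤ) = (2 : ℕ) ^ 2 := by norm_num
    rw [this]
    exact (pow_dvd_pow _ (by omega)).trans hd
  · by_cases hpq : p = q
    · subst hpq
      intro hd
      exact q_case hq h4 hprim' ((pow_dvd_pow _ (by omega)).trans hd)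
    · have hmem : p ∈ F := by
        rw [hF, Finset.mem_filter, Nat.mem_primeFactors]
        exact ⟨⟨hp, hpm, hm.ne'⟩, h3, hpq⟩
      exact hl p hmem x y z (hx p hmem) (hy p hmem) (hz p hmem)

/-- Step T1. -/
theorem T1 {q : ℕ} (hq : q.Prime) (h4 : q % 4 = 3) {m : ℕ} (hm : 0 < m) (A : GI) (S : ℤ)
    (hprim : ∀ p : ℕ, p.Prime → p ∣ m → ¬ ((p : ℤ) ∣ A.re ∧ (p : ℤ) ∣ A.im ∧ (p : ℤ) ∣ S)) :
    ∃ (A' : GI) (S' : ℤ), Cg m A' A ∧ (m : ℤ) ∣ S' - S ∧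
      (∀ p : ℕ, p.Prime → p % 4 ≠ 1 → ¬ p ∣ m → ¬ (p : ℤ) ∣ fq q A' S') ∧
      (∀ p : ℕ, p.Prime → p % 4 ≠ 1 → p ∣ m →
        ¬ (p : ℤ) ^ (2 * m.factorization p) ∣ fq q A' S') := by
  classical
  obtain ⟨A₁, S₁, hA₁, hS₁, hf₁⟩ := step1 hq h4 hm A S hprim
  have hmZ : (0 : ℤ) < m := by exact_mod_cast hm
  -- make `S` nonzero
  obtain ⟨S₂, hS₂, hS₂0⟩ : ∃ S₂ : ℤ, (m : ℤ) ^ 2 ∣ S₂ - S₁ ∧ S₂ ≠ 0 := by
    by_cases h : S₁ = 0
    · exact ⟨m ^ 2, by rw [h]; simp, by positivity⟩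
    · exact ⟨S₁, by simp, h⟩
  -- make the value odd if `m` is odd
  set F : Finset ℕ := if (2 : ℤ) ∣ m then ∅ else {2} with hF
  have hFp : ∀ p ∈ F, p.Prime := by
    intro p hp
    rw [hF] at hp
    split_ifs at hp with h
    · simp at hp
    · rw [Finset.mem_singleton] at hp; rw [hp]; exact Nat.prime_two
  have hFm : ∀ p ∈ F, ¬ (p : ℤ) ∣ (m : ℤ) ^ 2 := by
    intro p hp hd
    have h1 := prime_dvd_pow (hFp p hp) hd
    rw [hF] at hp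
    split_ifs at hp with h
    · simp at hp
    · rw [Finset.mem_singleton] at hp; rw [hp] at h1; exact h (by exact_mod_cast h1)
  obtain ⟨A₂, hA₂, hA₂F⟩ := adjust q ((m : ℤ) ^ 2) F hFp hFm A₁ S₂
  have hcong : (m : ℤ) ^ 2 ∣ fq q A₂ S₂ - fq q A₁ S₁ := fq_congr hA₂ hS₂
  have hf₂ : fq q A₂ S₂ ≠ 0 := by
    intro h0
    have h1 : N A₂ = q * N (S₂ : GI) := by
      simp only [fq] at h0
      rw [N_intCast]; linarith
    have h2 := (N_ne_mul' hq h4 h1).2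
    apply hS₂0
    have := congrArg Zsqrtd.re h2
    simpa using this
  have hodd : ¬ (2 : ℤ) ∣ m → ¬ (2 : ℤ) ∣ fq q A₂ S₂ := by
    intro h
    have := hA₂F 2 (by rw [hF, if_neg h]; simp)
    exact_mod_cast this
  obtain ⟨A₃, S₃, hA₃, hS₃, h1, h2⟩ := T1core hq h4 hmZ A₂ S₂ hS₂0 hf₂ hodd
  refine ⟨A₃, S₃, ?_, ?_, ?_, ?_⟩
  · exact hA₃.trans ((hA₂.mono (dvd_pow_self _ two_ne_zero)).trans hA₁)
  · have e : S₃ - S = (S₃ - S₂) + (S₂ - S₁) + (S₁ - S) := by ring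
    rw [e]
    exact dvd_add (dvd_add hS₃ ((dvd_pow_self _ two_ne_zero).trans hS₂)) hS₁
  · intro p hp hp4 hpm
    exact h1 p hp hp4 (by exact_mod_cast hpm)
  · intro p hp hp4 hpm hd
    have hpow : (p : ℤ) ^ (2 * m.factorization p) ∣ (m : ℤ) ^ 2 := by
      rw [mul_comm 2, pow_mul]
      apply pow_dvd_pow_of_dvd
      exact_mod_cast Nat.ordProj_dvd m p
    have h3 := h2 p hp hp4 _ hpow hd
    apply hf₁ p hp hp4 hpm
    have e : fq q A₁ S₁ = fq q A₂ S₂ - (fq q A₂ S₂ - fq q A₁ S₁) := by ring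
    rw [e]
    exact dvd_sub h3 (hpow.trans hcong)

end Pool.Agent.Lib.H65.TE
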