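import Mathlib
import Pool.Agent.Lib.H65.TE4

/-!
Square roots modulo odd numbers, and Gaussian integers of given norm.
-/

namespace Pool.Agent.Lib.H65.TE

/-- an integer which is a unit square modulo every prime of the odd number `n` is a square
modulo `n` -/
lemma sq_mod {n : ℕ} (hn : n ≠ 0) (hodd : n % 2 = 1) (u : ℤ)
    (h : ∀ p : ℕ, p.Prime → p ∣ n → ∃ s : ℤ, (p : ℤ) ∣ s ^ 2 * u - 1) :
    ∃ t : ℤ, (n : ℤ) ∣ t ^ 2 - u := by
  have h' : ∀ p ∈ n.primeFactors, ∃ s : ℤ, (p : ℤ) ∣ s ^ 2 * u - 1 := fun p hp =>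
    h p (Nat.prime_of_mem_primeFactors hp) (Nat.dvd_of_mem_primeFactors hp)
  choose! sf hsf using h'
  obtain ⟨s, hs⟩ := crt_primes n.primeFactors (fun p hp => Nat.prime_of_mem_primeFactors hp) sf
  have hV : ∀ p : ℕ, p.Prime → p ∣ n → (p : ℤ) ∣ s ^ 2 * u - 1 := by
    intro p hp hpn
    have hmem : p ∈ n.primeFactors := Nat.mem_primeFactors.mpr ⟨hp, hpn, hn⟩
    obtain ⟨a, ha⟩ := hs p hmem
    obtain ⟨b, hb⟩ := hsf p hmem
    have : s = sf p + p * a := by linarith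
    refine ⟨b + u * (2 * sf p * a + p * a ^ 2), ?_⟩
    rw [this]
    linear_combination hb
  have hVn : (n : ℤ) ∣ (s ^ 2 * u) ^ n - 1 := by
    rw [Int.natCast_dvd, Nat.dvd_iff_prime_pow_dvd_dvd]
    intro p k hp hk
    rcases k with _ | k
    · simp
    · rw [← Int.natCast_dvd]
      have hpn : p ∣ n := (dvd_pow_self p (Nat.succ_ne_zero k)).trans hk
      have h1 := dvd_sub_pow_of_dvd_sub (hV p hp hpn) k
      obtain ⟨c, hc⟩ : p ^ k ∣ n := (pow_dvd_pow p (Nat.le_succ k)).trans hk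
      have h2 : (s ^ 2 * u) ^ p ^ k - 1 ^ p ^ k ∣ (s ^ 2 * u) ^ n - 1 := by
        have := sub_dvd_pow_sub_pow ((s ^ 2 * u) ^ p ^ k) 1 c
        rw [← pow_mul, ← hc, one_pow] at this
        simpa using this
      push_cast
      exact h1.trans h2
  obtain ⟨j, hj⟩ : ∃ j, n + 1 = 2 * j := ⟨(n + 1) / 2, by omega⟩
  refine ⟨u ^ j * s ^ n, ?_⟩
  have e : (u ^ j * s ^ n) ^ 2 - u = u * ((s ^ 2 * u) ^ n - 1) := by
    have : (u ^ j * s ^ n) ^ 2 = u ^ (2 * j) * s ^ (2 * n) := by ring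
    rw [this, ← hj]; ring
  rw [e]
  exact hVn.mul_left _

/-- `-1` is a square modulo any product of primes `≡ 1 mod 4` -/
lemma exists_sqrt_neg_one {n : ℕ} (hn : n ≠ 0) (hg : ∀ p : ℕ, p.Prime → p ∣ n → p % 4 = 1) :
    ∃ w : ℤ, (n : ℤ) ∣ w ^ 2 + 1 := by
  have hodd : n % 2 = 1 := by
    by_contra h
    have := hg 2 Nat.prime_two (by omega)
    omega
  obtain ⟨t, ht⟩ := sq_mod hn hodd (-1) (by
    intro p hp hpn
    have : Fact p.Prime := ⟨hp⟩
    have h4 : p % 4 ≠ 3 := by have := hg p hp hpn; omega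
    obtain ⟨y, hy⟩ := ZMod.exists_sq_eq_neg_one_iff.mpr h4
    obtain ⟨s, hs⟩ := ZMod.intCast_surjective y
    refine ⟨s, ?_⟩
    rw [← ZMod.intCast_zmod_eq_zero_iff_dvd]
    push_cast
    rw [hs, pow_two, ← hy]; ring)
  exact ⟨t, by simpa using ht⟩

/-- Gaussian integers of norm `n` in the kernel of `i ↦ w` modulo `n`. -/
lemma exists_theta {n : ℕ} (hn : n ≠ 0) {w : ℤ} (hw : (n : ℤ) ∣ w ^ 2 + 1) :
    ∃ Θ : GI, N Θ = n ∧ IsCoprime Θ.re Θ.im ∧ (n : ℤ) ∣ Θ.re + w * Θ.im := by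
  set x : GI := (n : GI) with hx
  set y : GI := ⟨-w, 1⟩ with hy
  set Θ : GI := EuclideanDomain.gcd x y with hΘ
  obtain ⟨μ, hμ⟩ : Θ ∣ x := EuclideanDomain.gcd_dvd_left x y
  obtain ⟨ν, hν⟩ : Θ ∣ y := EuclideanDomain.gcd_dvd_right x y
  have hbez : Θ = x * EuclideanDomain.gcdA x y + y * EuclideanDomain.gcdB x y :=
    EuclideanDomain.gcd_eq_gcd_ab x y
  set s : GI := EuclideanDomain.gcdA x y
  set t : GI := EuclideanDomain.gcdB x y
  -- any integer dividing `Θ` is a unit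
  have hprim : ∀ c : ℤ, (c : GI) ∣ Θ → c ∣ 1 := by
    intro c hc
    have h1 : (c : GI) ∣ y := hc.trans ⟨ν, hν⟩
    exact ((Zsqrtd.intCast_dvd c y).mp h1).2
  have hre : (n : ℤ) ∣ Θ.re + w * Θ.im := by
    obtain ⟨d, hd⟩ := hw
    rw [hbez]
    refine ⟨s.re + w * s.im - d * t.im, ?_⟩
    simp only [hx, hy, Zsqrtd.re_add, Zsqrtd.im_add, Zsqrtd.re_mul, Zsqrtd.im_mul,
      Zsqrtd.re_natCast, Zsqrtd.im_natCast]
    linear_combination (-t.im) * hd
  have hnN : (n : ℤ) ∣ N Θ := by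
    obtain ⟨a, ha⟩ := hre
    obtain ⟨d, hd⟩ := hw
    have e : Θ.re = n * a - w * Θ.im := by linarith
    refine ⟨n * a ^ 2 - 2 * a * w * Θ.im + d * Θ.im ^ 2, ?_⟩
    simp only [N]
    rw [e]
    linear_combination Θ.im ^ 2 * hd
  obtain ⟨c, hc⟩ := hnN
  have hx0 : x ≠ 0 := by rw [hx]; exact_mod_cast hn
  have hΘ0 : Θ ≠ 0 := by
    intro h0
    rw [h0, zero_mul] at hμ
    exact hx0 hμ
  have hcu : c ∣ 1 := by
    apply hprim
    -- `star Θ = μ c`
    have h1 : star Θ = μ * (c : GI) := by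
      have h2 : Θ * star Θ = Θ * (μ * (c : GI)) := by
        rw [← N_eq, hc, ← mul_assoc, ← hμ, hx]
        push_cast; ring
      exact mul_left_cancel₀ hΘ0 h2
    have h3 : Θ = star μ * (c : GI) := by
      have := congrArg star h1
      rw [star_star, star_mul, star_int, mul_comm] at this
      exact this
    rw [h3]
    exact dvd_mul_left _ _
  have hc1 : c = 1 := by
    rcases Int.isUnit_iff.mp (isUnit_of_dvd_one hcu) with h | h
    · exact h
    · exfalso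
      have := N_nonneg Θ
      rw [hc, h] at this
      have : (0 : ℤ) < n := by exact_mod_cast Nat.pos_of_ne_zero hn
      linarith
  refine ⟨Θ, by rw [hc, hc1, mul_one], ?_, hre⟩
  rw [Int.isCoprime_iff_gcd_eq_one]
  have h1 : ((Int.gcd Θ.re Θ.im : ℤ) : GI) ∣ Θ := by
    rw [Zsqrtd.intCast_dvd]
    exact ⟨Int.gcd_dvd_left .., Int.gcd_dvd_right ..⟩
  have h2 := hprim _ h1
  have h3 : Int.gcd Θ.re Θ.im ∣ 1 := by exact_mod_cast h2
  exact Nat.dvd_one.mp h3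

end Pool.Agent.Lib.H65.TE
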