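import Mathlib
import Pool.Agent.Lib.H65.TE5

/-!
Strong approximation for the norm one group of `O_q` at primes `≡ 1 mod 4`, via Pell's equation.
-/

namespace Pool.Agent.Lib.H65.TE

/-- `i ↦ w` with integer values -/
def ev (w : ℤ) (z : GI) : ℤ := z.re + w * z.im

/-- `i ↦ w` modulo `m` -/
def sg (m : ℕ) (w : ℤ) (hw : (m : ℤ) ∣ w ^ 2 + 1) : GI →+* ZMod m :=
  Zsqrtd.lift ⟨(w : ZMod m), by
    have : ((w ^ 2 + 1 : ℤ) : ZMod m) = 0 := (ZMod.intCast_zmod_eq_zero_iff_dvd _ _).mpr hw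
    push_cast at this
    push_cast
    linear_combination this⟩

lemma sg_apply {m : ℕ} {w : ℤ} (hw : (m : ℤ) ∣ w ^ 2 + 1) (z : GI) :
    sg m w hw z = ((ev w z : ℤ) : ZMod m) := by
  simp [sg, ev, Zsqrtd.lift, mul_comm]

lemma ev_mul_dvd (w : ℤ) (x y : GI) : w ^ 2 + 1 ∣ ev w (x * y) - ev w x * ev w y := by
  refine ⟨-(x.im * y.im), ?_⟩
  simp only [ev, Zsqrtd.re_mul, Zsqrtd.im_mul]
  ring

lemma ev_star_mul_dvd (w : ℤ) (x : GI) : w ^ 2 + 1 ∣ ev w x * ev w (star x) - N x := by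
  refine ⟨-(x.im ^ 2), ?_⟩
  simp only [ev, N, Zsqrtd.re_star, Zsqrtd.im_star]
  ring

lemma theta_coprime {w : ℤ} {Θ : GI} (hΘ : IsCoprime Θ.re Θ.im) {p : ℕ} (hp : p.Prime)
    (hp2 : p ≠ 2) (hpw : (p : ℤ) ∣ w ^ 2 + 1) (h : (p : ℤ) ∣ ev w Θ) :
    ¬ (p : ℤ) ∣ ev w (star Θ) := by
  intro h'
  have hp2' : ¬ (p : ℤ) ∣ 2 := by
    intro h
    have h5 : p ∣ 2 := by exact_mod_cast h
    exact hp2 ((Nat.prime_dvd_prime_iff_eq hp Nat.prime_two).mp h5)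
  have hw : ¬ (p : ℤ) ∣ w := by
    intro hd
    have : (p : ℤ) ∣ 1 := by
      have e : (1 : ℤ) = (w ^ 2 + 1) - w * w := by ring
      rw [e]; exact dvd_sub hpw (hd.mul_left _)
    exact (Nat.prime_iff_prime_int.mp hp).not_isUnit (isUnit_of_dvd_one this)
  have h1 : (p : ℤ) ∣ 2 * Θ.re := by
    have e : 2 * Θ.re = ev w Θ + ev w (star Θ) := by
      simp only [ev, Zsqrtd.re_star, Zsqrtd.im_star]; ring
    rw [e]; exact dvd_add h h'
  have h2 : (p : ℤ) ∣ 2 * (w * Θ.im) := by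
    have e : 2 * (w * Θ.im) = ev w Θ - ev w (star Θ) := by
      simp only [ev, Zsqrtd.re_star, Zsqrtd.im_star]; ring
    rw [e]; exact dvd_sub h h'
  have h3 := (prime_dvd_mul hp h1).resolve_left hp2'
  have h4 := (prime_dvd_mul hp ((prime_dvd_mul hp h2).resolve_left hp2')).resolve_left hw
  exact (Nat.prime_iff_prime_int.mp hp).not_isUnit (hΘ.isUnit_of_dvd' h3 h4)

/-- the strong approximation element -/
def SA (q m : ℕ) (w : ℤ) (hw : (m : ℤ) ∣ w ^ 2 + 1) : Prop :=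
  ∃ (G₁ G₂ : GI) (b₀ : ZMod m), IsUnit b₀ ∧ N G₁ - q * N G₂ = 1 ∧ sg m w hw G₁ = 1 ∧
    sg m w hw (star G₁) = 1 ∧ sg m w hw G₂ = b₀ ∧ sg m w hw (star G₂) = 0

theorem exists_SA {q : ℕ} (hq : q.Prime) {m : ℕ} (hm : m ≠ 0)
    (hg : ∀ p : ℕ, p.Prime → p ∣ m → p % 4 = 1) :
    ∃ (w : ℤ) (hw : (m : ℤ) ∣ w ^ 2 + 1), SA q m w hw := by
  have hmZ : (m : ℤ) ≠ 0 := by exact_mod_cast hm
  have hqpos : (0 : ℤ) < q := by exact_mod_cast hq.pos
  have hnsq : ¬ IsSquare ((q : ℤ) * m ^ 2) := by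
    rintro ⟨k, hk⟩
    have h1 : (m : ℤ) ^ 2 ∣ k ^ 2 := ⟨q, by rw [pow_two k, ← hk]; ring⟩
    obtain ⟨j, hj⟩ := (Int.pow_dvd_pow_iff two_ne_zero).mp h1
    have h2 : (q : ℤ) = j * j := by
      have h3 : (m : ℤ) ^ 2 * q = m ^ 2 * (j * j) := by
        rw [hj] at hk; linear_combination hk
      exact mul_left_cancel₀ (pow_ne_zero 2 hmZ) h3
    exact (Nat.prime_iff_prime_int.mp hq).irreducible.not_isSquare ⟨j, h2⟩
  obtain ⟨A, y, hAy, hy⟩ := Pell.exists_of_not_isSquare (by positivity) hnsq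
  set B : ℤ := m * y with hB
  have hB0 : B ≠ 0 := mul_ne_zero hmZ hy
  have hpell : A ^ 2 - q * B ^ 2 = 1 := by rw [hB]; linear_combination hAy
  obtain ⟨P, a, hPa, ham, hPp⟩ := split_aux (m : ℤ) B.natAbs B hB0 le_rfl
  obtain ⟨n₁, B', hn₁, hB'm, hn₁p, hn₁0⟩ : ∃ (n₁ : ℕ) (B' : ℤ), B = n₁ * B' ∧ IsCoprime B' m ∧
      (∀ p : ℕ, p.Prime → p ∣ n₁ → p ∣ m) ∧ n₁ ≠ 0 := by
    have hP0 : P ≠ 0 := by rintro rfl; simp at hPa; exact hB0 hPa
    have hp1 : ∀ p : ℕ, p.Prime → p ∣ P.natAbs → p ∣ m := by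
      intro p hp hd
      have := hPp p hp (Int.natCast_dvd.mpr hd)
      exact_mod_cast this
    rcases Int.natAbs_eq P with h | h
    · exact ⟨P.natAbs, a, by rw [← h]; exact hPa, ham, hp1, by omega⟩
    · exact ⟨P.natAbs, -a, by rw [hPa]; nth_rewrite 1 [h]; ring, ham.neg_left, hp1, by omega⟩
  have hmn₁ : (m : ℤ) ∣ n₁ := by
    have h1 : (m : ℤ) ∣ n₁ * B' := by rw [← hn₁, hB]; exact dvd_mul_right _ _
    exact hB'm.symm.dvd_of_dvd_mul_right h1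
  obtain ⟨w, hw⟩ := exists_sqrt_neg_one hn₁0 (fun p hp hd => hg p hp (hn₁p p hp hd))
  obtain ⟨Θ, hΘN, hΘc, hΘw⟩ := exists_theta hn₁0 hw
  have hwm : (m : ℤ) ∣ w ^ 2 + 1 := hmn₁.trans hw
  refine ⟨w, hwm, ?_⟩
  have hBz : ((B : ℤ) : ZMod m) = 0 := by
    rw [ZMod.intCast_zmod_eq_zero_iff_dvd, hB]; exact dvd_mul_right _ _
  have hA1 : ((A : ℤ) : ZMod m) ^ 2 = 1 := by
    have := congrArg (Int.cast : ℤ → ZMod m) hpell
    push_cast at this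
    rw [hBz] at this
    simpa using this
  have hsΘ : sg m w hwm Θ = 0 := by
    rw [sg_apply, ZMod.intCast_zmod_eq_zero_iff_dvd]
    exact hmn₁.trans hΘw
  have hsΘ' : IsUnit (sg m w hwm (star Θ)) := by
    rw [sg_apply, ZMod.coe_int_isUnit_iff_isCoprime]
    apply isCoprime_of_primes (Or.inl hmZ)
    intro p hp hpm hpd
    have hpm' : p ∣ m := by exact_mod_cast hpm
    have hp2 : p ≠ 2 := by rintro rfl; have := hg 2 hp hpm'; omega
    exact theta_coprime hΘc hp hp2 (hpm.trans hwm) ((hpm.trans hmn₁).trans hΘw) hpd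
  have hsint : ∀ n : ℤ, sg m w hwm (n : GI) = (n : ZMod m) := fun n => map_intCast _ n
  refine ⟨(A : GI) ^ 2 - (q : GI) * (B : GI) * (B' : GI) * star Θ ^ 2,
    (A : GI) * ((B' : GI) * star Θ ^ 2 - (B : GI)),
    (A : ZMod m) * ((B' : ZMod m) * sg m w hwm (star Θ) ^ 2), ?_, ?_, ?_, ?_, ?_, ?_⟩
  · refine IsUnit.mul ?_ (IsUnit.mul ?_ (hsΘ'.pow 2))
    · exact IsUnit.of_mul_eq_one ((A : ℤ) : ZMod m) (by rw [← pow_two]; exact hA1)
    · rw [ZMod.coe_int_isUnit_iff_isCoprime]; exact hB'm.symm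
  · -- the norm
    have h1 : B = N Θ * B' := by rw [hΘN]; exact hn₁
    have key : N ((A : GI) ^ 2 - (q : GI) * (B : GI) * (B' : GI) * star Θ ^ 2) -
        q * N ((A : GI) * ((B' : GI) * star Θ ^ 2 - (B : GI))) =
        (A ^ 2 - q * (B' * N Θ) ^ 2) * (A ^ 2 - q * B ^ 2) := by
      have hst : ∀ X Y : ℤ, N ((A : GI) ^ 2 - (q : GI) * (B : GI) * (B' : GI) * ⟨X, Y⟩) -
        q * N ((A : GI) * ((B' : GI) * ⟨X, Y⟩ - (B : GI))) =
        (A ^ 2 - q * B' ^ 2 * (X ^ 2 + Y ^ 2)) * (A ^ 2 - q * B ^ 2) := by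
        intro X Y
        have hAA : (A : GI) ^ 2 = ((A ^ 2 : ℤ) : GI) := by push_cast; rfl
        rw [hAA]
        simp only [N, Zsqrtd.re_sub, Zsqrtd.im_sub, Zsqrtd.re_mul, Zsqrtd.im_mul,
          Zsqrtd.re_natCast, Zsqrtd.im_natCast, Zsqrtd.re_intCast, Zsqrtd.im_intCast]
        ring
      have h2 := hst (star Θ ^ 2).re (star Θ ^ 2).im
      have h3 : (⟨(star Θ ^ 2).re, (star Θ ^ 2).im⟩ : GI) = star Θ ^ 2 := rfl
      rw [h3] at h2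
      have h4 : (star Θ ^ 2).re ^ 2 + (star Θ ^ 2).im ^ 2 = N Θ ^ 2 := by
        have : (star Θ ^ 2).re ^ 2 + (star Θ ^ 2).im ^ 2 = N (star Θ ^ 2) := rfl
        rw [this, pow_two, N_mul, N_star]; ring
      rw [h2, h4]; ring
    rw [key, mul_comm B' (N Θ), ← h1, hpell]; norm_num
  · simp only [map_sub, map_mul, map_pow, map_natCast, hsint, hA1, hBz]; ring
  · simp only [star_sub, star_mul, star_pow, star_int, star_nat, star_star]
    simp only [map_sub, map_mul, map_pow, map_natCast, hsint, hA1, hBz]; ring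
  · simp only [map_sub, map_mul, map_pow, hsint, hBz]; ring
  · simp only [star_sub, star_mul, star_pow, star_int, star_star]
    simp only [map_sub, map_mul, map_pow, hsint, hBz, hsΘ]; ring

/-- the set of residues of solutions of `f = n` -/
def Rn (q m : ℕ) (w : ℤ) (hw : (m : ℤ) ∣ w ^ 2 + 1) (n : ℤ) (a₁ a₂ s : ZMod m) : Prop :=
  ∃ (A : GI) (S : ℤ), sg m w hw A = a₁ ∧ sg m w hw (star A) = a₂ ∧ ((S : ℤ) : ZMod m) = s ∧
    fq q A S = n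

lemma Rn.swap {q m : ℕ} {w : ℤ} {hw : (m : ℤ) ∣ w ^ 2 + 1} {n : ℤ} {a₁ a₂ s : ZMod m}
    (h : Rn q m w hw n a₁ a₂ s) : Rn q m w hw n a₂ a₁ s := by
  obtain ⟨A, S, h1, h2, h3, h4⟩ := h
  exact ⟨star A, S, h2, by rw [star_star]; exact h1, h3, by rw [← h4]; simp [fq]⟩

/-- the action of the norm one group -/
lemma action {q : ℕ} {G₁ G₂ A : GI} {S : ℤ} (hG : N G₁ - q * N G₂ = 1) :
    ∃ (A' : GI) (S' : ℤ), A' = G₁ ^ 2 * A + 2 * (q : GI) * G₁ * G₂ * (S : GI) +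
      (q : GI) * G₂ ^ 2 * star A ∧
      (S' : GI) = (S : GI) * (G₁ * star G₁ + (q : GI) * (G₂ * star G₂)) + G₁ * star G₂ * A +
        star G₁ * G₂ * star A ∧ fq q A' S' = fq q A S := by
  set T : ℤ := S * (N G₁ + q * N G₂) + 2 * (G₁ * star G₂ * A).re with hT
  refine ⟨G₁ ^ 2 * A + 2 * (q : GI) * G₁ * G₂ * (S : GI) +
      (q : GI) * G₂ ^ 2 * star A, T, rfl, ?_, ?_⟩
  · rw [← N_eq, ← N_eq]
    apply Zsqrtd.ext
    · rw [Zsqrtd.re_intCast, hT]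
      simp only [Zsqrtd.re_add, Zsqrtd.im_add, Zsqrtd.re_mul, Zsqrtd.im_mul, Zsqrtd.re_star,
        Zsqrtd.im_star, Zsqrtd.re_natCast, Zsqrtd.im_natCast, Zsqrtd.re_intCast,
        Zsqrtd.im_intCast]
      ring
    · rw [Zsqrtd.im_intCast]
      simp only [Zsqrtd.re_add, Zsqrtd.im_add, Zsqrtd.re_mul, Zsqrtd.im_mul, Zsqrtd.re_star,
        Zsqrtd.im_star, Zsqrtd.re_natCast, Zsqrtd.im_natCast, Zsqrtd.re_intCast,
        Zsqrtd.im_intCast]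
      ring
  · have e : fq q (G₁ ^ 2 * A + 2 * (q : GI) * G₁ * G₂ * (S : GI) +
      (q : GI) * G₂ ^ 2 * star A) T = (N G₁ - q * N G₂) ^ 2 * fq q A S := by
      rw [hT, pow_two, pow_two]
      have h2 : (2 : GI) = ((2 : ℤ) : GI) := by norm_num
      rw [h2]
      simp only [fq, N, Zsqrtd.re_add, Zsqrtd.im_add, Zsqrtd.re_mul, Zsqrtd.im_mul,
        Zsqrtd.re_star, Zsqrtd.im_star, Zsqrtd.re_natCast, Zsqrtd.im_natCast, Zsqrtd.re_intCast,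
        Zsqrtd.im_intCast]
      ring
    rw [e, hG]; ring

lemma Rn.base {q m : ℕ} {w : ℤ} {hw : (m : ℤ) ∣ w ^ 2 + 1} {n : ℤ}
    {G₁ G₂ : GI} {b₀ : ZMod m} (hG : N G₁ - q * N G₂ = 1) (h1 : sg m w hw G₁ = 1)
    (h2 : sg m w hw (star G₁) = 1) (h3 : sg m w hw G₂ = b₀) (h4 : sg m w hw (star G₂) = 0)
    {a₁ a₂ s : ZMod m} (h : Rn q m w hw n a₁ a₂ s) :
    Rn q m w hw n (a₁ + 2 * q * b₀ * s + q * b₀ ^ 2 * a₂) a₂ (s + b₀ * a₂) := by
  obtain ⟨A, S, hA1, hA2, hS, hf⟩ := h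
  obtain ⟨A', S', hA', hS', hf'⟩ := action (A := A) (S := S) hG
  have hsint : ∀ n : ℤ, sg m w hw (n : GI) = (n : ZMod m) := fun n => map_intCast _ n
  refine ⟨A', S', ?_, ?_, ?_, hf'.trans hf⟩
  · rw [hA']
    simp only [map_add, map_mul, map_pow, map_natCast, hsint, h1, h3, hA1, hA2, hS, map_ofNat]
    ring
  · rw [hA']
    simp only [star_add, star_mul, star_pow, star_int, star_nat, star_star]
    have : star (2 : GI) = 2 := by
      have := star_int 2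
      exact_mod_cast this
    rw [this]
    simp only [map_add, map_mul, map_pow, map_natCast, hsint, h2, h4, hA1, hA2, hS, map_ofNat]
    ring
  · have := congrArg (sg m w hw) hS'
    simp only [map_add, map_mul, map_natCast, hsint, h1, h2, h3, h4, hA1, hA2, hS] at this
    rw [this]; ring

lemma Rn.U {q m : ℕ} (hm : m ≠ 0) {w : ℤ} {hw : (m : ℤ) ∣ w ^ 2 + 1} (hSA : SA q m w hw) {n : ℤ}
    {a₁ a₂ s : ZMod m} (h : Rn q m w hw n a₁ a₂ s) (b : ZMod m) :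
    Rn q m w hw n (a₁ + 2 * q * b * s + q * b ^ 2 * a₂) a₂ (s + b * a₂) := by
  have : NeZero m := ⟨hm⟩
  obtain ⟨G₁, G₂, b₀, hb₀, hG, h1, h2, h3, h4⟩ := hSA
  have hk : ∀ k : ℕ, Rn q m w hw n (a₁ + 2 * q * (k * b₀) * s + q * (k * b₀) ^ 2 * a₂) a₂
      (s + (k * b₀) * a₂) := by
    intro k
    induction k with
    | zero => simpa using h
    | succ k ih =>
      have := Rn.base hG h1 h2 h3 h4 ih
      have e1 : (a₁ + 2 * q * ((k + 1 : ℕ) * b₀) * s + q * ((k + 1 : ℕ) * b₀) ^ 2 * a₂ : ZMod m) =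
        (a₁ + 2 * q * (k * b₀) * s + q * (k * b₀) ^ 2 * a₂) +
          2 * q * b₀ * (s + (k * b₀) * a₂) + q * b₀ ^ 2 * a₂ := by push_cast; ring
      have e2 : (s + ((k + 1 : ℕ) * b₀) * a₂ : ZMod m) = s + (k * b₀) * a₂ + b₀ * a₂ := by
        push_cast; ring
      rw [e1, e2]
      exact this
  obtain ⟨u, hu⟩ := hb₀
  have := hk (b * (u⁻¹ : (ZMod m)ˣ)).val
  rw [ZMod.natCast_zmod_val, ← hu] at this
  simpa [mul_assoc] using this

lemma Rn.L {q m : ℕ} (hm : m ≠ 0) {w : ℤ} {hw : (m : ℤ) ∣ w ^ 2 + 1} (hSA : SA q m w hw) {n : ℤ}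
    {a₁ a₂ s : ZMod m} (h : Rn q m w hw n a₁ a₂ s) (b : ZMod m) :
    Rn q m w hw n a₁ (a₂ + 2 * q * b * s + q * b ^ 2 * a₁) (s + b * a₁) :=
  ((h.swap).U hm hSA b).swap

end Pool.Agent.Lib.H65.TE
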