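import Mathlib
import Pool.Agent.Lib.H65.TE6

/-!
Orbits of the norm one group on residues, and the local-global step.
-/

namespace Pool.Agent.Lib.H65.TE

open Polynomial in
lemma conic2 {p : ℕ} [Fact p.Prime] (h5 : 5 ≤ p) (e g : ZMod p) (he : e ≠ 0) (hg : g ≠ 0) :
    ∃ X Z : ZMod p, Z ≠ 0 ∧ Z ^ 2 - e * X ^ 2 = g := by
  have hp : p.Prime := Fact.out
  have hodd : Fintype.card (ZMod p) % 2 = 1 := by
    rw [ZMod.card]
    rcases hp.eq_two_or_odd with h | h
    · omega
    · exact h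
  have small : ∀ k : ℕ, 0 < k → k < p → ((k : ℕ) : ZMod p) ≠ 0 := by
    intro k hk1 hk2 h
    rw [ZMod.natCast_eq_zero_iff] at h
    exact absurd (Nat.le_of_dvd hk1 h) (by omega)
  have h2 : (2 : ZMod p) ≠ 0 := by exact_mod_cast small 2 (by norm_num) (by omega)
  have h3 : (3 : ZMod p) ≠ 0 := by exact_mod_cast small 3 (by norm_num) (by omega)
  obtain ⟨a, b, hab⟩ := FiniteField.exists_root_sum_quadratic
    (f := C (1 : ZMod p) * X ^ 2 + C 0 * X + C 0)
    (g := C (-e) * X ^ 2 + C 0 * X + C (-g))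
    (degree_quadratic one_ne_zero) (degree_quadratic (neg_ne_zero.mpr he)) hodd
  simp only [eval_add, eval_mul, eval_C, eval_pow, eval_X, zero_mul, add_zero, one_mul] at hab
  have hab' : a ^ 2 - e * b ^ 2 = g := by linear_combination hab
  by_cases ha : a = 0
  · rw [ha] at hab'
    have hb : b ≠ 0 := by
      rintro rfl
      apply hg
      rw [← hab']; ring
    obtain ⟨k, hk0, hk1⟩ : ∃ k : ZMod p, k ≠ 0 ∧ 1 - e * k ^ 2 ≠ 0 := by
      by_cases h : 1 - e * 1 ^ 2 = 0
      · refine ⟨2, h2, ?_⟩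
        have he1 : e = 1 := by linear_combination -h
        rw [he1]
        intro h'
        apply h3
        linear_combination -h'
      · exact ⟨1, one_ne_zero, h⟩
    set l : ZMod p := 2 * e * b * k / (1 - e * k ^ 2) with hl
    have hl' : l * (1 - e * k ^ 2) = 2 * e * b * k := by
      rw [hl]; field_simp
    refine ⟨b + k * l, l, ?_, ?_⟩
    · rw [hl]
      exact div_ne_zero (mul_ne_zero (mul_ne_zero (mul_ne_zero h2 he) hb) hk0) hk1
    · linear_combination l * hl' + hab'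
  · exact ⟨b, a, ha, hab'⟩

lemma conic {p : ℕ} [Fact p.Prime] (h5 : 5 ≤ p) (q a1 a2 s al : ZMod p) (hq : q ≠ 0)
    (hal : al ≠ 0) (hc : a1 * a2 - q * s ^ 2 ≠ 0) :
    ∃ e t : ZMod p, t ≠ 0 ∧ (a2 + 2 * q * s * e + q * a1 * e ^ 2) * (q * al) = t ^ 2 := by
  have hp : p.Prime := Fact.out
  have h2 : (2 : ZMod p) ≠ 0 := by
    intro h
    have h' : ((2 : ℕ) : ZMod p) = 0 := by exact_mod_cast h
    rw [ZMod.natCast_eq_zero_iff] at h'
    exact absurd (Nat.le_of_dvd (by norm_num) h') (by omega)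
  by_cases h1 : a1 = 0
  · have hs : s ≠ 0 := by
      rintro rfl
      apply hc; rw [h1]; ring
    refine ⟨(q * al - a2) / (2 * q * s), q * al, mul_ne_zero hq hal, ?_⟩
    rw [h1]
    field_simp
    ring
  · obtain ⟨X, Z, hZ, hXZ⟩ := conic2 h5 (q * al / a1 * q) (q * al / a1 * (a1 * a2 - q * s ^ 2))
      (mul_ne_zero (div_ne_zero (mul_ne_zero hq hal) h1) hq)
      (mul_ne_zero (div_ne_zero (mul_ne_zero hq hal) h1) hc)
    refine ⟨(X - s) / a1, Z, hZ, ?_⟩
    have : Z ^ 2 = q * al / a1 * (q * X ^ 2 + (a1 * a2 - q * s ^ 2)) := by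
      linear_combination hXZ
    rw [this]
    field_simp
    ring

lemma prim_val {p : ℕ} [Fact p.Prime] (h5 : 5 ≤ p) (q a1 a2 s : ZMod p) (hq : q ≠ 0)
    (h : ¬ (a1 = 0 ∧ a2 = 0 ∧ s = 0)) :
    ∃ e : ZMod p, a2 + 2 * q * s * e + q * a1 * e ^ 2 ≠ 0 := by
  by_contra hcon
  push Not at hcon
  have h0 := hcon 0
  have h1 := hcon 1
  have h2 := hcon (-1)
  have hp : p.Prime := Fact.out
  have two : (2 : ZMod p) ≠ 0 := by
    intro h
    have h' : ((2 : ℕ) : ZMod p) = 0 := by exact_mod_cast h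
    rw [ZMod.natCast_eq_zero_iff] at h'
    exact absurd (Nat.le_of_dvd (by norm_num) h') (by omega)
  have ha2 : a2 = 0 := by linear_combination h0
  have hs : (2 * 2 * q) * s = 0 := by linear_combination h1 - h2
  have hs' : s = 0 := by
    rcases mul_eq_zero.mp hs with h | h
    · exact absurd h (mul_ne_zero (mul_ne_zero two two) hq)
    · exact h
  have ha1 : q * a1 = 0 := by
    rw [ha2, hs'] at h1
    linear_combination h1
  exact h ⟨(mul_eq_zero.mp ha1).resolve_left hq, ha2, hs'⟩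

lemma class_rel {p : ℕ} [Fact p.Prime] (q a1 a2 s e e' : ZMod p)
    (hc : a1 * a2 = q * s ^ 2) (hq : q ≠ 0) (hP : a2 + 2 * q * s * e + q * a1 * e ^ 2 ≠ 0) :
    IsSquare (q * (a2 + 2 * q * s * e + q * a1 * e ^ 2) * (a1 + 2 * q * s * e' + q * a2 * e' ^ 2))
    := by
  by_cases h1 : a1 = 0
  · by_cases h2 : a2 = 0
    · exfalso
      apply hP
      rw [h1] at hc
      have hs : s = 0 := by
        have : q * s ^ 2 = 0 := by rw [← hc]; ring
        exact pow_eq_zero_iff (two_ne_zero) |>.mp ((mul_eq_zero.mp this).resolve_left hq)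
      rw [h1, h2, hs]; ring
    · refine ⟨q * (a2 + q * s * e) * (s + a2 * e') / a2, ?_⟩
      field_simp
      linear_combination ((a2 + q * s * e) ^ 2 + q * e ^ 2 * (q * (s + a2 * e') ^ 2) +
        q * e ^ 2 * (a1 * a2 - q * s ^ 2)) * hc
  · refine ⟨q * (s + a1 * e) * (a1 + q * s * e') / a1, ?_⟩
    field_simp
    linear_combination ((a1 + q * s * e') ^ 2 + q * e' ^ 2 * (q * (s + a1 * e) ^ 2) +
        q * e' ^ 2 * (a1 * a2 - q * s ^ 2)) * hc

end Pool.Agent.Lib.H65.TE
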