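import Mathlib
import Pool.Agent.Lib.H65.TE7

/-!
The local-global step.
-/

namespace Pool.Agent.Lib.H65.TE

open NumberTheorySymbols

theorem Rn.orbit {q m : ℕ} (hm : m ≠ 0) {w : ℤ} {hw : (m : ℤ) ∣ w ^ 2 + 1} (hSA : SA q m w hw)
    {n : ℤ} {a₁ a₂ s al al' e t : ZMod m} (hqu : IsUnit (q : ZMod m)) (hal : IsUnit al)
    (ht : IsUnit t) (hc : al * al' = a₁ * a₂ - q * s ^ 2)
    (hP : (a₂ + 2 * q * s * e + q * a₁ * e ^ 2) * (q * al) = t ^ 2)
    (h : Rn q m w hw n al al' 0) : Rn q m w hw n a₁ a₂ s := by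
  obtain ⟨qi, hqi⟩ := isUnit_iff_exists_inv.mp hqu
  obtain ⟨ali, hali⟩ := isUnit_iff_exists_inv.mp hal
  obtain ⟨ti, hti⟩ := isUnit_iff_exists_inv.mp ht
  set z : ZMod m := q * al * ti with hz
  set b₁ : ZMod m := e - t * qi * ali with hb₁
  set b₂ : ZMod m := al * ti with hb₂
  have hqb₂ : q * b₂ = z := by rw [hz, hb₂]; ring
  have hzb₁ : z * b₁ = z * e - 1 := by
    rw [hz, hb₁]
    linear_combination (-ali * al * ti * t) * hqi + (-ti * t) * hali - hti
  have hz2 : z ^ 2 * (a₂ + 2 * q * s * e + q * a₁ * e ^ 2) = q * al := by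
    rw [hz]
    linear_combination (q * al * ti ^ 2) * hP + (q * al * (t * ti + 1)) * hti
  set s' : ZMod m := s + b₁ * a₁ with hs'
  set a₂' : ZMod m := a₂ + 2 * q * b₁ * s + q * b₁ ^ 2 * a₁ with ha₂'
  have claim1 : a₁ + 2 * q * b₂ * s' + q * b₂ ^ 2 * a₂' = al := by
    have h1 : (q : ZMod m) * (a₁ + 2 * q * b₂ * s' + q * b₂ ^ 2 * a₂') = q * al := by
      have e1 : (q : ZMod m) * (a₁ + 2 * q * b₂ * s' + q * b₂ ^ 2 * a₂') =
          q * a₁ + 2 * q * (q * b₂) * s' + (q * b₂) ^ 2 * a₂' := by ring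
      rw [e1, hqb₂, hs', ha₂']
      linear_combination hz2 + (2 * q * a₁ + 2 * q * s * z + q * a₁ * (z * b₁ + (z * e - 1))) * hzb₁
    calc a₁ + 2 * q * b₂ * s' + q * b₂ ^ 2 * a₂'
        = (q * qi) * (a₁ + 2 * q * b₂ * s' + q * b₂ ^ 2 * a₂') := by rw [hqi, one_mul]
      _ = qi * (q * (a₁ + 2 * q * b₂ * s' + q * b₂ ^ 2 * a₂')) := by ring
      _ = qi * (q * al) := by rw [h1]
      _ = (q * qi) * al := by ring
      _ = al := by rw [hqi, one_mul]
  set s'' : ZMod m := s' + b₂ * a₂' with hs''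
  have claim2 : al' + q * s'' ^ 2 * ali = a₂' := by
    have inv : al * a₂' - q * s'' ^ 2 = al * al' := by
      rw [hc, ← claim1, hs'', hs', ha₂']; ring
    have : al' + q * s'' ^ 2 * ali = (al * ali) * al' + ali * (q * s'' ^ 2) := by
      rw [hali]; ring
    rw [this]
    have h2 : q * s'' ^ 2 = al * a₂' - al * al' := by linear_combination -inv
    rw [h2]
    linear_combination a₂' * hali
  have h1 := h.L hm hSA (s'' * ali)
  have e1 : al' + 2 * q * (s'' * ali) * 0 + q * (s'' * ali) ^ 2 * al = a₂' := by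
    rw [← claim2]
    linear_combination (q * s'' ^ 2 * ali) * hali
  have e2 : 0 + (s'' * ali) * al = s'' := by linear_combination s'' * hali
  rw [e1, e2] at h1
  have h2 := h1.U hm hSA (-b₂)
  have e3 : al + 2 * q * (-b₂) * s'' + q * (-b₂) ^ 2 * a₂' = a₁ := by
    rw [← claim1, hs'']; ring
  have e4 : s'' + -b₂ * a₂' = s' := by rw [hs'']; ring
  rw [e3, e4] at h2
  have h3 := h2.L hm hSA (-b₁)
  have e5 : a₂' + 2 * q * (-b₁) * s' + q * (-b₁) ^ 2 * a₁ = a₂ := by
    rw [hs', ha₂']; ring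
  have e6 : s' + -b₁ * a₁ = s := by rw [hs']; ring
  rwa [e5, e6] at h3

/-- Jacobi symbol one means a unit square -/
lemma jac_one_iff {p : ℕ} (hp : p.Prime) (a : ℤ) :
    J(a | p) = 1 ↔ ∃ s : ℤ, (p : ℤ) ∣ s ^ 2 * a - 1 := by
  have : Fact p.Prime := ⟨hp⟩
  constructor
  · intro h
    obtain ⟨x, hx⟩ := ZMod.isSquare_of_jacobiSym_eq_one h
    have hx0 : x ≠ 0 := by
      rintro rfl
      rw [mul_zero, ZMod.intCast_zmod_eq_zero_iff_dvd] at hx
      have h1 : J(a | p) = 0 := by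
        rw [jacobiSym.eq_zero_iff]
        refine ⟨hp.ne_zero, ?_⟩
        intro h2
        have h3 : (p : ℤ) ∣ 1 := by
          have h4 : (Int.gcd a p : ℤ) = 1 := by exact_mod_cast h2
          rw [← h4]
          exact Int.dvd_coe_gcd hx dvd_rfl
        exact (Nat.prime_iff_prime_int.mp hp).not_isUnit (isUnit_of_dvd_one h3)
      rw [h1] at h
      norm_num at h
    obtain ⟨s, hs⟩ := ZMod.intCast_surjective x⁻¹
    refine ⟨s, ?_⟩
    rw [← ZMod.intCast_zmod_eq_zero_iff_dvd]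
    push_cast
    rw [hs, hx]
    field_simp
    ring
  · rintro ⟨s, hs⟩
    have h1 : J(s ^ 2 * a | p) = 1 := by
      have h2 : (s ^ 2 * a) % (p : ℤ) = 1 % p := Int.ModEq.symm (Int.modEq_iff_dvd.mpr hs)
      rw [jacobiSym.mod_left' h2, jacobiSym.one_left]
    rw [jacobiSym.mul_left, jacobiSym.pow_left] at h1
    rcases jacobiSym.trichotomy s p with h | h | h
    · rw [h] at h1; norm_num at h1
    · rw [h] at h1; linarith
    · rw [h] at h1; linarith

lemma jac_congr {p : ℕ} {a b : ℤ} (h : (p : ℤ) ∣ a - b) : J(a | p) = J(b | p) := by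
  apply jacobiSym.mod_left'
  exact (Int.ModEq.symm (Int.modEq_iff_dvd.mpr h) : a % (p : ℤ) = b % p)

lemma jac_pm {p : ℕ} (hp : p.Prime) {a : ℤ} (h : ¬ (p : ℤ) ∣ a) : J(a | p) = 1 ∨ J(a | p) = -1 := by
  apply jacobiSym.eq_one_or_neg_one
  rw [← Int.isCoprime_iff_gcd_eq_one]
  exact ((prime_coprime_iff hp).mpr h).symm

lemma jac_not_dvd {p : ℕ} (hp : p.Prime) {a : ℤ} (h : J(a | p) = 1) : ¬ (p : ℤ) ∣ a := by
  intro hd
  obtain ⟨s, hs⟩ := (jac_one_iff hp a).mp h
  have : (p : ℤ) ∣ 1 := by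
    have e : (1 : ℤ) = s ^ 2 * a - (s ^ 2 * a - 1) := by ring
    rw [e]; exact dvd_sub (hd.mul_left _) hs
  exact (Nat.prime_iff_prime_int.mp hp).not_isUnit (isUnit_of_dvd_one this)

/-- the polynomial whose values decide the class of a residue vector -/
def Pv (q : ℕ) (w : ℤ) (A : GI) (S e : ℤ) : ℤ :=
  ev w (star A) + 2 * q * S * e + q * ev w A * e ^ 2

lemma ev_mul_ev_star {m : ℕ} {w : ℤ} (hw : (m : ℤ) ∣ w ^ 2 + 1) (x : GI) :
    (m : ℤ) ∣ ev w x * ev w (star x) - N x := hw.trans (ev_star_mul_dvd w x)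

theorem orbit_int {q : ℕ} (hq : q.Prime) {m : ℕ} (hm : m ≠ 0)
    (hg : ∀ p : ℕ, p.Prime → p ∣ m → p % 4 = 1) (hqm : ¬ q ∣ m)
    {w : ℤ} {hw : (m : ℤ) ∣ w ^ 2 + 1} (hSA : SA q m w hw) (A : GI) (S : ℤ) (α : GI)
    (hα : ∀ p : ℕ, p.Prime → p ∣ m → ¬ (p : ℤ) ∣ ev w α)
    (hN : (m : ℤ) ∣ N α - fq q A S)
    (hcl : ∀ p : ℕ, p.Prime → p ∣ m → (p : ℤ) ∣ fq q A S →
      ∃ e : ℤ, J(Pv q w A S e * (q * ev w α) | p) = 1) :
    ∃ (A' : GI) (S' : ℤ), Cg m A' A ∧ (m : ℤ) ∣ S' - S ∧ fq q A' S' = N α := by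
  have h5 : ∀ p : ℕ, p.Prime → p ∣ m → 5 ≤ p := by
    intro p hp hpm
    have := hg p hp hpm
    have := hp.two_le
    omega
  have hqp : ∀ p : ℕ, p.Prime → p ∣ m → ¬ (p : ℤ) ∣ q := by
    intro p hp hpm hd
    have h1 : p ∣ q := by exact_mod_cast hd
    rw [(Nat.prime_dvd_prime_iff_eq hp hq).mp h1] at hpm
    exact hqm hpm
  -- local solutions
  have hloc : ∀ p ∈ m.primeFactors, ∃ e : ℤ, J(Pv q w A S e * (q * ev w α) | p) = 1 := by
    intro p hpm
    have hp := Nat.prime_of_mem_primeFactors hpm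
    have hpd := Nat.dvd_of_mem_primeFactors hpm
    have : Fact p.Prime := ⟨hp⟩
    by_cases hpf : (p : ℤ) ∣ fq q A S
    · exact hcl p hp hpd hpf
    · have hpw : (p : ℤ) ∣ w ^ 2 + 1 := (Int.natCast_dvd_natCast.mpr hpd).trans hw
      obtain ⟨e, t, ht, het⟩ := conic (p := p) (h5 p hp hpd) (q : ZMod p)
        ((ev w A : ℤ) : ZMod p) ((ev w (star A) : ℤ) : ZMod p) ((S : ℤ) : ZMod p)
        ((ev w α : ℤ) : ZMod p)
        (by
          intro h
          apply hqp p hp hpd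
          have h' : ((q : ℤ) : ZMod p) = 0 := by exact_mod_cast h
          exact (ZMod.intCast_zmod_eq_zero_iff_dvd _ _).mp h')
        (by
          intro h
          exact hα p hp hpd ((ZMod.intCast_zmod_eq_zero_iff_dvd _ _).mp h))
        (by
          intro h
          apply hpf
          have h' : ((ev w A * ev w (star A) - q * S ^ 2 : ℤ) : ZMod p) = 0 := by
            push_cast; exact h
          rw [ZMod.intCast_zmod_eq_zero_iff_dvd] at h'
          have e2 : fq q A S = (ev w A * ev w (star A) - q * S ^ 2) -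
              (ev w A * ev w (star A) - N A) := by simp only [fq]; ring
          rw [e2]
          exact dvd_sub h' (ev_mul_ev_star hpw A))
      obtain ⟨e', he'⟩ := ZMod.intCast_surjective e
      obtain ⟨ti, hti⟩ := ZMod.intCast_surjective t⁻¹
      refine ⟨e', (jac_one_iff hp _).mpr ⟨ti, ?_⟩⟩
      rw [← ZMod.intCast_zmod_eq_zero_iff_dvd]
      simp only [Pv]
      push_cast
      rw [he', hti, het]
      field_simp
      ring
  choose! ef hef using hloc
  obtain ⟨e, he⟩ := crt_primes m.primeFactors (fun p hp => Nat.prime_of_mem_primeFactors hp) ef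
  have hJ : ∀ p : ℕ, p.Prime → p ∣ m → J(Pv q w A S e * (q * ev w α) | p) = 1 := by
    intro p hp hpm
    have hmem : p ∈ m.primeFactors := Nat.mem_primeFactors.mpr ⟨hp, hpm, hm⟩
    rw [← hef p hmem]
    apply jac_congr
    obtain ⟨c, hc⟩ := he p hmem
    refine ⟨(2 * q * S * c + q * ev w A * c * (e + ef p)) * (q * ev w α), ?_⟩
    simp only [Pv]
    linear_combination ((2 * q * S + q * ev w A * (e + ef p)) * (q * ev w α)) * hc
  have hodd : m % 2 = 1 := by
    by_contra h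
    have := hg 2 Nat.prime_two (by omega)
    omega
  obtain ⟨t, ht⟩ := sq_mod hm hodd (Pv q w A S e * (q * ev w α))
    (fun p hp hpm => (jac_one_iff hp _).mp (hJ p hp hpm))
  have hmZ : (m : ℤ) ≠ 0 := by exact_mod_cast hm
  have unit_of : ∀ x : ℤ, (∀ p : ℕ, p.Prime → p ∣ m → ¬ (p : ℤ) ∣ x) → IsUnit ((x : ℤ) : ZMod m) := by
    intro x hx
    rw [ZMod.coe_int_isUnit_iff_isCoprime]
    apply isCoprime_of_primes (Or.inl hmZ)
    intro p hp hpm hpx
    exact hx p hp (by exact_mod_cast hpm) hpx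
  have hqu : IsUnit (q : ZMod m) := by
    have := unit_of q hqp
    exact_mod_cast this
  have htu : IsUnit ((t : ℤ) : ZMod m) := by
    apply unit_of
    intro p hp hpm hpt
    apply jac_not_dvd hp (hJ p hp hpm)
    have e1 : Pv q w A S e * (q * ev w α) = t ^ 2 - (t ^ 2 - Pv q w A S e * (q * ev w α)) := by ring
    rw [e1]
    exact dvd_sub (hpt.trans (dvd_pow_self _ two_ne_zero))
      ((Int.natCast_dvd_natCast.mpr hpm).trans ht)
  have hR : Rn q m w hw (N α) (sg m w hw A) (sg m w hw (star A)) ((S : ℤ) : ZMod m) := by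
    apply Rn.orbit hm hSA (al := sg m w hw α) (al' := sg m w hw (star α)) (e := ((e : ℤ) : ZMod m))
      (t := ((t : ℤ) : ZMod m)) hqu _ htu
    · rw [← map_mul, ← map_mul, ← N_eq, ← N_eq, map_intCast, map_intCast]
      have h1 : ((N α - fq q A S : ℤ) : ZMod m) = 0 :=
        (ZMod.intCast_zmod_eq_zero_iff_dvd _ _).mpr hN
      simp only [fq] at h1
      push_cast at h1
      linear_combination h1
    · have h1 : ((t ^ 2 - Pv q w A S e * (q * ev w α) : ℤ) : ZMod m) = 0 :=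
        (ZMod.intCast_zmod_eq_zero_iff_dvd _ _).mpr ht
      simp only [Pv] at h1
      push_cast at h1
      rw [sg_apply, sg_apply, sg_apply]
      linear_combination -h1
    · exact ⟨α, 0, rfl, rfl, by simp, by simp [fq]⟩
    · rw [sg_apply]; exact unit_of _ hα
  obtain ⟨A', S', h1, h2, h3, h4⟩ := hR
  refine ⟨A', S', ?_, ?_, h4⟩
  · have d1 : (m : ℤ) ∣ ev w A' - ev w A := by
      rw [sg_apply, sg_apply] at h1
      rw [← ZMod.intCast_zmod_eq_zero_iff_dvd]
      push_cast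
      rw [h1, sub_self]
    have d2 : (m : ℤ) ∣ ev w (star A') - ev w (star A) := by
      rw [sg_apply, sg_apply] at h2
      rw [← ZMod.intCast_zmod_eq_zero_iff_dvd]
      push_cast
      rw [h2, sub_self]
    have h2c : IsCoprime (m : ℤ) 2 := ⟨1, -(m / 2 : ℤ), by omega⟩
    rw [cg_iff]
    have d3 : (m : ℤ) ∣ 2 * (A'.re - A.re) := by
      have e1 : 2 * (A'.re - A.re) = (ev w A' - ev w A) + (ev w (star A') - ev w (star A)) := by
        simp only [ev, Zsqrtd.re_star, Zsqrtd.im_star]; ring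
      rw [e1]; exact dvd_add d1 d2
    have d4 : (m : ℤ) ∣ 2 * (A'.im - A.im) := by
      have e1 : 2 * (A'.im - A.im) = 2 * (A'.im - A.im) * (w ^ 2 + 1) -
          w * ((ev w A' - ev w A) - (ev w (star A') - ev w (star A))) := by
        simp only [ev, Zsqrtd.re_star, Zsqrtd.im_star]; ring
      rw [e1]
      exact dvd_sub (hw.mul_left _) ((dvd_sub d1 d2).mul_left _)
    exact ⟨h2c.dvd_of_dvd_mul_left d3, h2c.dvd_of_dvd_mul_left d4⟩
  · rw [← ZMod.intCast_zmod_eq_zero_iff_dvd]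
    push_cast
    rw [h3, sub_self]

end Pool.Agent.Lib.H65.TE
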