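import Mathlib
import Pool.Agent.Lib.H65.TE8

/-!
Weights and the choice of auxiliary primes.
-/

namespace Pool.Agent.Lib.H65.TE

open NumberTheorySymbols

/-- completely additive weight -/
noncomputable def Wt (f : ℕ → ℕ) (n : ℤ) : ℕ := n.natAbs.factorization.sum fun p k => k * f p

lemma Wt_mul (f : ℕ → ℕ) {a b : ℤ} (ha : a ≠ 0) (hb : b ≠ 0) : Wt f (a * b) = Wt f a + Wt f b := by
  unfold Wt
  rw [Int.natAbs_mul, Nat.factorization_mul (by simpa using ha) (by simpa using hb)]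
  rw [Finsupp.sum_add_index']
  · intro p; simp
  · intro p k l; ring

lemma Wt_one (f : ℕ → ℕ) : Wt f 1 = 0 := by simp [Wt]

lemma Wt_prime (f : ℕ → ℕ) {p : ℕ} (hp : p.Prime) : Wt f (p : ℤ) = f p := by
  simp [Wt, hp.factorization]

lemma Wt_eq_sum (f : ℕ → ℕ) {n : ℤ} {S : Finset ℕ} (hS : n.natAbs.primeFactors ⊆ S) :
    Wt f n = ∑ p ∈ S, n.natAbs.factorization p * f p := by
  unfold Wt
  rw [Finsupp.sum]
  rw [Nat.support_factorization]
  apply Finset.sum_subset hS
  intro p _ hp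
  have : n.natAbs.factorization p = 0 := by
    rw [← Finsupp.notMem_support_iff, Nat.support_factorization]; exact hp
  rw [this, zero_mul]

/-- weight of good primes -/
def wG (q p : ℕ) : ℕ := if p % 4 = 1 then (if J(q | p) = -1 then 1 else 3) else 0

/-- weight of bad primes -/
def wB (p : ℕ) : ℕ := if p % 4 = 1 then 0 else 1

lemma Wt_wB_zero {n : ℤ} (h : ∀ p : ℕ, p.Prime → (p : ℤ) ∣ n → p % 4 = 1) : Wt wB n = 0 := by
  rw [Wt_eq_sum wB (Finset.Subset.refl _)]
  apply Finset.sum_eq_zero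
  intro p hp
  have h1 := h p (Nat.prime_of_mem_primeFactors hp)
    (Int.natCast_dvd.mpr (Nat.dvd_of_mem_primeFactors hp))
  simp [wB, h1]

/-- Dirichlet with a quadratic residue condition -/
lemma dir {q : ℕ} (hq : q.Prime) (h4 : q % 4 = 3) {M : ℕ} (hM : M ≠ 0) (hModd : M % 2 = 1)
    (hqM : ¬ q ∣ M) (v : ℤ) (hv : IsCoprime v M) (n : ℕ) :
    ∃ (r : ℕ) (ρ : GI), n < r ∧ r.Prime ∧ r % 4 = 1 ∧ J(q | r) = -1 ∧ (M : ℤ) ∣ r - v ∧
      N ρ = r := by
  have hMZ : (M : ℤ) ≠ 0 := by exact_mod_cast hM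
  have hqp := Nat.prime_iff_prime_int.mp hq
  have hq2 : ¬ (q : ℤ) ∣ 2 := by
    intro h
    have h5 : q ∣ 2 := by exact_mod_cast h
    have h6 := (Nat.prime_dvd_prime_iff_eq hq Nat.prime_two).mp h5
    omega
  have hqE : ∀ p ∈ ({q} : Finset ℕ), ¬ (p : ℤ) ∣ 4 * M := by
    intro p hp hd
    rw [Finset.mem_singleton] at hp
    subst hp
    rcases prime_dvd_mul hq hd with h | h
    · exact hq2 (prime_dvd_pow hq (k := 2) (by norm_num; exact h))
    · exact hqM (by exact_mod_cast h)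
  obtain ⟨k, hk1, hk2⟩ := crt_mod (4 * M) {q}
    (by intro p hp; rw [Finset.mem_singleton] at hp; rw [hp]; exact hq) hqE (fun _ => -1)
    (v + (1 - v) * M ^ 2)
  have hkq : (q : ℤ) ∣ k + 1 := by
    have := hk2 q (Finset.mem_singleton_self _)
    simpa using this
  have hkM : (M : ℤ) ∣ k - v := by
    have h1 : (M : ℤ) ∣ k - (v + (1 - v) * M ^ 2) := (dvd_mul_left _ _).trans hk1
    have e : k - v = (k - (v + (1 - v) * M ^ 2)) + M * ((1 - v) * M) := by ring
    rw [e]
    exact dvd_add h1 (dvd_mul_right _ _)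
  have hk4 : k % 4 = 1 := by
    have h1 : (4 : ℤ) ∣ k - (v + (1 - v) * M ^ 2) := (dvd_mul_right _ _).trans hk1
    obtain ⟨j, hj⟩ : ∃ j : ℤ, (M : ℤ) = 2 * j + 1 := ⟨M / 2, by omega⟩
    have e : (v + (1 - v) * M ^ 2 : ℤ) = 1 + 4 * ((1 - v) * (j ^ 2 + j)) := by
      rw [hj]; ring
    rw [e] at h1
    omega
  have hcop : IsCoprime k (4 * M * q) := by
    apply isCoprime_of_primes (Or.inr (by
      have : (q : ℤ) ≠ 0 := by exact_mod_cast hq.ne_zero
      positivity))
    intro p hp hpk hpL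
    have hpi := Nat.prime_iff_prime_int.mp hp
    rcases prime_dvd_mul hp hpL with h | h
    · rcases prime_dvd_mul hp h with h | h
      · have h5 : (p : ℤ) ∣ 2 := prime_dvd_pow hp (k := 2) (by norm_num; exact h)
        have h6 : p ∣ 2 := by exact_mod_cast h5
        have h7 := (Nat.prime_dvd_prime_iff_eq hp Nat.prime_two).mp h6
        rw [h7] at hpk
        push_cast at hpk
        omega
      · have h5 : (p : ℤ) ∣ v := by
          have e : v = k - (k - v) := by ring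
          rw [e]; exact dvd_sub hpk (h.trans hkM)
        exact hpi.not_isUnit (hv.isUnit_of_dvd' h5 h)
    · have h5 : p = q := (Nat.prime_dvd_prime_iff_eq hp hq).mp (by exact_mod_cast h)
      rw [h5] at hpk
      have : (q : ℤ) ∣ 1 := by
        have e : (1 : ℤ) = (k + 1) - k := by ring
        rw [e]; exact dvd_sub hkq hpk
      exact hqp.not_isUnit (isUnit_of_dvd_one this)
  obtain ⟨r, ρ, hrn, hr, hr4, hrL, hρ⟩ := exists_norm_prime n (L := 4 * M * q) (a := k)
    (by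
      have : (q : ℤ) ≠ 0 := by exact_mod_cast hq.ne_zero
      positivity) ⟨M * q, by ring⟩ hk4 hcop
  refine ⟨r, ρ, hrn, hr, hr4, ?_, ?_, hρ⟩
  · have hqodd : Odd q := Nat.odd_iff.mpr (by omega)
    rw [← jacobiSym.quadratic_reciprocity_one_mod_four hr4 hqodd]
    have h1 : (q : ℤ) ∣ (r : ℤ) - (-1) := by
      have e : (r : ℤ) - (-1) = (r - k) + (k + 1) := by ring
      rw [e]
      exact dvd_add ((dvd_mul_left _ _).trans hrL) hkq
    rw [jac_congr h1, jacobiSym.at_neg_one hqodd]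
    exact ZMod.χ₄_nat_three_mod_four h4
  · have e : (r : ℤ) - v = (r - k) + (k - v) := by ring
    rw [e]
    refine dvd_add (Dvd.dvd.trans ⟨4 * q, by ring⟩ hrL) hkM

lemma exists_nonres {p : ℕ} (hp : p.Prime) (hp2 : p ≠ 2) : ∃ v : ℤ, J(v | p) = -1 := by
  have : Fact p.Prime := ⟨hp⟩
  obtain ⟨a, ha⟩ := FiniteField.exists_nonsquare (F := ZMod p) (by rw [ZMod.ringChar_zmod_n]; exact hp2)
  obtain ⟨v, hv⟩ := ZMod.intCast_surjective a
  refine ⟨v, ?_⟩
  exact ZMod.nonsquare_iff_jacobiSym_eq_neg_one.mpr (by rw [hv]; exact ha)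

lemma X_mul {p : ℕ} {w : ℤ} (hpw : (p : ℤ) ∣ w ^ 2 + 1) (x y : GI) :
    J(ev w (x * y) | p) = J(ev w x | p) * J(ev w y | p) := by
  rw [← jacobiSym.mul_left]
  exact jac_congr (hpw.trans (ev_mul_dvd w x y))

lemma X_star {p : ℕ} {w : ℤ} (hpw : (p : ℤ) ∣ w ^ 2 + 1) (x : GI) :
    J(ev w x | p) * J(ev w (star x) | p) = J(N x | p) := by
  rw [← jacobiSym.mul_left]
  exact jac_congr (hpw.trans (ev_star_mul_dvd w x))

lemma not_dvd_ev {p : ℕ} {w : ℤ} (hpw : (p : ℤ) ∣ w ^ 2 + 1) {x : GI} (h : ¬ (p : ℤ) ∣ N x) :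
    ¬ (p : ℤ) ∣ ev w x := by
  intro hd
  apply h
  have e : N x = ev w x * ev w (star x) - (ev w x * ev w (star x) - N x) := by ring
  rw [e]
  exact dvd_sub (hd.mul_right _) (hpw.trans (ev_star_mul_dvd w x))

theorem select {q : ℕ} (hq : q.Prime) (h4 : q % 4 = 3) {m : ℕ} (hm : m ≠ 0)
    (hg : ∀ p : ℕ, p.Prime → p ∣ m → p % 4 = 1) (hqm : ¬ q ∣ m)
    {w : ℤ} (hw : (m : ℤ) ∣ w ^ 2 + 1) (T : Finset ℕ) (hT : T ⊆ m.primeFactors) :
    ∃ ρ₀ : GI, N ρ₀ ≠ 0 ∧ Wt (wG q) (N ρ₀) = T.card ∧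
      (∀ p : ℕ, p.Prime → (p : ℤ) ∣ N ρ₀ → p % 4 = 1) ∧
      (∀ p : ℕ, p.Prime → p ∣ m → ¬ (p : ℤ) ∣ N ρ₀) ∧
      ∀ τ : ℕ → ℤ, (∀ p ∈ T, τ p = 1 ∨ τ p = -1) → ∃ ρ : GI, N ρ = N ρ₀ ∧
        (∀ p ∈ T, J(ev w ρ | p) = τ p) ∧
        (∀ p ∈ m.primeFactors, p ∉ T → J(ev w ρ | p) = J(ev w ρ₀ | p)) := by
  classical
  have hodd : m % 2 = 1 := by
    by_contra h
    have := hg 2 Nat.prime_two (by omega)
    omega
  have hpw : ∀ p : ℕ, p ∣ m → (p : ℤ) ∣ w ^ 2 + 1 := fun p hp =>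
    (Int.natCast_dvd_natCast.mpr hp).trans hw
  induction T using Finset.induction_on with
  | empty =>
    refine ⟨1, by simp, by simp [Wt_one], ?_, ?_, ?_⟩
    · intro p hp hd
      rw [N_one] at hd
      exact absurd (isUnit_of_dvd_one hd) (Nat.prime_iff_prime_int.mp hp).not_isUnit
    · intro p hp _ hd
      rw [N_one] at hd
      exact absurd (isUnit_of_dvd_one hd) (Nat.prime_iff_prime_int.mp hp).not_isUnit
    · intro τ _
      exact ⟨1, rfl, by simp, fun _ _ _ => rfl⟩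
  | insert j T hjT ih =>
    obtain ⟨ρ₀, h0, hW, hgood, hcop, hfam⟩ := ih (fun p hp => hT (Finset.mem_insert_of_mem hp))
    have hjm := hT (Finset.mem_insert_self j T)
    have hj := Nat.prime_of_mem_primeFactors hjm
    have hjd := Nat.dvd_of_mem_primeFactors hjm
    have hj2 : j ≠ 2 := by rintro rfl; have := hg 2 hj hjd; omega
    obtain ⟨vj, hvj⟩ := exists_nonres hj hj2
    obtain ⟨v, hv⟩ := crt_primes m.primeFactors (fun p hp => Nat.prime_of_mem_primeFactors hp)
      (fun p => if p = j then vj else 1)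
    have hvj' : (j : ℤ) ∣ v - vj := by simpa using hv j hjm
    have hv1 : ∀ p : ℕ, p.Prime → p ∣ m → p ≠ j → (p : ℤ) ∣ v - 1 := by
      intro p hp hpm hpj
      have := hv p (Nat.mem_primeFactors.mpr ⟨hp, hpm, hm⟩)
      simpa [hpj] using this
    have hvjJ : J(v | j) = -1 := by rw [jac_congr hvj', hvj]
    have hvcop : ∀ p : ℕ, p.Prime → p ∣ m → ¬ (p : ℤ) ∣ v := by
      intro p hp hpm hd
      by_cases hpj : p = j
      · rw [hpj] at hd
        have h1 : J(v | j) = J(0 | j) := jac_congr (by simpa using hd)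
        rw [hvjJ, jacobiSym.zero_left hj.one_lt] at h1
        norm_num at h1
      · have : (p : ℤ) ∣ 1 := by
          have e : (1 : ℤ) = v - (v - 1) := by ring
          rw [e]; exact dvd_sub hd (hv1 p hp hpm hpj)
        exact (Nat.prime_iff_prime_int.mp hp).not_isUnit (isUnit_of_dvd_one this)
    obtain ⟨r, ρj, -, hr, hr4, hrJ, hrm, hρj⟩ := dir hq h4 hm hodd hqm v (by
      apply isCoprime_of_primes (Or.inr (by exact_mod_cast hm))
      intro p hp hpv hpm
      exact hvcop p hp (by exact_mod_cast hpm) hpv) 0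
    have hrcop : ∀ p : ℕ, p.Prime → p ∣ m → ¬ (p : ℤ) ∣ (r : ℤ) := by
      intro p hp hpm hd
      apply hvcop p hp hpm
      have e : v = r - (r - v) := by ring
      rw [e]
      exact dvd_sub hd ((Int.natCast_dvd_natCast.mpr hpm).trans hrm)
    have hJrj : J(r | j) = -1 := by
      rw [← hvjJ]
      exact jac_congr ((Int.natCast_dvd_natCast.mpr hjd).trans hrm)
    have hJrp : ∀ p : ℕ, p.Prime → p ∣ m → p ≠ j → J(r | p) = 1 := by
      intro p hp hpm hpj
      have h1 : (p : ℤ) ∣ (r : ℤ) - 1 := by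
        have e : (r : ℤ) - 1 = (r - v) + (v - 1) := by ring
        rw [e]
        exact dvd_add ((Int.natCast_dvd_natCast.mpr hpm).trans hrm) (hv1 p hp hpm hpj)
      rw [jac_congr h1, jacobiSym.one_left]
    have hr0 : (r : ℤ) ≠ 0 := by exact_mod_cast hr.ne_zero
    refine ⟨ρ₀ * ρj, ?_, ?_, ?_, ?_, ?_⟩
    · rw [N_mul, hρj]; exact mul_ne_zero h0 hr0
    · rw [N_mul, hρj, Wt_mul _ h0 hr0, hW, Wt_prime _ hr, Finset.card_insert_of_notMem hjT]
      simp [wG, hr4, hrJ]
    · intro p hp hd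
      rw [N_mul, hρj] at hd
      rcases prime_dvd_mul hp hd with h | h
      · exact hgood p hp h
      · have : p = r := (Nat.prime_dvd_prime_iff_eq hp hr).mp (by exact_mod_cast h)
        rw [this]; exact hr4
    · intro p hp hpm hd
      rw [N_mul, hρj] at hd
      rcases prime_dvd_mul hp hd with h | h
      · exact hcop p hp hpm h
      · exact hrcop p hp hpm h
    · intro τ hτ
      -- signs
      have pm0 : J(ev w ρ₀ | j) = 1 ∨ J(ev w ρ₀ | j) = -1 :=
        jac_pm hj (not_dvd_ev (hpw j hjd) (hcop j hj hjd))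
      have pmj : ∀ p : ℕ, p.Prime → p ∣ m → ∀ σ : GI, N σ = r →
          (J(ev w σ | p) = 1 ∨ J(ev w σ | p) = -1) := by
        intro p hp hpm σ hσ
        apply jac_pm hp (not_dvd_ev (hpw p hpm) _)
        rw [hσ]; exact hrcop p hp hpm
      have hsj := X_star (hpw j hjd) ρj
      rw [hρj, hJrj] at hsj
      obtain ⟨σ, hσN, hσj, hσp⟩ : ∃ σ : GI, N σ = r ∧ J(ev w σ | j) = τ j * J(ev w ρ₀ | j) ∧
          ∀ p : ℕ, p.Prime → p ∣ m → p ≠ j → J(ev w σ | p) = J(ev w ρj | p) := by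
        by_cases h : J(ev w ρj | j) = τ j * J(ev w ρ₀ | j)
        · exact ⟨ρj, hρj, h, fun _ _ _ _ => rfl⟩
        · refine ⟨star ρj, by rw [N_star, hρj], ?_, ?_⟩
          · have ht := hτ j (Finset.mem_insert_self j T)
            have h1 := pmj j hj hjd ρj hρj
            have h2 := pmj j hj hjd (star ρj) (by rw [N_star, hρj])
            rcases ht with ht | ht <;> rcases pm0 with h3 | h3 <;> rcases h1 with h1 | h1 <;>
              rcases h2 with h2 | h2 <;> simp_all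
          · intro p hp hpm hpj
            have h1 := X_star (hpw p hpm) ρj
            rw [hρj, hJrp p hp hpm hpj] at h1
            have h2 := pmj p hp hpm ρj hρj
            have h3 := pmj p hp hpm (star ρj) (by rw [N_star, hρj])
            rcases h2 with h2 | h2 <;> rcases h3 with h3 | h3 <;> simp_all
      have pmσ : ∀ p : ℕ, p.Prime → p ∣ m → (J(ev w σ | p) = 1 ∨ J(ev w σ | p) = -1) :=
        fun p hp hpm => pmj p hp hpm σ hσN
      obtain ⟨ρ, hρN, hρT, hρn⟩ := hfam (fun p => τ p * J(ev w σ | p)) (by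
        intro p hp
        have hpm := hT (Finset.mem_insert_of_mem hp)
        have h1 := hτ p (Finset.mem_insert_of_mem hp)
        have h2 := pmσ p (Nat.prime_of_mem_primeFactors hpm) (Nat.dvd_of_mem_primeFactors hpm)
        rcases h1 with h1 | h1 <;> rcases h2 with h2 | h2 <;> rw [h1, h2] <;> norm_num)
      refine ⟨ρ * σ, by rw [N_mul, N_mul, hρN, hσN, hρj], ?_, ?_⟩
      · intro p hp
        rw [Finset.mem_insert] at hp
        rcases hp with rfl | hp
        · rw [X_mul (hpw p hjd), hρn p hjm hjT, hσj]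
          rcases pm0 with h | h <;> rw [h] <;> ring
        · have hpm := hT (Finset.mem_insert_of_mem hp)
          have h2 := pmσ p (Nat.prime_of_mem_primeFactors hpm) (Nat.dvd_of_mem_primeFactors hpm)
          rw [X_mul (hpw p (Nat.dvd_of_mem_primeFactors hpm)), hρT p hp]
          rcases h2 with h | h <;> rw [h] <;> ring
      · intro p hpm hp
        rw [Finset.mem_insert, not_or] at hp
        rw [X_mul (hpw p (Nat.dvd_of_mem_primeFactors hpm)),
          X_mul (hpw p (Nat.dvd_of_mem_primeFactors hpm)), hρn p hpm hp.2,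
          hσp p (Nat.prime_of_mem_primeFactors hpm) (Nat.dvd_of_mem_primeFactors hpm) hp.1]

end Pool.Agent.Lib.H65.TE
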