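import Mathlib
import Pool.Agent.Lib.H65.TE9

/-!
Lemma G: denominators with good primes only.
-/

namespace Pool.Agent.Lib.H65.TE

open NumberTheorySymbols

lemma ev_both {w : ℤ} {x : GI} {p : ℕ} (hp : p.Prime)
    (hp2 : p ≠ 2) (hpw : (p : ℤ) ∣ w ^ 2 + 1) (h : (p : ℤ) ∣ ev w x)
    (h' : (p : ℤ) ∣ ev w (star x)) : (p : ℤ) ∣ x.re ∧ (p : ℤ) ∣ x.im := by
  have hp2' : ¬ (p : ℤ) ∣ 2 := by
    intro h
    have h5 : p ∣ 2 := by exact_mod_cast h
    exact hp2 ((Nat.prime_dvd_prime_iff_eq hp Nat.prime_two).mp h5)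
  have hw : ¬ (p : ℤ) ∣ w := by
    intro hd
    have : (p : ℤ) ∣ 1 := by
      have e : (1 : ℤ) = (w ^ 2 + 1) - w * w := by ring
      rw [e]; exact dvd_sub hpw (hd.mul_left _)
    exact (Nat.prime_iff_prime_int.mp hp).not_isUnit (isUnit_of_dvd_one this)
  have h1 : (p : ℤ) ∣ 2 * x.re := by
    have e : 2 * x.re = ev w x + ev w (star x) := by
      simp only [ev, Zsqrtd.re_star, Zsqrtd.im_star]; ring
    rw [e]; exact dvd_add h h'
  have h2 : (p : ℤ) ∣ 2 * (w * x.im) := by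
    have e : 2 * (w * x.im) = ev w x - ev w (star x) := by
      simp only [ev, Zsqrtd.re_star, Zsqrtd.im_star]; ring
    rw [e]; exact dvd_sub h h'
  exact ⟨(prime_dvd_mul hp h1).resolve_left hp2',
    (prime_dvd_mul hp ((prime_dvd_mul hp h2).resolve_left hp2')).resolve_left hw⟩

lemma exists_val {q : ℕ} {w : ℤ} {p : ℕ} (hp : p.Prime) (h5 : 5 ≤ p)
    (hpq : ¬ (p : ℤ) ∣ q) (hpw : (p : ℤ) ∣ w ^ 2 + 1) (A : GI) (S : ℤ)
    (h : ¬ ((p : ℤ) ∣ A.re ∧ (p : ℤ) ∣ A.im ∧ (p : ℤ) ∣ S)) :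
    ∃ e : ℤ, ¬ (p : ℤ) ∣ Pv q w A S e := by
  have : Fact p.Prime := ⟨hp⟩
  obtain ⟨e, he⟩ := prim_val (p := p) h5 (q : ZMod p)
        ((ev w A : ℤ) : ZMod p) ((ev w (star A) : ℤ) : ZMod p) ((S : ℤ) : ZMod p)
    (by
      intro h
      apply hpq
      have h' : ((q : ℤ) : ZMod p) = 0 := by exact_mod_cast h
      exact (ZMod.intCast_zmod_eq_zero_iff_dvd _ _).mp h')
    (by
      rintro ⟨h1, h2, h3⟩
      rw [ZMod.intCast_zmod_eq_zero_iff_dvd] at h1 h2 h3
      obtain ⟨h4, h5⟩ := ev_both hp (by omega) hpw h1 h2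
      exact h ⟨h4, h5, h3⟩)
  obtain ⟨e', he'⟩ := ZMod.intCast_surjective e
  refine ⟨e', ?_⟩
  intro hd
  apply he
  rw [← he', ← Int.cast_natCast (R := ZMod p) q]
  rw [← ZMod.intCast_zmod_eq_zero_iff_dvd] at hd
  rw [← hd]
  simp only [Pv]
  push_cast
  ring

lemma ev_mul_not_dvd {w : ℤ} {p : ℕ} (hp : p.Prime) (hpw : (p : ℤ) ∣ w ^ 2 + 1) {x y : GI}
    (hx : ¬ (p : ℤ) ∣ ev w x) (hy : ¬ (p : ℤ) ∣ ev w y) : ¬ (p : ℤ) ∣ ev w (x * y) := by
  intro hd
  have h1 : (p : ℤ) ∣ ev w x * ev w y := by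
    have e : ev w x * ev w y = ev w (x * y) - (ev w (x * y) - ev w x * ev w y) := by ring
    rw [e]
    exact dvd_sub hd (hpw.trans (ev_mul_dvd w x y))
  rcases prime_dvd_mul hp h1 with h | h
  · exact hx h
  · exact hy h

/-- the class relation between a vector and its conjugate -/
lemma class_rel_int {q : ℕ} {w : ℤ} {p : ℕ} (hp : p.Prime)
    (hpq : ¬ (p : ℤ) ∣ q) (hpw : (p : ℤ) ∣ w ^ 2 + 1) (A : GI) (S : ℤ)
    (hf : (p : ℤ) ∣ fq q A S) {e e' : ℤ} (he : ¬ (p : ℤ) ∣ Pv q w A S e)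
    (he' : ¬ (p : ℤ) ∣ Pv q w (star A) S e') :
    J(q * Pv q w A S e | p) * J(q * Pv q w (star A) S e' | p) = J(q | p) := by
  have : Fact p.Prime := ⟨hp⟩
  have hsq : IsSquare (((q * Pv q w A S e * Pv q w (star A) S e' : ℤ)) : ZMod p) := by
    have hc : ((ev w A : ℤ) : ZMod p) * ((ev w (star A) : ℤ) : ZMod p) =
        (q : ZMod p) * ((S : ℤ) : ZMod p) ^ 2 := by
      have h1 : (p : ℤ) ∣ ev w A * ev w (star A) - q * S ^ 2 := by
        have e2 : ev w A * ev w (star A) - q * S ^ 2 = fq q A S +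
              (ev w A * ev w (star A) - N A) := by simp only [fq]; ring
        rw [e2]
        exact dvd_add hf (hpw.trans (ev_star_mul_dvd w A))
      rw [← ZMod.intCast_zmod_eq_zero_iff_dvd] at h1
      push_cast at h1
      linear_combination h1
    have hq0 : (q : ZMod p) ≠ 0 := by
      intro h
      apply hpq
      have h' : ((q : ℤ) : ZMod p) = 0 := by exact_mod_cast h
      exact (ZMod.intCast_zmod_eq_zero_iff_dvd _ _).mp h'
    have hP0 : ((ev w (star A) : ℤ) : ZMod p) + 2 * q * ((S : ℤ) : ZMod p) * ((e : ℤ) : ZMod p) +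
        q * ((ev w A : ℤ) : ZMod p) * ((e : ℤ) : ZMod p) ^ 2 ≠ 0 := by
      intro h
      apply he
      rw [← ZMod.intCast_zmod_eq_zero_iff_dvd]
      simp only [Pv]
      push_cast
      exact h
    have := class_rel (p := p) (q : ZMod p) ((ev w A : ℤ) : ZMod p)
      ((ev w (star A) : ℤ) : ZMod p) ((S : ℤ) : ZMod p) ((e : ℤ) : ZMod p) ((e' : ℤ) : ZMod p)
      hc hq0 hP0
    simp only [Pv, star_star]
    push_cast
    exact this
  have h1 : J(q * Pv q w A S e * Pv q w (star A) S e' | p) = 1 := by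
    rcases jac_pm hp (a := q * Pv q w A S e * Pv q w (star A) S e') (by
      intro hd
      rcases prime_dvd_mul hp hd with h | h
      · rcases prime_dvd_mul hp h with h | h
        · exact hpq h
        · exact he h
      · exact he' h) with h | h
    · exact h
    · exact absurd hsq (ZMod.nonsquare_iff_jacobiSym_eq_neg_one.mp h)
  have hq2 : J(q | p) * J(q | p) = 1 := by
    rcases jac_pm hp hpq with h | h <;> rw [h] <;> norm_num
  rw [jacobiSym.mul_left, jacobiSym.mul_left] at h1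
  rw [jacobiSym.mul_left, jacobiSym.mul_left]
  calc J(q | p) * J(Pv q w A S e | p) * (J(q | p) * J(Pv q w (star A) S e' | p))
      = J(q | p) * (J(q | p) * J(Pv q w A S e | p) * J(Pv q w (star A) S e' | p)) := by ring
    _ = J(q | p) := by rw [h1, mul_one]

lemma weight_ii {q : ℕ} {m g : ℕ} (hm : m ≠ 0) (hg : g ∣ m)
    (h1 : ∀ p : ℕ, p.Prime → p ∣ m → p % 4 = 1) (p₀ : ℕ) (hp₀ : p₀.Prime) (hp₀m : p₀ ∣ m)
    (h : J(q | p₀) ≠ -1 ∨ g.factorization p₀ < m.factorization p₀) :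
    Wt (wG q) (g : ℤ) + 1 + g.primeFactors.card < 2 * Wt (wG q) (m : ℤ) := by
  classical
  have hg0 : g ≠ 0 := by rintro rfl; exact hm (Nat.eq_zero_of_zero_dvd hg)
  have hsub : g.primeFactors ⊆ m.primeFactors := Nat.primeFactors_mono hg hm
  have e1 : Wt (wG q) (g : ℤ) = ∑ p ∈ m.primeFactors, g.factorization p * wG q p := by
    have := Wt_eq_sum (wG q) (n := (g : ℤ)) (S := m.primeFactors) (by simpa using hsub)
    simpa using this
  have e2 : Wt (wG q) (m : ℤ) = ∑ p ∈ m.primeFactors, m.factorization p * wG q p := by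
    have := Wt_eq_sum (wG q) (n := (m : ℤ)) (S := m.primeFactors) (by simp)
    simpa using this
  have e3 : g.primeFactors.card = ∑ p ∈ m.primeFactors, (if p ∈ g.primeFactors then 1 else 0) := by
    rw [Finset.sum_ite_mem, Finset.inter_eq_right.mpr hsub]; simp
  have hp₀mem : p₀ ∈ m.primeFactors := Nat.mem_primeFactors.mpr ⟨hp₀, hp₀m, hm⟩
  have e4 : (2 : ℕ) = ∑ p ∈ m.primeFactors, (if p = p₀ then 2 else 0) := by
    rw [Finset.sum_ite_eq' m.primeFactors p₀ (fun _ => 2), if_pos hp₀mem]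
  have hle : ∑ p ∈ m.primeFactors, (g.factorization p * wG q p +
      (if p ∈ g.primeFactors then 1 else 0) + (if p = p₀ then 2 else 0)) ≤
      ∑ p ∈ m.primeFactors, 2 * (m.factorization p * wG q p) := by
    apply Finset.sum_le_sum
    intro p hp
    have hpp := Nat.prime_of_mem_primeFactors hp
    have hpm := Nat.dvd_of_mem_primeFactors hp
    have hvm : 1 ≤ m.factorization p := (hpp.dvd_iff_one_le_factorization hm).mp hpm
    have hvg : g.factorization p ≤ m.factorization p :=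
      (Nat.factorization_le_iff_dvd hg0 hm).mpr hg p
    have hw : 1 ≤ wG q p := by
      simp only [wG, h1 p hpp hpm, if_true]
      split_ifs <;> norm_num
    have hmw : 1 ≤ m.factorization p * wG q p := Nat.mul_pos hvm hw
    have hgw : g.factorization p * wG q p ≤ m.factorization p * wG q p :=
      Nat.mul_le_mul_right _ hvg
    by_cases hpg : p ∈ g.primeFactors
    · have hvg1 : 1 ≤ g.factorization p :=
        (hpp.dvd_iff_one_le_factorization hg0).mp (Nat.dvd_of_mem_primeFactors hpg)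
      by_cases hpp₀ : p = p₀
      · rw [if_pos hpg, if_pos hpp₀]
        rcases h with h | h
        · have hw3 : wG q p = 3 := by
            simp only [wG, h1 p hpp hpm, if_true]
            rw [hpp₀, if_neg h]
          rw [hw3] at *
          omega
        · rw [← hpp₀] at h
          have h5 : (g.factorization p + 1) * wG q p ≤ m.factorization p * wG q p :=
            Nat.mul_le_mul_right _ h
          have h6 : 2 * wG q p ≤ m.factorization p * wG q p :=
            Nat.mul_le_mul_right _ (by omega)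
          rw [add_mul, one_mul] at h5
          omega
      · rw [if_pos hpg, if_neg hpp₀]
        omega
    · have hvg0 : g.factorization p = 0 := by
        rw [← Finsupp.notMem_support_iff, Nat.support_factorization]; exact hpg
      rw [if_neg hpg, hvg0]
      split_ifs <;> omega
  rw [Finset.sum_add_distrib, Finset.sum_add_distrib, ← e1, ← e3, ← e4, ← Finset.mul_sum,
    ← e2] at hle
  omega

lemma weight_i {q : ℕ} {m : ℕ} (hm : m ≠ 0)
    (h1 : ∀ p : ℕ, p.Prime → p ∣ m → p % 4 = 1) :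
    m.primeFactors.card ≤ Wt (wG q) (m : ℤ) := by
  have e2 : Wt (wG q) (m : ℤ) = ∑ p ∈ m.primeFactors, m.factorization p * wG q p := by
    have := Wt_eq_sum (wG q) (n := (m : ℤ)) (S := m.primeFactors) (by simp)
    simpa using this
  rw [e2, Finset.card_eq_sum_ones]
  apply Finset.sum_le_sum
  intro p hp
  have hpp := Nat.prime_of_mem_primeFactors hp
  have hpm := Nat.dvd_of_mem_primeFactors hp
  have hvm : 1 ≤ m.factorization p := (hpp.dvd_iff_one_le_factorization hm).mp hpm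
  have hw : 1 ≤ wG q p := by
    simp only [wG, h1 p hpp hpm, if_true]
    split_ifs <;> norm_num
  exact Nat.mul_pos hvm hw

/-- Lemma G -/
theorem lemmaG {q : ℕ} (hq : q.Prime) (h4 : q % 4 = 3) {m : ℕ} (hm1 : 1 < m)
    (hg : ∀ p : ℕ, p.Prime → p ∣ m → p % 4 = 1) (A : GI) (S : ℤ)
    (hprim : ∀ p : ℕ, p.Prime → p ∣ m → ¬ ((p : ℤ) ∣ A.re ∧ (p : ℤ) ∣ A.im ∧ (p : ℤ) ∣ S)) :
    ∃ (A' : GI) (S' : ℤ), Cg m A' A ∧ (m : ℤ) ∣ S' - S ∧ fq q A' S' ≠ 0 ∧
      Wt wB (fq q A' S') = 0 ∧ Wt (wG q) (fq q A' S') < 2 * Wt (wG q) m := by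
  classical
  have hm : m ≠ 0 := by omega
  have hmZ : (m : ℤ) ≠ 0 := by exact_mod_cast hm
  have hqm : ¬ q ∣ m := by
    intro hd
    have := hg q hq hd
    omega
  have h5 : ∀ p : ℕ, p.Prime → p ∣ m → 5 ≤ p := by
    intro p hp hpm
    have := hg p hp hpm
    have := hp.two_le
    omega
  have hqp : ∀ p : ℕ, p.Prime → p ∣ m → ¬ (p : ℤ) ∣ q := by
    intro p hp hpm hd
    have h1 : p ∣ q := by exact_mod_cast hd
    rw [(Nat.prime_dvd_prime_iff_eq hp hq).mp h1] at hpm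
    exact hqm hpm
  obtain ⟨w, hw, hSA⟩ := exists_SA hq hm hg
  have hpw : ∀ p : ℕ, p ∣ m → (p : ℤ) ∣ w ^ 2 + 1 := fun p hp =>
    (Int.natCast_dvd_natCast.mpr hp).trans hw
  set c : ℤ := fq q A S with hc
  set g : ℕ := Int.gcd c m with hgdef
  have hgm : g ∣ m := by
    have : (g : ℤ) ∣ (m : ℤ) := Int.gcd_dvd_right ..
    exact_mod_cast this
  have hgc : (g : ℤ) ∣ c := Int.gcd_dvd_left ..
  have hg0 : g ≠ 0 := by rintro h; rw [h] at hgm; exact hm (Nat.eq_zero_of_zero_dvd hgm)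
  have hgZ : (g : ℤ) ≠ 0 := by exact_mod_cast hg0
  have hgpc : ∀ p : ℕ, p ∣ m → (p : ℤ) ∣ c → p ∣ g := by
    intro p hpm hpc
    have : (p : ℤ) ∣ (Int.gcd c m : ℤ) := Int.dvd_coe_gcd hpc (Int.natCast_dvd_natCast.mpr hpm)
    exact_mod_cast this
  obtain ⟨Θ, hΘN, hΘc, hΘw⟩ := exists_theta hg0 ((Int.natCast_dvd_natCast.mpr hgm).trans hw)
  have hα₀N : N (star Θ) = g := by rw [N_star, hΘN]
  have hα₀ : ∀ p : ℕ, p.Prime → p ∣ m → ¬ (p : ℤ) ∣ ev w (star Θ) := by
    intro p hp hpm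
    have := h5 p hp hpm
    by_cases hpg : p ∣ g
    · exact theta_coprime hΘc hp (by omega) (hpw p hpm)
        ((Int.natCast_dvd_natCast.mpr hpg).trans hΘw)
    · apply not_dvd_ev (hpw p hpm)
      rw [hα₀N]
      exact_mod_cast hpg
  -- local values
  have hval : ∀ B : GI, (∀ p : ℕ, p.Prime → p ∣ m →
      ¬ ((p : ℤ) ∣ B.re ∧ (p : ℤ) ∣ B.im ∧ (p : ℤ) ∣ S)) →
      ∀ p ∈ m.primeFactors, ∃ e : ℤ, ¬ (p : ℤ) ∣ Pv q w B S e := by
    intro B hB p hp
    have hpp := Nat.prime_of_mem_primeFactors hp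
    have hpm := Nat.dvd_of_mem_primeFactors hp
    exact exists_val hpp (h5 p hpp hpm) (hqp p hpp hpm) (hpw p hpm) B S (hB p hpp hpm)
  have hpmv : ∀ B : GI, ∀ e : ℤ, ∀ p : ℕ, p.Prime → p ∣ m → ¬ (p : ℤ) ∣ Pv q w B S e →
      (J(q * Pv q w B S e | p) = 1 ∨ J(q * Pv q w B S e | p) = -1) := by
    intro B e p hp hpm h
    apply jac_pm hp
    intro hd
    rcases prime_dvd_mul hp hd with h' | h'
    · exact hqp p hp hpm h'
    · exact h h'
  have hcl : ∀ B : GI, ∀ e : ℤ, ∀ α : GI, ∀ p : ℕ, p.Prime → p ∣ m → ¬ (p : ℤ) ∣ Pv q w B S e →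
      J(ev w α | p) = J(q * Pv q w B S e | p) → J(Pv q w B S e * (q * ev w α) | p) = 1 := by
    intro B e α p hp hpm h hJ
    have e1 : Pv q w B S e * (q * ev w α) = (q * Pv q w B S e) * ev w α := by ring
    rw [e1, jacobiSym.mul_left, hJ]
    rcases hpmv B e p hp hpm h with h' | h' <;> rw [h'] <;> norm_num
  obtain ⟨ef, hef⟩ : ∃ ef : ℕ → ℤ, ∀ p ∈ m.primeFactors, ¬ (p : ℤ) ∣ Pv q w A S (ef p) := by
    have := hval A hprim
    choose! ef hef using this
    exact ⟨ef, hef⟩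
  by_cases hcase : ∃ p₀ : ℕ, p₀.Prime ∧ p₀ ∣ m ∧
      (J(q | p₀) ≠ -1 ∨ g.factorization p₀ < m.factorization p₀)
  · -- case (ii)
    obtain ⟨p₀, hp₀, hp₀m, hp₀c⟩ := hcase
    obtain ⟨ρ₀, hρ0, hρW, hρgood, hρcop, hfam⟩ := select hq h4 hm hg hqm hw g.primeFactors
      (Nat.primeFactors_mono hgm hm)
    obtain ⟨m₁, hm₁⟩ := hgm
    obtain ⟨c₁, hc₁⟩ := hgc
    have hm₁0 : m₁ ≠ 0 := by rintro rfl; simp at hm₁; exact hm hm₁
    have hm₁m : m₁ ∣ m := ⟨g, by rw [hm₁]; ring⟩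
    have hcop1 : IsCoprime c₁ m₁ := by
      have hgpos : 0 < Int.gcd c m := Nat.pos_of_ne_zero hg0
      have h1 := Int.gcd_ediv_gcd_ediv_gcd hgpos
      rw [← hgdef] at h1
      have h2 : c / (g : ℤ) = c₁ := by rw [hc₁]; exact Int.mul_ediv_cancel_left _ hgZ
      have h3 : (m : ℤ) / (g : ℤ) = m₁ := by
        rw [hm₁]; push_cast; exact Int.mul_ediv_cancel_left _ hgZ
      rw [h2, h3] at h1
      exact Int.isCoprime_iff_gcd_eq_one.mpr h1
    have hcop2 : IsCoprime (N ρ₀) (m₁ : ℤ) := by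
      apply isCoprime_of_primes (Or.inl hρ0)
      intro p hp h1 h2
      exact hρcop p hp ((by exact_mod_cast h2 : p ∣ m₁).trans hm₁m) h1
    obtain ⟨u, u', hu⟩ := hcop2
    have hcop3 : IsCoprime (u * c₁) (m₁ : ℤ) := by
      apply IsCoprime.mul_left _ hcop1
      exact ⟨N ρ₀, u', by linear_combination hu⟩
    have hoddm : m % 2 = 1 := by
      by_contra h
      have := hg 2 Nat.prime_two (by omega)
      omega
    have hodd1 : m₁ % 2 = 1 := by
      by_contra h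
      have h2 : 2 ∣ m₁ := by omega
      have := h2.trans hm₁m
      omega
    obtain ⟨r, σ, hrm, hr, hr4, hrJ, hrv, hσ⟩ := dir hq h4 hm₁0 hodd1
      (fun h => hqm (h.trans hm₁m)) (u * c₁) hcop3 m
    have hr0 : (r : ℤ) ≠ 0 := by exact_mod_cast hr.ne_zero
    have hrcop : ∀ p : ℕ, p.Prime → p ∣ m → ¬ (p : ℤ) ∣ (r : ℤ) := by
      intro p hp hpm hd
      have h1 : p = r := (Nat.prime_dvd_prime_iff_eq hp hr).mp (by exact_mod_cast hd)
      have := Nat.le_of_dvd (Nat.pos_of_ne_zero hm) hpm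
      omega
    have hσev : ∀ p : ℕ, p.Prime → p ∣ m → ¬ (p : ℤ) ∣ ev w σ := by
      intro p hp hpm
      apply not_dvd_ev (hpw p hpm)
      rw [hσ]; exact hrcop p hp hpm
    have hασ : ∀ p : ℕ, p.Prime → p ∣ m → ¬ (p : ℤ) ∣ ev w (star Θ * σ) := fun p hp hpm =>
      ev_mul_not_dvd hp (hpw p hpm) (hα₀ p hp hpm) (hσev p hp hpm)
    obtain ⟨ρ, hρN, hρT, -⟩ := hfam
      (fun p => J(q * Pv q w A S (ef p) | p) * J(ev w (star Θ * σ) | p)) (by
        intro p hp
        have hpp := Nat.prime_of_mem_primeFactors hp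
        have hpm : p ∣ m := (Nat.dvd_of_mem_primeFactors hp).trans ⟨m₁, hm₁⟩
        have h1 := hpmv A (ef p) p hpp hpm (hef p (Nat.mem_primeFactors.mpr ⟨hpp, hpm, hm⟩))
        have h2 := jac_pm hpp (hασ p hpp hpm)
        rcases h1 with h1 | h1 <;> rcases h2 with h2 | h2 <;> rw [h1, h2] <;> norm_num)
    have hρev : ∀ p : ℕ, p.Prime → p ∣ m → ¬ (p : ℤ) ∣ ev w ρ := by
      intro p hp hpm
      apply not_dvd_ev (hpw p hpm)
      rw [hρN]; exact hρcop p hp hpm
    have hNα : N (star Θ * σ * ρ) = g * r * N ρ₀ := by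
      rw [N_mul, N_mul, hα₀N, hσ, hρN]
    obtain ⟨A', S', hA', hS', hf'⟩ := orbit_int hq hm hg hqm hSA A S (star Θ * σ * ρ)
      (fun p hp hpm => ev_mul_not_dvd hp (hpw p hpm) (hασ p hp hpm) (hρev p hp hpm))
      (by
        rw [hNα, ← hc, hc₁, hm₁]
        obtain ⟨b, hb⟩ := hrv
        refine ⟨b * N ρ₀ - c₁ * u', ?_⟩
        push_cast
        linear_combination (g * N ρ₀) * hb + (g * c₁) * hu)
      (by
        intro p hp hpm hpc
        have hpg := hgpc p hpm hpc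
        have hmem : p ∈ m.primeFactors := Nat.mem_primeFactors.mpr ⟨hp, hpm, hm⟩
        refine ⟨ef p, hcl A (ef p) _ p hp hpm (hef p hmem) ?_⟩
        rw [X_mul (hpw p hpm), hρT p (Nat.mem_primeFactors.mpr ⟨hp, hpg, hg0⟩)]
        have h2 := jac_pm hp (hασ p hp hpm)
        rcases h2 with h2 | h2 <;> rw [h2] <;> ring)
    refine ⟨A', S', hA', hS', ?_, ?_, ?_⟩
    · rw [hf', hNα]
      exact mul_ne_zero (mul_ne_zero hgZ hr0) hρ0
    · rw [hf', hNα]
      apply Wt_wB_zero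
      intro p hp hd
      rcases prime_dvd_mul hp hd with h | h
      · rcases prime_dvd_mul hp h with h | h
        · exact hg p hp ((by exact_mod_cast h : p ∣ g).trans ⟨m₁, hm₁⟩)
        · have : p = r := (Nat.prime_dvd_prime_iff_eq hp hr).mp (by exact_mod_cast h)
          rw [this]; exact hr4
      · exact hρgood p hp h
    · rw [hf', hNα, Wt_mul _ (mul_ne_zero hgZ hr0) hρ0, Wt_mul _ hgZ hr0, hρW, Wt_prime _ hr]
      have hwr : wG q r = 1 := by simp [wG, hr4, hrJ]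
      rw [hwr]
      exact weight_ii hm ⟨m₁, hm₁⟩ hg p₀ hp₀ hp₀m hp₀c
  · -- case (i)
    push Not at hcase
    have hgm' : g = m := by
      apply Nat.dvd_antisymm hgm
      rw [← Nat.factorization_le_iff_dvd hm hg0]
      intro p
      by_cases hp : p.Prime
      · by_cases hpm : p ∣ m
        · exact (hcase p hp hpm).2
        · rw [Nat.factorization_eq_zero_of_not_dvd hpm]; exact Nat.zero_le _
      · rw [Nat.factorization_eq_zero_of_not_prime _ hp]; exact Nat.zero_le _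
    have hmc : (m : ℤ) ∣ c := by rw [← hgm']; exact hgc
    obtain ⟨p₀, hp₀, hp₀m⟩ := Nat.exists_prime_and_dvd (n := m) (by omega)
    have hp₀mem : p₀ ∈ m.primeFactors := Nat.mem_primeFactors.mpr ⟨hp₀, hp₀m, hm⟩
    obtain ⟨ρ₀, hρ0, hρW, hρgood, hρcop, hfam⟩ := select hq h4 hm hg hqm hw
      (m.primeFactors.erase p₀) (Finset.erase_subset _ _)
    have hρ₀ev : ∀ p : ℕ, p.Prime → p ∣ m → ¬ (p : ℤ) ∣ ev w ρ₀ := by
      intro p hp hpm
      apply not_dvd_ev (hpw p hpm)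
      exact hρcop p hp hpm
    -- the core construction
    have core : ∀ (B : GI) (eB : ℕ → ℤ), (m : ℤ) ∣ fq q B S →
        (∀ p ∈ m.primeFactors, ¬ (p : ℤ) ∣ Pv q w B S (eB p)) →
        J(ev w (star Θ * ρ₀) | p₀) = J(q * Pv q w B S (eB p₀) | p₀) →
        ∃ (A' : GI) (S' : ℤ), Cg m A' B ∧ (m : ℤ) ∣ S' - S ∧ fq q A' S' = m * N ρ₀ := by
      intro B eB hfB heB hJ₀
      obtain ⟨ρ, hρN, hρT, hρn⟩ := hfam
        (fun p => J(q * Pv q w B S (eB p) | p) * J(ev w (star Θ) | p)) (by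
          intro p hp
          have hp' := Finset.mem_of_mem_erase hp
          have hpp := Nat.prime_of_mem_primeFactors hp'
          have hpm := Nat.dvd_of_mem_primeFactors hp'
          have h1 := hpmv B (eB p) p hpp hpm (heB p hp')
          have h2 := jac_pm hpp (hα₀ p hpp hpm)
          rcases h1 with h1 | h1 <;> rcases h2 with h2 | h2 <;> rw [h1, h2] <;> norm_num)
      have hρev : ∀ p : ℕ, p.Prime → p ∣ m → ¬ (p : ℤ) ∣ ev w ρ := by
        intro p hp hpm
        apply not_dvd_ev (hpw p hpm)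
        rw [hρN]; exact hρcop p hp hpm
      have hNα : N (star Θ * ρ) = m * N ρ₀ := by rw [N_mul, hα₀N, hρN, hgm']
      obtain ⟨A', S', hA', hS', hf'⟩ := orbit_int hq hm hg hqm hSA B S (star Θ * ρ)
        (fun p hp hpm => ev_mul_not_dvd hp (hpw p hpm) (hα₀ p hp hpm) (hρev p hp hpm))
        (by
          rw [hNα]
          exact dvd_sub (dvd_mul_right _ _) hfB)
        (by
          intro p hp hpm _
          have hmem : p ∈ m.primeFactors := Nat.mem_primeFactors.mpr ⟨hp, hpm, hm⟩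
          refine ⟨eB p, hcl B (eB p) _ p hp hpm (heB p hmem) ?_⟩
          by_cases hpp₀ : p = p₀
          · subst hpp₀
            rw [X_mul (hpw p hpm)] at hJ₀
            rw [X_mul (hpw p hpm), hρn p hmem (Finset.notMem_erase p _), hJ₀]
          · rw [X_mul (hpw p hpm), hρT p (Finset.mem_erase.mpr ⟨hpp₀, hmem⟩)]
            have h2 := jac_pm hp (hα₀ p hp hpm)
            rcases h2 with h2 | h2 <;> rw [h2] <;> ring)
      exact ⟨A', S', hA', hS', by rw [hf', hNα]⟩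
    have hαρ : ¬ (p₀ : ℤ) ∣ ev w (star Θ * ρ₀) :=
      ev_mul_not_dvd hp₀ (hpw p₀ hp₀m) (hα₀ p₀ hp₀ hp₀m) (hρ₀ev p₀ hp₀ hp₀m)
    obtain ⟨A', S', hA', hS', hf'⟩ : ∃ (A' : GI) (S' : ℤ), Cg m A' A ∧ (m : ℤ) ∣ S' - S ∧
        fq q A' S' = m * N ρ₀ := by
      by_cases hJ₀ : J(ev w (star Θ * ρ₀) | p₀) = J(q * Pv q w A S (ef p₀) | p₀)
      · exact core A ef hmc hef hJ₀
      · have hprim' : ∀ p : ℕ, p.Prime → p ∣ m →
            ¬ ((p : ℤ) ∣ (star A).re ∧ (p : ℤ) ∣ (star A).im ∧ (p : ℤ) ∣ S) := by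
          intro p hp hpm h
          apply hprim p hp hpm
          simpa using h
        obtain ⟨ef', hef'⟩ : ∃ ef' : ℕ → ℤ, ∀ p ∈ m.primeFactors,
            ¬ (p : ℤ) ∣ Pv q w (star A) S (ef' p) := by
          have := hval (star A) hprim'
          choose! ef' hef' using this
          exact ⟨ef', hef'⟩
        have hf₂ : fq q (star A) S = fq q A S := by simp [fq]
        have hrel := class_rel_int hp₀ (hqp p₀ hp₀ hp₀m) (hpw p₀ hp₀m) A S
          ((Int.natCast_dvd_natCast.mpr hp₀m).trans hmc) (hef p₀ hp₀mem) (hef' p₀ hp₀mem)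
        rw [(hcase p₀ hp₀ hp₀m).1] at hrel
        have h1 := hpmv A (ef p₀) p₀ hp₀ hp₀m (hef p₀ hp₀mem)
        have h2 := hpmv (star A) (ef' p₀) p₀ hp₀ hp₀m (hef' p₀ hp₀mem)
        have h3 := jac_pm hp₀ hαρ
        obtain ⟨A', S', hA', hS', hf'⟩ := core (star A) ef' (by rw [hf₂]; exact hmc) hef' (by
          rcases h1 with h1 | h1 <;> rcases h2 with h2 | h2 <;> rcases h3 with h3 | h3 <;>
            rw [h1, h2] at hrel <;> rw [h1, h3] at hJ₀ <;> rw [h2, h3] <;> norm_num at *)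
        refine ⟨star A', S', ?_, hS', ?_⟩
        · have := hA'.star
          rwa [star_star] at this
        · rw [← hf']; simp [fq]
    refine ⟨A', S', hA', hS', ?_, ?_, ?_⟩
    · rw [hf']
      exact mul_ne_zero hmZ hρ0
    · rw [hf']
      apply Wt_wB_zero
      intro p hp hd
      rcases prime_dvd_mul hp hd with h | h
      · exact hg p hp (by exact_mod_cast h)
      · exact hρgood p hp h
    · rw [hf', Wt_mul _ hmZ hρ0, hρW, Finset.card_erase_of_mem hp₀mem]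
      have h1 := weight_i (q := q) hm hg
      have h2 : 0 < m.primeFactors.card := Finset.card_pos.mpr ⟨p₀, hp₀mem⟩
      omega

end Pool.Agent.Lib.H65.TE
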