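import Mathlib
import Pool.Agent.Lib.H65.TE10

/-!
The Euclidean step for the ternary form.
-/

namespace Pool.Agent.Lib.H65.TE

open NumberTheorySymbols

lemma weight_T1 {m : ℕ} (hm : m ≠ 0) {f : ℤ} (hf : f ≠ 0)
    (h1 : ∀ p : ℕ, p.Prime → p % 4 ≠ 1 → ¬ p ∣ m → ¬ (p : ℤ) ∣ f)
    (h2 : ∀ p : ℕ, p.Prime → p % 4 ≠ 1 → p ∣ m → ¬ (p : ℤ) ^ (2 * m.factorization p) ∣ f)
    {p₀ : ℕ} (hp₀ : p₀.Prime) (hp₀4 : p₀ % 4 ≠ 1) (hp₀m : p₀ ∣ m) :
    Wt wB f < 2 * Wt wB (m : ℤ) := by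
  classical
  have hf' : f.natAbs ≠ 0 := by simpa using hf
  set S : Finset ℕ := f.natAbs.primeFactors ∪ m.primeFactors with hS
  have e1 := Wt_eq_sum wB (n := f) (S := S) Finset.subset_union_left
  have e2 : Wt wB (m : ℤ) = ∑ p ∈ S, m.factorization p * wB p := by
    have := Wt_eq_sum wB (n := (m : ℤ)) (S := S) (by
      rw [Int.natAbs_natCast]; exact Finset.subset_union_right)
    simpa using this
  rw [e1, e2, Finset.mul_sum]
  have key : ∀ p ∈ S, p ∣ m → p % 4 ≠ 1 → p.Prime →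
      f.natAbs.factorization p < 2 * m.factorization p := by
    intro p _ hpm hp4 hp
    by_contra hcon
    apply h2 p hp hp4 hpm
    have h3 : p ^ (2 * m.factorization p) ∣ f.natAbs :=
      (hp.pow_dvd_iff_le_factorization hf').mpr (not_lt.mp hcon)
    have h4 : ((p ^ (2 * m.factorization p) : ℕ) : ℤ) ∣ f := Int.natCast_dvd.mpr h3
    exact_mod_cast h4
  apply Finset.sum_lt_sum
  · intro p hp
    have hpp : p.Prime := by
      rw [hS, Finset.mem_union] at hp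
      rcases hp with h | h <;> exact Nat.prime_of_mem_primeFactors h
    by_cases hp4 : p % 4 = 1
    · simp [wB, hp4]
    · simp only [wB, hp4, if_false, mul_one]
      by_cases hpm : p ∣ m
      · exact (key p hp hpm hp4 hpp).le
      · have : f.natAbs.factorization p = 0 := by
          apply Nat.factorization_eq_zero_of_not_dvd
          intro hd
          exact h1 p hpp hp4 hpm (Int.natCast_dvd.mpr hd)
        rw [this]; exact Nat.zero_le _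
  · have hmem : p₀ ∈ S := by
      rw [hS, Finset.mem_union]
      exact Or.inr (Nat.mem_primeFactors.mpr ⟨hp₀, hp₀m, hm⟩)
    refine ⟨p₀, hmem, ?_⟩
    simp only [wB, hp₀4, if_false, mul_one]
    exact key p₀ hmem hp₀m hp₀4 hp₀

/-- primitive version -/
lemma step_prim {q : ℕ} (hq : q.Prime) (h4 : q % 4 = 3) {m : ℕ} (hm1 : 1 < m) (A : GI) (S : ℤ)
    (hprim : ∀ p : ℕ, p.Prime → p ∣ m → ¬ ((p : ℤ) ∣ A.re ∧ (p : ℤ) ∣ A.im ∧ (p : ℤ) ∣ S)) :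
    ∃ (A' : GI) (S' : ℤ), Cg m A' A ∧ (m : ℤ) ∣ S' - S ∧ fq q A' S' ≠ 0 ∧
      (Wt wB (fq q A' S') < 2 * Wt wB m ∨
        (Wt wB (fq q A' S') ≤ 2 * Wt wB m ∧ Wt (wG q) (fq q A' S') < 2 * Wt (wG q) m)) := by
  by_cases hbad : ∃ p₀ : ℕ, p₀.Prime ∧ p₀ % 4 ≠ 1 ∧ p₀ ∣ m
  · obtain ⟨p₀, hp₀, hp₀4, hp₀m⟩ := hbad
    obtain ⟨A', S', hA', hS', h1, h2⟩ := T1 hq h4 (by omega : 0 < m) A S hprim
    have hf : fq q A' S' ≠ 0 := by
      intro h0
      apply h2 p₀ hp₀ hp₀4 hp₀m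
      rw [h0]; exact dvd_zero _
    exact ⟨A', S', hA', hS', hf, Or.inl (weight_T1 (by omega) hf h1 h2 hp₀ hp₀4 hp₀m)⟩
  · push Not at hbad
    obtain ⟨A', S', hA', hS', hf, h1, h2⟩ := lemmaG hq h4 hm1 (fun p hp hpm => by
      by_contra h
      exact hbad p hp h hpm) A S hprim
    exact ⟨A', S', hA', hS', hf, Or.inr ⟨by omega, h2⟩⟩

/-- The Euclidean step. -/
theorem step {q : ℕ} (hq : q.Prime) (h4 : q % 4 = 3) {n : ℤ} (hn : n ≠ 0) (A : GI) (S : ℤ)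
    (hnd : ¬ (n ∣ A.re ∧ n ∣ A.im ∧ n ∣ S)) :
    ∃ (A' : GI) (S' : ℤ), Cg n A' A ∧ n ∣ S' - S ∧ fq q A' S' ≠ 0 ∧
      (Wt wB (fq q A' S') < 2 * Wt wB n ∨
        (Wt wB (fq q A' S') ≤ 2 * Wt wB n ∧ Wt (wG q) (fq q A' S') < 2 * Wt (wG q) n)) := by
  set g : ℕ := Nat.gcd n.natAbs (Nat.gcd A.re.natAbs (Nat.gcd A.im.natAbs S.natAbs)) with hg
  have hg1 : (g : ℤ) ∣ n := Int.natCast_dvd.mpr (Nat.gcd_dvd_left _ _)
  have hg' : g ∣ Nat.gcd A.re.natAbs (Nat.gcd A.im.natAbs S.natAbs) := Nat.gcd_dvd_right _ _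
  have hg2 : (g : ℤ) ∣ A.re := Int.natCast_dvd.mpr (hg'.trans (Nat.gcd_dvd_left _ _))
  have hg'' : g ∣ Nat.gcd A.im.natAbs S.natAbs := hg'.trans (Nat.gcd_dvd_right _ _)
  have hg3 : (g : ℤ) ∣ A.im := Int.natCast_dvd.mpr (hg''.trans (Nat.gcd_dvd_left _ _))
  have hg4 : (g : ℤ) ∣ S := Int.natCast_dvd.mpr (hg''.trans (Nat.gcd_dvd_right _ _))
  have hg0 : g ≠ 0 := by
    rintro h
    rw [h] at hg1
    exact hn (by simpa using hg1)
  have hgZ : (g : ℤ) ≠ 0 := by exact_mod_cast hg0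
  have huniv : ∀ d : ℕ, (d : ℤ) ∣ n → (d : ℤ) ∣ A.re → (d : ℤ) ∣ A.im → (d : ℤ) ∣ S → d ∣ g := by
    intro d h1 h2 h3 h5
    rw [Int.natCast_dvd] at h1 h2 h3 h5
    exact Nat.dvd_gcd h1 (Nat.dvd_gcd h2 (Nat.dvd_gcd h3 h5))
  obtain ⟨n', hn'⟩ := hg1
  obtain ⟨a, ha⟩ := hg2
  obtain ⟨b, hb⟩ := hg3
  obtain ⟨s, hs⟩ := hg4
  have hn'0 : n' ≠ 0 := by rintro rfl; simp at hn'; exact hn hn'
  set m : ℕ := n'.natAbs with hmdef
  have hm0 : m ≠ 0 := by simpa [hmdef] using hn'0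
  have hmn' : ∀ x : ℤ, (m : ℤ) ∣ x ↔ n' ∣ x := fun x => by rw [hmdef]; exact Int.natAbs_dvd
  have hm1 : 1 < m := by
    by_contra hcon
    have hm1 : m = 1 := by omega
    apply hnd
    have hu : ∀ x : ℤ, n' ∣ x := fun x => by rw [← hmn', hm1]; simp
    refine ⟨?_, ?_, ?_⟩
    · rw [hn', ha]; exact mul_dvd_mul_left _ (hu _)
    · rw [hn', hb]; exact mul_dvd_mul_left _ (hu _)
    · rw [hn', hs]; exact mul_dvd_mul_left _ (hu _)
  obtain ⟨A₁, S₁, hA₁, hS₁, hf₁, hw₁⟩ := step_prim hq h4 hm1 ⟨a, b⟩ s (by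
    rintro p hp hpm ⟨h1, h2, h3⟩
    simp only at h1 h2
    have hpm' : (p : ℤ) ∣ n' := Int.natCast_dvd.mpr hpm
    have h5 : p * g ∣ g := by
      apply huniv
      · rw [hn']; push_cast; rw [mul_comm]; exact mul_dvd_mul_left _ hpm'
      · rw [ha]; push_cast; rw [mul_comm]; exact mul_dvd_mul_left _ h1
      · rw [hb]; push_cast; rw [mul_comm]; exact mul_dvd_mul_left _ h2
      · rw [hs]; push_cast; rw [mul_comm]; exact mul_dvd_mul_left _ h3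
    have h6 := Nat.le_of_dvd (Nat.pos_of_ne_zero hg0) h5
    have h7 := hp.two_le
    have h8 := Nat.pos_of_ne_zero hg0
    nlinarith)
  have hfg : fq q ((g : GI) * A₁) (g * S₁) = (g : ℤ) * g * fq q A₁ S₁ := by
    simp only [fq, N_mul]
    have : N (g : GI) = (g : ℤ) ^ 2 := by
      have := N_intCast (g : ℤ)
      simpa using this
    rw [this]; ring
  have hWn : ∀ f : ℕ → ℕ, Wt f n = Wt f g + Wt f m := by
    intro f
    have e : Wt f n' = Wt f (m : ℤ) := by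
      unfold Wt
      rw [Int.natAbs_natCast]
    rw [hn', Wt_mul f hgZ hn'0, e]
  have hWf : ∀ f : ℕ → ℕ, Wt f (fq q ((g : GI) * A₁) (g * S₁)) =
      2 * Wt f g + Wt f (fq q A₁ S₁) := by
    intro f
    rw [hfg, Wt_mul f (mul_ne_zero hgZ hgZ) hf₁, Wt_mul f hgZ hgZ]
    ring
  refine ⟨(g : GI) * A₁, g * S₁, ?_, ?_, ?_, ?_⟩
  · rw [cg_iff] at hA₁ ⊢
    obtain ⟨h1, h2⟩ := hA₁
    rw [hmn'] at h1 h2
    simp only at h1 h2
    constructor
    · have e : ((g : GI) * A₁).re - A.re = g * (A₁.re - a) := by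
        rw [ha]; simp; ring
      rw [e, hn']; exact mul_dvd_mul_left _ h1
    · have e : ((g : GI) * A₁).im - A.im = g * (A₁.im - b) := by
        rw [hb]; simp; ring
      rw [e, hn']; exact mul_dvd_mul_left _ h2
  · have e : g * S₁ - S = g * (S₁ - s) := by rw [hs]; ring
    rw [e, hn']
    exact mul_dvd_mul_left _ ((hmn' _).mp hS₁)
  · rw [hfg]; exact mul_ne_zero (mul_ne_zero hgZ hgZ) hf₁
  · rw [hWf, hWf, hWn, hWn]
    rcases hw₁ with h | ⟨h, h'⟩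
    · left; omega
    · right; constructor <;> omega

end Pool.Agent.Lib.H65.TE
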