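import Mathlib
import Pool.Agent.Lib.H65.TE11

/-!
The quaternion algebra `(-1, q)` over `ℚ` and its order `O_q = ℤ[i] + ℤ[i] j`.
-/

namespace Pool.Agent.Lib.H65.TE

open scoped Quaternion
open NumberTheorySymbols

/-- the quaternion with Gaussian integer coordinates `x + y j` -/
def emb (q : ℕ) (x y : GI) : ℍ[ℚ, -1, (q : ℚ)] := ⟨x.re, x.im, y.re, y.im⟩

lemma emb_inj {q : ℕ} {x y z w : GI} (h : emb q x y = emb q z w) : x = z ∧ y = w := by
  have h1 := congrArg QuaternionAlgebra.re h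
  have h2 := congrArg QuaternionAlgebra.imI h
  have h3 := congrArg QuaternionAlgebra.imJ h
  have h4 := congrArg QuaternionAlgebra.imK h
  simp only [emb] at h1 h2 h3 h4
  exact ⟨Zsqrtd.ext (by exact_mod_cast h1) (by exact_mod_cast h2),
    Zsqrtd.ext (by exact_mod_cast h3) (by exact_mod_cast h4)⟩

lemma emb_mul (q : ℕ) (x y z w : GI) : emb q x y * emb q z w =
    emb q (x * z + (q : GI) * y * star w) (x * w + y * star z) := by
  ext <;> simp [emb] <;> ring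

lemma emb_add (q : ℕ) (x y z w : GI) : emb q x y + emb q z w = emb q (x + z) (y + w) := by
  ext <;> simp [emb]

lemma emb_sub (q : ℕ) (x y z w : GI) : emb q x y - emb q z w = emb q (x - z) (y - w) := by
  ext <;> simp [emb]

lemma emb_neg (q : ℕ) (x y : GI) : - emb q x y = emb q (-x) (-y) := by
  ext <;> simp [emb]

lemma emb_zero (q : ℕ) : emb q 0 0 = 0 := by
  ext <;> simp [emb]

lemma emb_one (q : ℕ) : emb q 1 0 = 1 := by
  ext <;> simp [emb]

/-- norm form of `O_q` -/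
def nq (q : ℕ) (x y : GI) : ℤ := N x - q * N y

lemma nq_mul (q : ℕ) (x y z w : GI) :
    nq q (x * z + (q : GI) * y * star w) (x * w + y * star z) = nq q x y * nq q z w := by
  simp only [nq, N, Zsqrtd.re_add, Zsqrtd.im_add, Zsqrtd.re_mul, Zsqrtd.im_mul, Zsqrtd.re_star,
    Zsqrtd.im_star, Zsqrtd.re_natCast, Zsqrtd.im_natCast]
  ring

lemma nq_ne_zero {q : ℕ} (hq : q.Prime) (h4 : q % 4 = 3) {x y : GI} (h : ¬ (x = 0 ∧ y = 0)) :
    nq q x y ≠ 0 := by
  intro h0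
  apply h
  apply N_ne_mul' hq h4
  simp only [nq] at h0
  linarith

lemma rat_norm {q : ℕ} (hq : q.Prime) (h4 : q % 4 = 3) {a b c d : ℚ}
    (h : a ^ 2 + b ^ 2 - q * (c ^ 2 + d ^ 2) = 0) : a = 0 ∧ b = 0 ∧ c = 0 ∧ d = 0 := by
  set D : ℤ := (a.den : ℤ) * b.den * c.den * d.den with hD
  have hD0 : (D : ℚ) ≠ 0 := by
    have h1 := a.den_ne_zero
    have h2 := b.den_ne_zero
    have h3 := c.den_ne_zero
    have h4 := d.den_ne_zero
    rw [hD]; push_cast
    positivity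
  have key : ∀ x : ℚ, ∃ m : ℤ, (m : ℚ) = x.den * x := fun x => ⟨x.num, by
    rw [mul_comm]; exact (Rat.mul_den_eq_num x).symm⟩
  obtain ⟨a', ha'⟩ := key a
  obtain ⟨b', hb'⟩ := key b
  obtain ⟨c', hc'⟩ := key c
  obtain ⟨d', hd'⟩ := key d
  obtain ⟨A, hA⟩ : ∃ A : ℤ, (A : ℚ) = D * a :=
    ⟨a' * b.den * c.den * d.den, by rw [hD]; push_cast; rw [ha']; ring⟩
  obtain ⟨B, hB⟩ : ∃ B : ℤ, (B : ℚ) = D * b :=
    ⟨a.den * b' * c.den * d.den, by rw [hD]; push_cast; rw [hb']; ring⟩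
  obtain ⟨C, hC⟩ : ∃ C : ℤ, (C : ℚ) = D * c :=
    ⟨a.den * b.den * c' * d.den, by rw [hD]; push_cast; rw [hc']; ring⟩
  obtain ⟨E, hE⟩ : ∃ E : ℤ, (E : ℚ) = D * d :=
    ⟨a.den * b.den * c.den * d', by rw [hD]; push_cast; rw [hd']; ring⟩
  have h1 : N ⟨A, B⟩ = q * N ⟨C, E⟩ := by
    simp only [N]
    have : ((A ^ 2 + B ^ 2 : ℤ) : ℚ) = ((q * (C ^ 2 + E ^ 2) : ℤ) : ℚ) := by
      push_cast
      rw [hA, hB, hC, hE]
      linear_combination (D : ℚ) ^ 2 * h
    exact_mod_cast this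
  obtain ⟨h2, h3⟩ := N_ne_mul' hq h4 h1
  have hA0 : A = 0 := congrArg Zsqrtd.re h2
  have hB0 : B = 0 := congrArg Zsqrtd.im h2
  have hC0 : C = 0 := congrArg Zsqrtd.re h3
  have hE0 : E = 0 := congrArg Zsqrtd.im h3
  rw [hA0] at hA
  rw [hB0] at hB
  rw [hC0] at hC
  rw [hE0] at hE
  simp only [Int.cast_zero] at hA hB hC hE
  refine ⟨?_, ?_, ?_, ?_⟩
  · exact (mul_eq_zero.mp hA.symm).resolve_left hD0
  · exact (mul_eq_zero.mp hB.symm).resolve_left hD0
  · exact (mul_eq_zero.mp hC.symm).resolve_left hD0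
  · exact (mul_eq_zero.mp hE.symm).resolve_left hD0

/-- `(-1, q)` is a division algebra over `ℚ` -/
lemma division {q : ℕ} (hq : q.Prime) (h4 : q % 4 = 3) (z : ℍ[ℚ, -1, (q : ℚ)]) (hz : z ≠ 0) :
    IsUnit z := by
  set n : ℚ := z.re ^ 2 + z.imI ^ 2 - q * (z.imJ ^ 2 + z.imK ^ 2) with hn
  have hn0 : n ≠ 0 := by
    intro h0
    obtain ⟨h1, h2, h3, h4'⟩ := rat_norm hq h4 h0
    apply hz
    ext <;> simp [*]
  have h1 : z * (n⁻¹ • star z) = 1 := by
    ext
    · simp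
      field_simp
      rw [hn]; ring
    · simp
      right
      ring
    · simp
      right
      ring
    · simp
      right
      ring
  have h2 : (n⁻¹ • star z) * z = 1 := by
    ext
    · simp
      field_simp
      rw [hn]; ring
    · simp
      right
      ring
    · simp
      right
      ring
    · simp
      right
      ring
  exact ⟨⟨z, n⁻¹ • star z, h1, h2⟩, rfl⟩

/-- the order `O_q` -/
def Oq (q : ℕ) : Subring ℍ[ℚ, -1, (q : ℚ)] where
  carrier := {z | ∃ x y : GI, z = emb q x y}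
  mul_mem' := by
    rintro _ _ ⟨x, y, rfl⟩ ⟨z, w, rfl⟩
    exact ⟨_, _, emb_mul q x y z w⟩
  one_mem' := ⟨1, 0, (emb_one q).symm⟩
  add_mem' := by
    rintro _ _ ⟨x, y, rfl⟩ ⟨z, w, rfl⟩
    exact ⟨_, _, emb_add q x y z w⟩
  zero_mem' := ⟨0, 0, (emb_zero q).symm⟩
  neg_mem' := by
    rintro _ ⟨x, y, rfl⟩
    exact ⟨_, _, emb_neg q x y⟩

lemma mem_Oq {q : ℕ} {z : ℍ[ℚ, -1, (q : ℚ)]} : z ∈ Oq q ↔ ∃ x y : GI, z = emb q x y := Iff.rfl

/-- The Euclidean function -/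
noncomputable def Phi (q : ℕ) (z : ℍ[ℚ, -1, (q : ℚ)]) : ℕ ×ₗ ℕ := by
  classical
  exact if z = 0 then toLex (0, 0) else
    toLex (Wt wB (nq q ⟨z.re.num, z.imI.num⟩ ⟨z.imJ.num, z.imK.num⟩),
      Wt (wG q) (nq q ⟨z.re.num, z.imI.num⟩ ⟨z.imJ.num, z.imK.num⟩) + 1)

lemma Phi_zero (q : ℕ) : Phi q 0 = toLex (0, 0) := by
  simp [Phi]

lemma Phi_emb {q : ℕ} {x y : GI} (h : emb q x y ≠ 0) :
    Phi q (emb q x y) = toLex (Wt wB (nq q x y), Wt (wG q) (nq q x y) + 1) := by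
  unfold Phi
  rw [if_neg h]
  simp [emb]

/-- the Euclidean division in `O_q` in coordinates -/
theorem division_step {q : ℕ} (hq : q.Prime) (h4 : q % 4 = 3) (a₁ a₂ b₁ b₂ : GI)
    (hb : ¬ (b₁ = 0 ∧ b₂ = 0)) (hab : (a₁ * star b₂ + a₂ * star b₁).im = 0) :
    ∃ (x : GI) (s : ℤ), Phi q (emb q a₁ a₂ - emb q b₁ b₂ * emb q x (s : GI)) <
      Phi q (emb q b₁ b₂) := by
  set n : ℤ := nq q b₁ b₂ with hn
  have hn0 : n ≠ 0 := nq_ne_zero hq h4 hb
  have hb0 : emb q b₁ b₂ ≠ 0 := by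
    intro h
    rw [← emb_zero q] at h
    exact hb (emb_inj h)
  set A : GI := star b₁ * a₁ - (q : GI) * b₂ * star a₂ with hA
  set Y : GI := star b₁ * a₂ - b₂ * star a₁ with hY
  have hYim : Y.im = 0 := by
    have e : Y.im = (a₁ * star b₂ + a₂ * star b₁).im := by
      rw [hY]
      simp only [Zsqrtd.im_add, Zsqrtd.im_sub,
        Zsqrtd.im_mul, Zsqrtd.re_star, Zsqrtd.im_star]
      ring
    rw [e, hab]
  set S : ℤ := Y.re with hS
  have hYS : Y = (S : GI) := by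
    apply Zsqrtd.ext
    · rw [Zsqrtd.re_intCast]
    · rw [Zsqrtd.im_intCast, hYim]
  have hnGI : ((n : ℤ) : GI) = b₁ * star b₁ - (q : GI) * (b₂ * star b₂) := by
    rw [hn, nq, ← N_eq, ← N_eq]; push_cast; ring
  -- `b (b̄ a) = n a`
  have hby1 : b₁ * A + (q : GI) * b₂ * star Y = (n : GI) * a₁ := by
    rw [hnGI, hA, hY]
    simp only [star_sub, star_mul, star_star]
    ring
  have hby2 : b₁ * Y + b₂ * star A = (n : GI) * a₂ := by
    rw [hnGI, hA, hY]
    simp only [star_sub, star_mul, star_star, star_nat]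
    ring
  rw [hYS] at hby1 hby2
  rw [star_int] at hby1
  by_cases hdvd : n ∣ A.re ∧ n ∣ A.im ∧ n ∣ S
  · obtain ⟨⟨x, hx⟩, ⟨y, hy⟩, ⟨s, hs⟩⟩ := hdvd
    refine ⟨⟨x, y⟩, s, ?_⟩
    have hAx : A = (n : GI) * ⟨x, y⟩ := by
      apply Zsqrtd.ext
      · simp [hx]
      · simp [hy]
    have hSs : (S : GI) = (n : GI) * (s : GI) := by rw [hs]; push_cast; rfl
    have hnG0 : (n : GI) ≠ 0 := by exact_mod_cast hn0
    have e1 : b₁ * ⟨x, y⟩ + (q : GI) * b₂ * star (s : GI) = a₁ := by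
      apply mul_left_cancel₀ hnG0
      rw [← hby1, hAx, hSs, star_int]; ring
    have e2 : b₁ * (s : GI) + b₂ * star (⟨x, y⟩ : GI) = a₂ := by
      apply mul_left_cancel₀ hnG0
      rw [← hby2, hAx, hSs, star_mul, star_int]; ring
    rw [emb_mul, e1, e2, sub_self, Phi_zero, Phi_emb hb0]
    rw [Prod.Lex.toLex_lt_toLex]
    simp only
    rcases Nat.eq_zero_or_pos (Wt wB (nq q b₁ b₂)) with h | h
    · right; exact ⟨h.symm, Nat.succ_pos _⟩
    · left; exact h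
  · obtain ⟨A', S', ⟨k, hk⟩, ⟨t, ht⟩, hf, hw⟩ := step hq h4 hn0 A S hdvd
    refine ⟨-k, -t, ?_⟩
    have hS' : S' = S + n * t := by linarith
    -- the remainder
    set c₁ : GI := a₁ - (b₁ * (-k) + (q : GI) * b₂ * star ((-t : ℤ) : GI)) with hc₁
    set c₂ : GI := a₂ - (b₁ * ((-t : ℤ) : GI) + b₂ * star (-k)) with hc₂
    have hc : emb q a₁ a₂ - emb q b₁ b₂ * emb q (-k) ((-t : ℤ) : GI) = emb q c₁ c₂ := by
      rw [emb_mul, emb_sub]
    have e1 : (n : GI) * c₁ = b₁ * A' + (q : GI) * b₂ * star (S' : GI) := by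
      rw [hc₁, star_int, star_int, hS', hk]
      push_cast
      linear_combination -hby1
    have e2 : (n : GI) * c₂ = b₁ * (S' : GI) + b₂ * star A' := by
      rw [hc₂, hS', hk]
      push_cast
      simp only [star_add, star_mul, star_neg, star_int]
      linear_combination -hby2
    have hnorm : n * nq q c₁ c₂ = fq q A' S' := by
      have h1 : n * (n * nq q c₁ c₂) = n * fq q A' S' := by
        have h2 : n * (n * nq q c₁ c₂) = nq q ((n : GI) * c₁) ((n : GI) * c₂) := by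
          simp only [nq, N_mul, N_intCast]; ring
        rw [h2, e1, e2, nq_mul, ← hn]
        simp only [nq, fq, N_intCast]
      exact mul_left_cancel₀ hn0 h1
    have hc0 : nq q c₁ c₂ ≠ 0 := by
      intro h0
      apply hf
      rw [← hnorm, h0, mul_zero]
    have hcne : emb q c₁ c₂ ≠ 0 := by
      intro h
      rw [← emb_zero q] at h
      obtain ⟨h1, h2⟩ := emb_inj h
      apply hc0
      rw [h1, h2]; simp [nq]
    rw [hc, Phi_emb hcne, Phi_emb hb0, ← hn, Prod.Lex.toLex_lt_toLex]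
    simp only
    rw [← hnorm, Wt_mul _ hn0 hc0, Wt_mul _ hn0 hc0] at hw
    rcases hw with h | ⟨h, h'⟩
    · left; omega
    · rcases Nat.lt_or_ge (Wt wB (nq q c₁ c₂)) (Wt wB n) with h3 | h3
      · left; exact h3
      · right; constructor <;> omega

end Pool.Agent.Lib.H65.TE
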